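import Pool.Agent.KGU.UDefs

/-! # Closure properties of the class `Sp B` -/

set_option autoImplicit false

open scoped BigOperators

namespace Pool.Agent.KGU

open Pool.Agent.KG

variable {B : Set (FinField → ℤ)}

theorem sp_congr {f g : FinField → ℤ} (hf : Sp B f) (h : ∀ F, f F = g F) : Sp B g := by
  have : f = g := funext h
  rwa [← this]

/-- `Sp.mulp` for `Sp.one`. -/
theorem sp_poly (c : Polynomial ℤ) : Sp B fun F => c.eval F.q :=
  sp_congr (Sp.mulp c Sp.one) fun F => mul_one _

theorem sp_zero : Sp B fun _ => 0 :=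
  sp_congr (sp_poly 0) fun F => by simp

theorem sp_neg {f : FinField → ℤ} (hf : Sp B f) : Sp B fun F => -f F :=
  sp_congr (Sp.mulp (-1) hf) fun F => by simp

theorem sp_sub {f g : FinField → ℤ} (hf : Sp B f) (hg : Sp B g) : Sp B fun F => f F - g F :=
  sp_congr (Sp.add hf (sp_neg hg)) fun F => by ring

theorem sp_mulq (k : ℕ) {f : FinField → ℤ} (hf : Sp B f) : Sp B fun F => F.q ^ k * f F :=
  sp_congr (Sp.mulp (Polynomial.X ^ k) hf) fun F => by simp

theorem sp_divq (k : ℕ) {f : FinField → ℤ} (hf : Sp B fun F => F.q ^ k * f F) : Sp B f :=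
  Sp.div (Polynomial.X ^ k) (Polynomial.monic_X_pow k) (sp_congr hf fun F => by simp)

theorem sp_divq1 (k : ℕ) {f : FinField → ℤ} (hf : Sp B fun F => (F.q - 1) ^ k * f F) : Sp B f :=
  Sp.div ((Polynomial.X - Polynomial.C 1) ^ k) ((Polynomial.monic_X_sub_C 1).pow k)
    (sp_congr hf fun F => by simp)

/-- Division by `q ^ (a + k + 1) - q ^ a`. -/
theorem sp_divqq (a k : ℕ) {f : FinField → ℤ} (hf : Sp B fun F => (F.q ^ (a + k + 1) - F.q ^ a) * f F) :
    Sp B f :=
  Sp.div (Polynomial.X ^ a * (Polynomial.X ^ (k + 1) - Polynomial.C 1))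
    ((Polynomial.monic_X_pow a).mul (Polynomial.monic_X_pow_sub_C 1 (Nat.succ_ne_zero k)))
    (sp_congr hf fun F => by
      rw [Polynomial.eval_mul, Polynomial.eval_pow, Polynomial.eval_X, Polynomial.eval_sub,
        Polynomial.eval_pow, Polynomial.eval_X, Polynomial.eval_C]
      ring)

theorem sp_sum {ι : Type} (s : Finset ι) (f : ι → FinField → ℤ) (hf : ∀ i ∈ s, Sp B (f i)) :
    Sp B fun F => ∑ i ∈ s, f i F := by
  classical
  induction s using Finset.induction_on with
  | empty => exact sp_congr sp_zero fun F => by simp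
  | insert a s ha ih =>
    exact sp_congr (Sp.add (hf a (Finset.mem_insert_self a s))
      (ih fun i hi => hf i (Finset.mem_insert_of_mem hi))) fun F => by
      rw [Finset.sum_insert ha]

/-- A larger set of generators. -/
theorem sp_trans {B' : Set (FinField → ℤ)} (h : ∀ f ∈ B, Sp B' f) {f : FinField → ℤ} (hf : Sp B f) :
    Sp B' f := by
  induction hf with
  | base hf => exact h _ hf
  | one => exact Sp.one
  | add _ _ ih1 ih2 => exact Sp.add ih1 ih2
  | mulp c _ ih => exact Sp.mulp c ih
  | div m hm _ ih => exact Sp.div m hm ih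

end Pool.Agent.KGU
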