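import Pool.Agent.KGU.SubG
import Pool.Agent.KGU.USp

/-! # Reduction to graphs of maximal degree 3 -/

set_option autoImplicit false

open scoped BigOperators

namespace Pool.Agent.KGU

open Pool.Agent.KG

variable {V E : Type} [Fintype V] [Fintype E]

/-- PROOF: `{e | s e = v}.ncard + {e | t e = v}.ncard ≥ 2`; choose subsets of sizes with sum `2`
(`Set.exists_subset_card_eq`). -/
theorem exists_ends (s t : E → V) (v : V) (h : 2 ≤ deg s t v) :
    ∃ α β : Set E, (∀ e ∈ α, s e = v) ∧ (∀ e ∈ β, t e = v) ∧ α.ncard + β.ncard = 2 := by
  unfold deg at h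
  obtain ⟨α, hα1, hα2⟩ := Set.exists_subset_card_eq
    (min_le_left {e | s e = v}.ncard 2)
  have h2 : 2 - min {e | s e = v}.ncard 2 ≤ {e | t e = v}.ncard := by omega
  obtain ⟨β, hβ1, hβ2⟩ := Set.exists_subset_card_eq h2
  refine ⟨α, β, fun e he => hα1 he, fun e he => hβ1 he, ?_⟩
  rw [hα2, hβ2]
  omega

/-- Degrees after splitting. PROOF: the ends in `α`, `β` are moved from `v` to `none`; adding an edge adds one
at its two (different) ends. -/
theorem deg_splitV (s t : E → V) (v : V) (α β : Set E) (hα : ∀ e ∈ α, s e = v) (hβ : ∀ e ∈ β, t e = v)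
    (h2 : α.ncard + β.ncard = 2) :
    deg (splitV s α) (splitV t β) none = 2 ∧ deg (splitV s α) (splitV t β) (some v) + 2 = deg s t v ∧
      ∀ x, x ≠ v → deg (splitV s α) (splitV t β) (some x) = deg s t x := by
  have hnone : ∀ (s : E → V) (α : Set E), {e | splitV s α e = none} = α := by
    intro s α
    ext e
    unfold splitV
    by_cases he : e ∈ α
    · simp [he]
    · simp [he]
  have hv : ∀ (s : E → V) (α : Set E), (∀ e ∈ α, s e = v) →
      {e | splitV s α e = some v}.ncard + α.ncard = {e | s e = v}.ncard := by
    intro s α hα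
    have h1 : {e | splitV s α e = some v} = {e | s e = v} \ α := by
      ext e
      unfold splitV
      by_cases he : e ∈ α
      · simp [he]
      · simp [he]
    rw [h1]
    exact Set.ncard_sdiff_add_ncard_of_subset hα (Set.toFinite _)
  have hx : ∀ (s : E → V) (α : Set E), (∀ e ∈ α, s e = v) → ∀ x, x ≠ v →
      {e | splitV s α e = some x} = {e | s e = x} := by
    intro s α hα x hx
    ext e
    unfold splitV
    by_cases he : e ∈ α
    · have h1 := hα e he
      simp [he, h1, Ne.symm hx]
    · simp [he]
  refine ⟨?_, ?_, fun x hxv => ?_⟩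
  · unfold deg
    rw [hnone, hnone]
    exact h2
  · unfold deg
    have h3 := hv s α hα
    have h4 := hv t β hβ
    omega
  · unfold deg
    rw [hx s α hα x hxv, hx t β hβ x hxv]

open Classical in
theorem deg_ae (s t : E → V) (a b : V) (x : V) :
    deg (ae a s) (ae b t) x = deg s t x + (if a = x then 1 else 0) + (if b = x then 1 else 0) := by
  have h1 : ∀ (a : V) (s : E → V), {e | ae a s e = x}.ncard =
      {e | s e = x}.ncard + (if a = x then 1 else 0) := by
    intro a s
    have h2 : {e | ae a s e = x} = (some '' {e | s e = x}) ∪ (if a = x then {none} else ∅) := by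
      ext e
      rcases e with _ | e
      · by_cases hax : a = x
        · simp [ae, hax]
        · simp [ae, hax]
      · by_cases hax : a = x
        · simp [ae, hax]
        · simp [ae, hax]
    rw [h2, Set.ncard_union_eq ?_ (Set.toFinite _) (Set.toFinite _),
      Set.ncard_image_of_injective _ (Option.some_injective _)]
    · split_ifs <;> simp
    · rw [Set.disjoint_left]
      rintro _ ⟨e, _, rfl⟩
      split_ifs <;> simp
  unfold deg
  rw [h1, h1]
  ring

omit [Fintype V] in
theorem deg_some (s t : E → V) (x : V) : deg (some ∘ s) (some ∘ t) (some x) = deg s t x ∧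
    deg (some ∘ s) (some ∘ t) (none : Option V) = 0 := by
  unfold deg
  have h1 : ∀ s : E → V, {e | (some ∘ s) e = some x} = {e | s e = x} := by
    intro s
    ext e
    simp
  have h2 : ∀ s : E → V, {e | (some ∘ s) e = (none : Option V)} = ∅ := by
    intro s
    ext e
    simp
  rw [h1, h1, h2, h2]
  simp

/-- PROOF: `deg_splitV`, `deg_ae`, `deg_some`: the excess at `v` is `deg v - 3` on the right and at most `deg v - 4` on
the left, the new vertices have degrees at most `3`, the other vertices are unchanged. -/
theorem exc_lt (s t : E → V) (v : V) (hv : 4 ≤ deg s t v) (α β : Set E) (hα : ∀ e ∈ α, s e = v)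
    (hβ : ∀ e ∈ β, t e = v) (h2 : α.ncard + β.ncard = 2) :
    exc (splitV s α) (splitV t β) < exc s t ∧ exc (ae none (splitV s α)) (ae (some v) (splitV t β)) < exc s t ∧
      exc (ae (some none) (ae none (some ∘ splitV s α))) (ae none (ae (some (some v)) (some ∘ splitV t β))) <
        exc s t := by
  classical
  obtain ⟨h0, h1, h3⟩ := deg_splitV s t v α β hα hβ h2
  have key : ∀ f : V → ℕ, (∀ x, f x + (if x = v then 1 else 0) ≤ deg s t x) →
      ∑ x, (f x - 3) < ∑ x, (deg s t x - 3) := by
    intro f hf
    refine Finset.sum_lt_sum (fun x _ => ?_) ⟨v, Finset.mem_univ v, ?_⟩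
    · have := hf x
      omega
    · have := hf v
      rw [if_pos rfl] at this
      omega
  have hb : ∀ x, deg (splitV s α) (splitV t β) (some x) + (if x = v then 2 else 0) = deg s t x := by
    intro x
    by_cases hx : x = v
    · subst hx
      rw [if_pos rfl]
      exact h1
    · rw [if_neg hx, add_zero]
      exact h3 x hx
  refine ⟨?_, ?_, ?_⟩
  · unfold exc
    rw [Fintype.sum_option, h0]
    refine lt_of_eq_of_lt (Nat.zero_add _) (key _ fun x => ?_)
    have := hb x
    by_cases hx : x = v
    · rw [if_pos hx] at this ⊢
      omega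
    · rw [if_neg hx] at this ⊢
      omega
  · unfold exc
    rw [Fintype.sum_option, deg_ae, h0]
    simp only [reduceCtorEq, if_true, if_false]
    refine lt_of_eq_of_lt (Nat.zero_add _) (key _ fun x => ?_)
    have := hb x
    rw [deg_ae]
    by_cases hx : x = v
    · subst hx
      rw [if_pos rfl] at this ⊢
      simp
      omega
    · rw [if_neg hx] at this ⊢
      have hx' : ¬ (some v = some x) := fun h => hx (Option.some_injective _ h).symm
      rw [if_neg hx']
      simp
      omega
  · unfold exc
    obtain ⟨-, k0⟩ := deg_some (splitV s α) (splitV t β) (none : Option V)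
    obtain ⟨k1, -⟩ := deg_some (splitV s α) (splitV t β) (none : Option V)
    rw [Fintype.sum_option, Fintype.sum_option, deg_ae, deg_ae, deg_ae, deg_ae, k0, k1, h0]
    simp only [reduceCtorEq, if_true, if_false, Option.some.injEq]
    refine lt_of_eq_of_lt (by simp) (key (fun x => deg (ae (some none) (ae none (some ∘ splitV s α)))
      (ae none (ae (some (some v)) (some ∘ splitV t β))) (some (some x))) fun x => ?_)
    obtain ⟨k2, -⟩ := deg_some (splitV s α) (splitV t β) (some x)
    have := hb x
    simp only [deg_ae, k2, reduceCtorEq, if_false, Option.some.injEq]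
    by_cases hx : x = v
    · subst hx
      rw [if_pos rfl] at this
      simp
      omega
    · rw [if_neg hx] at this
      simp [hx, Ne.symm hx]
      omega

/-- HYPOTHESES: `hdc` deletion-contraction, `hiso` invariance under isomorphisms.
PROOF: strong induction on `exc s t`, for all `V`, `E` together. If all degrees are at most `3`, the function is in
`Cubic` after numbering the vertices and edges. Otherwise take `v` with `deg s t v ≥ 4`, `exists_ends`, `sub_graph`,
`exc_lt`, and divide by `q - 1`. -/
theorem cubic_mem (hdc : DCK)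
    (hiso : ∀ (V V' E E' : Type) [Fintype V] [Fintype V'] [Fintype E] [Fintype E'] (e : V ≃ V') (g : E' ≃ E)
      (s t : E → V), nk (e ∘ s ∘ g) (e ∘ t ∘ g) = nk s t)
    (s t : E → V) : Sp Cubic (nk s t) := by
  have key : ∀ (n : ℕ) (V E : Type) [Fintype V] [Fintype E] (s t : E → V), exc s t = n →
      Sp Cubic (nk s t) := by
    intro n
    induction n using Nat.strong_induction_on with
    | _ n ih =>
      intro V E _ _ s t hn
      by_cases hall : ∀ v, deg s t v ≤ 3
      · refine Sp.base ?_
        have e := Fintype.equivFin V
        have g := (Fintype.equivFin E).symm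
        refine ⟨Fintype.card V, Fintype.card E, e ∘ s ∘ g, e ∘ t ∘ g, fun v => ?_,
          (hiso V _ E _ e g s t).symm⟩
        have h1 : ∀ s : E → V, {x | (e ∘ s ∘ g) x = v}.ncard = {y | s y = e.symm v}.ncard := by
          intro s
          have h2 : {y | s y = e.symm v} = g '' {x | (e ∘ s ∘ g) x = v} := by
            ext y
            simp only [Set.mem_ofPred_eq, Set.mem_image, Function.comp_apply]
            constructor
            · intro hy
              exact ⟨g.symm y, by rw [g.apply_symm_apply, hy, e.apply_symm_apply],
                g.apply_symm_apply y⟩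
            · rintro ⟨x, hx, rfl⟩
              rw [← hx, e.symm_apply_apply]
          rw [h2, Set.ncard_image_of_injective _ g.injective]
        have h2 := hall (e.symm v)
        unfold deg at h2 ⊢
        rw [h1, h1]
        exact h2
      · push Not at hall
        obtain ⟨v, hv⟩ := hall
        obtain ⟨α, β, hα, hβ, h2⟩ := exists_ends s t v (by omega)
        obtain ⟨e0, e1, e2⟩ := exc_lt s t v hv α β hα hβ h2
        rw [hn] at e0 e1 e2
        have i0 := ih _ e0 _ _ _ _ rfl
        have i1 := ih _ e1 _ _ _ _ rfl
        have i2 := ih _ e2 _ _ _ _ rfl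
        refine sp_divq1 1 ?_
        have i3 := sp_sub (sp_sub (sp_sub i2 (Sp.mulp (Polynomial.X - 2) i1))
          (Sp.mulp Polynomial.X i0)) (sp_mulq (Fintype.card E) Sp.one)
        refine sp_congr i3 fun F => ?_
        rw [pow_one, sub_graph hdc s t v α β hα hβ F]
        simp
  exact key _ V E s t rfl

end Pool.Agent.KGU
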