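import Pool.Agent.KGU.Main
import Pool.Agent.GPM.Final

/-!
# The exact formula for the weight parts in terms of a family of counting functions
-/

set_option autoImplicit false

open scoped BigOperators

namespace Pool.Agent.KGU

open Pool.Agent.HGC Pool.Agent.HGM Pool.Agent.GPM Pool.Agent.HGC.LocWAux

section

variable {ι : Type} {g : ι → PF}

/-- The formula of `InB.weights` with a list of terms. -/
theorem weights_flat {f : PF} (hf : InB g f) :
    ∃ (K N : ℕ) (G : Fin N → ι) (a : Fin N → ℤ) (b : Fin N → ℕ) (κ : ℤ → ℤ), (∀ i, Odd i → κ i = 0) ∧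
      ∀ (μ : Nat.Primes → ℂ →₀ ℤ) (ν : Fin N → Nat.Primes → ℂ →₀ ℤ), IsSpectrum f μ →
        (∀ k, IsSpectrum (g (G k)) (ν k)) → ∀ w : ℤ, 0 ≤ w → ∀ (p : Nat.Primes) (r : ℕ), 1 ≤ r →
          (((p : ℕ) : ℂ) ^ r) ^ K * weightPart μ w p r =
            (κ w : ℂ) * ((((p : ℕ) : ℂ) ^ r) ^ K * (((p : ℕ) : ℂ) ^ (w / 2)) ^ r) +
            ∑ k, (a k : ℂ) * ((((p : ℕ) : ℂ) ^ r) ^ b k * weightPart (ν k) (w + 2 * K - 2 * b k) p r) := by
  classical
  obtain ⟨K, s, c, R, h⟩ := hf.weights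
  let T : Finset (Σ _ : ι, ℕ) := s.sigma fun i => insert 0 (c i).support
  let e : T ≃ Fin T.card := T.equivFin
  refine ⟨K, T.card, fun k => (e.symm k).1.1, fun k => (c (e.symm k).1.1).coeff (e.symm k).1.2,
    fun k => (e.symm k).1.2, fun i => if Even i then R.coeff (i / 2 + K).toNat else 0, fun i hi => ?_,
    fun μ ν hμ hν w hw p r hr => ?_⟩
  · exact if_neg (Int.not_even_iff_odd.2 hi)
  -- a spectrum for every `i` in `s`
  have hex : ∀ i : ι, ∃ ν' : Nat.Primes → ℂ →₀ ℤ, ∀ hi : i ∈ s, ν' = ν (e ⟨⟨i, 0⟩, Finset.mem_sigma.2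
      ⟨hi, Finset.mem_insert_self _ _⟩⟩) := by
    intro i
    by_cases hi : i ∈ s
    · exact ⟨ν (e ⟨⟨i, 0⟩, Finset.mem_sigma.2 ⟨hi, Finset.mem_insert_self _ _⟩⟩), fun _ => rfl⟩
    · exact ⟨0, fun h => absurd h hi⟩
  choose ν' hν' using hex
  have hspec : ∀ i ∈ s, IsSpectrum (g i) (ν' i) := by
    intro i hi
    rw [hν' i hi]
    have := hν (e ⟨⟨i, 0⟩, Finset.mem_sigma.2 ⟨hi, Finset.mem_insert_self _ _⟩⟩)
    beta_reduce at this
    rw [Equiv.symm_apply_apply] at this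
    exact this
  have huniq : ∀ (k : Fin T.card) (w : ℤ), weightPart (ν k) w p r = weightPart (ν' (e.symm k).1.1) w p r := by
    intro k w
    have hi : (e.symm k).1.1 ∈ s := (Finset.mem_sigma.1 (e.symm k).2).1
    rw [weightPart_eq, weightPart_eq, ev_wt_congr p.2 (fun t ht => ?_) w]
    have h1 := hν k p t ht
    have h2 := hspec _ hi p t ht
    exact h1.symm.trans h2
  have hmain := h μ ν' hμ hspec w hw p r
  have h1 : ∑ k : Fin T.card, (((c (e.symm k).1.1).coeff (e.symm k).1.2 : ℤ) : ℂ) *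
      ((((p : ℕ) : ℂ) ^ r) ^ (e.symm k).1.2 * weightPart (ν k) (w + 2 * K - 2 * (e.symm k).1.2) p r) =
      ∑ i ∈ s, ∑ j ∈ (c i).support, ((c i).coeff j : ℂ) * ((((p : ℕ) : ℂ) ^ r) ^ j *
              weightPart (ν' i) (w + 2 * K - 2 * j) p r) := by
    have h2 : ∀ i ∈ s, ∑ j ∈ (c i).support, ((c i).coeff j : ℂ) * ((((p : ℕ) : ℂ) ^ r) ^ j *
              weightPart (ν' i) (w + 2 * K - 2 * j) p r) =
        ∑ j ∈ insert 0 (c i).support, ((c i).coeff j : ℂ) * ((((p : ℕ) : ℂ) ^ r) ^ j *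
              weightPart (ν' i) (w + 2 * K - 2 * j) p r) := by
      intro i _
      refine Finset.sum_subset (Finset.subset_insert _ _) fun j _ hj => ?_
      rw [Polynomial.notMem_support_iff.1 hj, Int.cast_zero, zero_mul]
    rw [Finset.sum_congr rfl h2, Finset.sum_sigma' s (fun i => insert 0 (c i).support)
      (fun i j => ((c i).coeff j : ℂ) * ((((p : ℕ) : ℂ) ^ r) ^ j *
              weightPart (ν' i) (w + 2 * K - 2 * j) p r))]
    have h3 : ∀ F' : (Σ _ : ι, ℕ) → ℂ, ∑ x ∈ T, F' x = ∑ k, F' (e.symm k).1 := by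
      intro F'
      rw [← Finset.sum_coe_sort]
      exact (Equiv.sum_comp e.symm fun x : T => F' x.1).symm
    refine Eq.trans ?_ (h3 _).symm
    refine Finset.sum_congr rfl fun k _ => ?_
    rw [huniq]
  have hκ : ev (wt (p : ℕ) (w + 2 * K) (polySp p R)) r =
      ((if Even w then R.coeff (w / 2 + K).toNat else 0 : ℤ) : ℂ) *
        ((((p : ℕ) : ℂ) ^ r) ^ K * (((p : ℕ) : ℂ) ^ (w / 2)) ^ r) := by
    have hp0 : ((p : ℕ) : ℂ) ≠ 0 := by exact_mod_cast p.2.ne_zero
    by_cases he : Even w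
    · obtain ⟨u, hu⟩ := he
      have hu0 : 0 ≤ u := by omega
      obtain ⟨k, hk⟩ : ∃ k : ℕ, u + K = k := ⟨(u + K).toNat, by omega⟩
      have h6 : w + 2 * (K : ℤ) = 2 * (k : ℤ) := by omega
      have h7 : w / 2 + (K : ℤ) = k := by omega
      have h8 : (((p : ℕ) : ℂ) ^ k) ^ r = (((p : ℕ) : ℂ) ^ r) ^ K * (((p : ℕ) : ℂ) ^ (w / 2)) ^ r := by
        have h9 : ((p : ℕ) : ℂ) ^ k = ((p : ℕ) : ℂ) ^ (w / 2) * ((p : ℕ) : ℂ) ^ K := by
          rw [← zpow_natCast, ← h7, zpow_add₀ hp0, zpow_natCast]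
        rw [h9, mul_pow, ← pow_mul, ← pow_mul, mul_comm K r]
        ring
      rw [if_pos ⟨u, hu⟩, h6, wt_polySp, h7, Int.toNat_natCast, h8]
    · rw [if_neg he, wt_polySp_odd p R (by
        rw [Int.odd_add, iff_true_intro (even_two_mul (K : ℤ)), iff_true]
        exact Int.not_even_iff_odd.1 he)]
      push_cast
      ring
  rw [hmain, ← h1, hκ, add_comm]

theorem continues_zsmul (n : ℤ) {f : PF} (hf : Continues f) : Continues fun p r => (n : ℂ) * f p r := by
  have hnat : ∀ n : ℕ, Continues fun p r => (n : ℂ) * f p r := by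
    intro n
    induction n with
    | zero => exact continues_congr (fun p r _ => by simp) (continues_zero admissible_continues)
    | succ n ih => exact continues_congr (fun p r _ => by push_cast; ring) (continues_add ih hf)
  obtain ⟨m, rfl | rfl⟩ := n.eq_nat_or_neg
  · exact continues_congr (fun p r _ => by push_cast; rfl) (hnat m)
  · exact continues_congr (fun p r _ => by push_cast; ring) (continues_neg (hnat m))

theorem continues_sum {κ : Type} (s : Finset κ) (f : κ → PF) (hf : ∀ i ∈ s, Continues (f i)) :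
    Continues fun p r => ∑ i ∈ s, f i p r := by
  classical
  induction s using Finset.induction_on with
  | empty => exact continues_congr (fun p r _ => by simp) (continues_zero admissible_continues)
  | insert a s ha ih =>
    exact continues_congr (fun p r _ => by rw [Finset.sum_insert ha])
      (continues_add (hf a (Finset.mem_insert_self _ _))
        (ih fun i hi => hf i (Finset.mem_insert_of_mem hi)))

theorem continues_qpow (n : ℕ) {f : PF} :
    (Continues fun p r => (((p : ℕ) : ℂ) ^ r) ^ n * f p r) ↔ Continues f :=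
  continues_shift_iff n f

open Classical in
/-- The zeta function without the Euler factors at a finite set of primes. -/
theorem continues_zeta (S : Set Nat.Primes) (hS : S.Finite) (k : ℤ) :
    Continues fun p r => if p ∈ S then 0 else (((p : ℕ) : ℂ) ^ k) ^ r := by
  let N : ℕ := ∏ p ∈ hS.toFinset, (p : ℕ)
  have hN : N ≠ 0 := Finset.prod_ne_zero_iff.2 fun p _ => p.2.ne_zero
  have : NeZero N := ⟨hN⟩
  have h := continues_char k N 1
  refine continues_congr (fun p r hr => ?_) h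
  by_cases hp : p ∈ S
  · have h1 : ¬ IsUnit (((p : ℕ) : ZMod N)) := by
      rw [ZMod.isUnit_iff_coprime, Nat.Prime.coprime_iff_not_dvd p.2, not_not]
      exact Finset.dvd_prod_of_mem _ (hS.mem_toFinset.2 hp)
    rw [if_pos hp, MulChar.map_nonunit _ h1, mul_zero, zero_pow (by omega)]
  · have h1 : IsUnit (((p : ℕ) : ZMod N)) := by
      rw [ZMod.isUnit_iff_coprime]
      refine Nat.Coprime.prod_right fun l hl => ?_
      rw [Nat.coprime_primes p.2 l.2]
      intro h2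
      have : p = l := Subtype.ext h2
      exact hp (this ▸ hS.mem_toFinset.1 hl)
    rw [if_neg hp, MulChar.one_apply h1, mul_one]

/-- The consequence for L-functions. -/
theorem lfun_of_family {K N : ℕ} {a : Fin N → ℤ} {b : Fin N → ℕ} {κ : ℤ → ℤ}
    {μ : Nat.Primes → ℂ →₀ ℤ} {ν : Fin N → Nat.Primes → ℂ →₀ ℤ} (S : Set Nat.Primes) (hS : S.Finite)
    (φ : PF) (hφ : Continues (fun p r => open Classical in if p ∈ S then φ p r else 0))
    (h : ∀ w : ℤ, 0 ≤ w → ∀ (p : Nat.Primes) (r : ℕ), 1 ≤ r →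
          (((p : ℕ) : ℂ) ^ r) ^ K * weightPart μ w p r =
            (κ w : ℂ) * ((((p : ℕ) : ℂ) ^ r) ^ K * (((p : ℕ) : ℂ) ^ (w / 2)) ^ r) +
            ∑ k, (a k : ℂ) * ((((p : ℕ) : ℂ) ^ r) ^ b k * weightPart (ν k) (w + 2 * K - 2 * b k) p r))
    (hG : ∀ k w, Continues (lfun S (fun _ _ => 0) (ν k) w 0)) (i c : ℤ) (hi : 0 ≤ i) :
    Continues (lfun S φ μ i c) := by
  classical
  rw [← continues_qpow K]
  have h1 : Continues fun p r => ∑ k, (a k : ℂ) * ((((p : ℕ) : ℂ) ^ r) ^ b k *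
      lfun S (fun _ _ => 0) (ν k) (i + 2 * K - 2 * b k) 0 p r) := by
    refine continues_sum Finset.univ (fun k p r => (a k : ℂ) * ((((p : ℕ) : ℂ) ^ r) ^ b k *
      lfun S (fun _ _ => 0) (ν k) (i + 2 * K - 2 * b k) 0 p r)) fun k _ => ?_
    exact continues_zsmul (a k) ((continues_qpow (b k)).2 (hG k _))
  have h2 := (continues_qpow K).2 (continues_zsmul (((i.negOnePow : ℤˣ) : ℤ) * κ i - c)
    (continues_zeta S hS (i / 2)))
  have h3 := (continues_qpow K).2 hφ
  refine continues_congr (fun p r hr => ?_) (continues_add (continues_add h1 h2) h3)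
  have hsign : ∀ k, ((i + 2 * (K : ℤ) - 2 * b k).negOnePow : ℤˣ) = i.negOnePow := by
    intro k
    rw [show i + 2 * (K : ℤ) - 2 * b k = i + (2 * ((K : ℤ) - b k)) by ring, Int.negOnePow_add,
      Int.negOnePow_even _ (even_two_mul _), mul_one]
  by_cases hp : p ∈ S
  · simp only [lfun, if_pos hp, mul_zero, Finset.sum_const_zero, zero_add]
  · have h4 := h i hi p r hr
    simp only [lfun, if_neg hp, hsign, Int.cast_zero, zero_mul, sub_zero, mul_zero, add_zero]
    have h5 : ∑ k, (a k : ℂ) * ((((p : ℕ) : ℂ) ^ r) ^ b k * ((((i.negOnePow : ℤˣ) : ℤ) : ℂ) *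
        weightPart (ν k) (i + 2 * K - 2 * b k) p r)) = (((i.negOnePow : ℤˣ) : ℤ) : ℂ) *
        ∑ k, (a k : ℂ) * ((((p : ℕ) : ℂ) ^ r) ^ b k * weightPart (ν k) (i + 2 * K - 2 * b k) p r) := by
      rw [Finset.mul_sum]
      exact Finset.sum_congr rfl fun k _ => by ring
    rw [h5]
    push_cast
    linear_combination (-(((i.negOnePow : ℤˣ) : ℤ) : ℂ)) * h4
end

/-- Both parts for the functions of `GroupProjectors`. -/
theorem family_main {ι : Type} {g : ι → PF}
    (hg : ∀ (n m : ℕ) (P : Fin m → MvPolynomial (Fin n) ℤ), InB g (countPF (affCount P)))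
    (t : ℕ) (X : Fin t → Datum) (a : Fin t → ℤ) (b : Fin t → ℕ) :
    ∃ (K N : ℕ) (G : Fin N → ι) (c : Fin N → ℤ) (d : Fin N → ℕ) (κ : ℤ → ℤ), (∀ i, Odd i → κ i = 0) ∧
      ∀ (μ : Nat.Primes → ℂ →₀ ℤ) (ν : Fin N → Nat.Primes → ℂ →₀ ℤ),
        IsSpectrum (fun p r => ∑ j, (a j : ℂ) * (((p : ℕ) : ℂ) ^ r) ^ b j * (X j).count p r) μ →
        (∀ k, IsSpectrum (g (G k)) (ν k)) →
        (∀ w : ℤ, 0 ≤ w → ∀ (p : Nat.Primes) (r : ℕ), 1 ≤ r →
          (((p : ℕ) : ℂ) ^ r) ^ K * weightPart μ w p r =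
            (κ w : ℂ) * ((((p : ℕ) : ℂ) ^ r) ^ K * (((p : ℕ) : ℂ) ^ (w / 2)) ^ r) +
            ∑ k, (c k : ℂ) * ((((p : ℕ) : ℂ) ^ r) ^ d k *
              weightPart (ν k) (w + 2 * K - 2 * d k) p r)) ∧
        ∀ (S : Set Nat.Primes) (φ : PF), S.Finite →
          Continues (fun p r => open Classical in if p ∈ S then φ p r else 0) →
          (∀ k w, Continues (lfun S (fun _ _ => 0) (ν k) w 0)) →
          ∀ i e : ℤ, 0 ≤ i → Continues (lfun S φ μ i e) := by
  have hW : InW fun p r => ∑ j, (a j : ℂ) * (((p : ℕ) : ℂ) ^ r) ^ b j * (X j).count p r :=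
    InW.sum Finset.univ (fun j p r => (a j : ℂ) * (((p : ℕ) : ℂ) ^ r) ^ b j * (X j).count p r)
      fun j _ => InW.congr (fun p r _ => by ring) (InW.zsmul (a j) (inW_mulq_pow (X j).inW (b j)))
  obtain ⟨K, N, G, c, d, κ, h1, h2⟩ := weights_flat (InB.of_inW hg hW)
  refine ⟨K, N, G, c, d, κ, h1, fun μ ν hμ hν => ⟨h2 μ ν hμ hν, fun S φ hS hφ hG i e hi => ?_⟩⟩
  exact lfun_of_family S hS φ hφ (h2 μ ν hμ hν) hG i e hi

end Pool.Agent.KGU
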