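import Pool.Agent.KG.Defs

/-!
# Closing two legs: the count in a finite field
-/

set_option autoImplicit false

open scoped BigOperators

namespace Pool.Agent.KGU

section

variable {K : Type} [Field K] [Fintype K] [DecidableEq K]

private theorem legc_lin (a b : K) :
    (∑ z : K, if a * z + b = 0 then (1 : ℤ) else 0) =
      if a = 0 then (if b = 0 then (Fintype.card K : ℤ) else 0) else 1 := by
  by_cases ha : a = 0
  · rw [if_pos ha]
    by_cases hb : b = 0
    · rw [if_pos hb]
      simp [ha, hb]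
    · rw [if_neg hb]
      simp [ha, hb]
  · rw [if_neg ha]
    rw [Finset.sum_eq_single (-b / a)]
    · rw [if_pos]
      field_simp
      ring
    · intro z _ hz
      rw [if_neg]
      intro h
      apply hz
      rw [eq_div_iff ha]
      linear_combination h
    · intro h
      exact absurd (Finset.mem_univ _) h

private theorem legc_pair (g : K → K → ℤ) (h0 : ∀ x y, x + y = 0 → x ≠ 0 → g x y = 0) :
    ∑ x : K, ∑ y : K, (if x + y = 0 then g x y else 0) = g 0 0 := by
  rw [Finset.sum_eq_single 0]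
  · rw [Finset.sum_eq_single 0]
    · rw [if_pos (by simp)]
    · intro y _ hy
      rw [if_neg (by simpa using hy)]
    · intro h
      exact absurd (Finset.mem_univ _) h
  · intro x _ hx
    refine Finset.sum_eq_zero fun y _ => ?_
    by_cases h : x + y = 0
    · rw [if_pos h, h0 x y h hx]
    · rw [if_neg h]
  · intro h
    exact absurd (Finset.mem_univ _) h

private theorem legc_sum_pair : ∑ x : K, ∑ y : K, (if x + y = 0 then (1 : ℤ) else 0) = Fintype.card K := by
  have h : ∀ x : K, ∑ y : K, (if x + y = 0 then (1 : ℤ) else 0) = 1 := by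
    intro x
    rw [Finset.sum_eq_single (-x)]
    · rw [if_pos (by ring)]
    · intro y _ hy
      rw [if_neg]
      intro h
      exact hy (by linear_combination h)
    · intro h
      exact absurd (Finset.mem_univ _) h
  rw [Finset.sum_congr rfl fun x _ => h x]
  simp

/-- the number of zeros of `y₁ y₂ + y₁ y₃ + y₂ y₃` -/
theorem legc_e2 :
    (∑ x : K, ∑ y : K, ∑ z : K, if x * y + x * z + y * z = 0 then (1 : ℤ) else 0) =
      (Fintype.card K : ℤ) ^ 2 := by
  have h1 : ∀ x y : K, (∑ z : K, if x * y + x * z + y * z = 0 then (1 : ℤ) else 0) =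
      1 - (if x + y = 0 then 1 else 0) +
        (if x + y = 0 then (if x * y = 0 then (Fintype.card K : ℤ) else 0) else 0) := by
    intro x y
    have h := legc_lin (x + y) (x * y)
    have h' : (∑ z : K, if x * y + x * z + y * z = 0 then (1 : ℤ) else 0) =
        ∑ z : K, if (x + y) * z + x * y = 0 then (1 : ℤ) else 0 := by
      refine Finset.sum_congr rfl fun z _ => ?_
      rw [show x * y + x * z + y * z = (x + y) * z + x * y by ring]
    rw [h', h]
    by_cases h2 : x + y = 0
    · simp [h2]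
    · simp [h2]
  simp_rw [h1]
  simp only [Finset.sum_add_distrib, Finset.sum_sub_distrib]
  rw [legc_sum_pair, legc_pair (fun x y => if x * y = 0 then (Fintype.card K : ℤ) else 0)]
  · simp
    ring
  · intro x y h hx
    rw [if_neg]
    intro h2
    have hy : y = -x := by linear_combination h
    rw [hy] at h2
    have : x * x = 0 := by linear_combination -h2
    exact hx (mul_self_eq_zero.1 this)

private theorem legc_ite (a b : ℤ) :
    ∑ x : K, (if x = 0 then a else b) = a + ((Fintype.card K : ℤ) - 1) * b := by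
  have h : ∀ x : K, (if x = 0 then a else b) = b + (if x = 0 then a - b else 0) := by
    intro x
    by_cases hx : x = 0
    · rw [if_pos hx, if_pos hx]; ring
    · rw [if_neg hx, if_neg hx]; ring
  rw [Finset.sum_congr rfl fun x _ => h x, Finset.sum_add_distrib]
  simp
  ring

private theorem legc_mul :
    ∑ y : K, ∑ z : K, (if y * z = 0 then (1 : ℤ) else 0) = 2 * (Fintype.card K : ℤ) - 1 := by
  have h : ∀ y : K, ∑ z : K, (if y * z = 0 then (1 : ℤ) else 0) =
      if y = 0 then (Fintype.card K : ℤ) else 1 := by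
    intro y
    by_cases hy : y = 0
    · simp [hy]
    · simp [hy]
  rw [Finset.sum_congr rfl fun y _ => h y, legc_ite]
  ring

/-- the number of common zeros of `y₁ y₂ y₃` and `y₁ y₂ + y₁ y₃ + y₂ y₃` -/
private theorem legc_e23 :
    (∑ x : K, ∑ y : K, ∑ z : K, if x * y + x * z + y * z = 0 then
      (if x * y * z = 0 then (1 : ℤ) else 0) else 0) = 3 * (Fintype.card K : ℤ) - 2 := by
  have h : ∀ x : K, (∑ y : K, ∑ z : K, if x * y + x * z + y * z = 0 then
      (if x * y * z = 0 then (1 : ℤ) else 0) else 0) =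
      if x = 0 then 2 * (Fintype.card K : ℤ) - 1 else 1 := by
    intro x
    by_cases hx : x = 0
    · rw [if_pos hx, ← legc_mul (K := K)]
      refine Finset.sum_congr rfl fun y _ => Finset.sum_congr rfl fun z _ => ?_
      subst hx
      simp
    · rw [if_neg hx, Finset.sum_eq_single 0]
      · rw [Finset.sum_eq_single 0]
        · simp
        · intro z _ hz
          rw [if_neg]
          simpa using ⟨hx, hz⟩
        · intro h
          exact absurd (Finset.mem_univ _) h
      · intro y _ hy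
        refine Finset.sum_eq_zero fun z _ => ?_
        by_cases hz : z = 0
        · subst hz
          rw [if_neg]
          simpa using ⟨hx, hy⟩
        · have h2 : ¬ (x * y * z = 0) := by
            simp [hx, hy, hz]
          rw [if_neg h2]
          simp
      · intro h
        exact absurd (Finset.mem_univ _) h
  rw [Finset.sum_congr rfl fun x _ => h x, legc_ite]
  ring

/-- the number of zeros of `y₁ y₂ y₃ + (y₁ y₂ + y₁ y₃ + y₂ y₃) z` -/
private theorem legc_e3 :
    (∑ x : K, ∑ y : K, ∑ z : K, ∑ w : K,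
      if (x * y + x * z + y * z) * w + x * y * z = 0 then (1 : ℤ) else 0) =
      (Fintype.card K : ℤ) ^ 3 + 2 * (Fintype.card K : ℤ) ^ 2 - 2 * (Fintype.card K : ℤ) := by
  have h : ∀ x y z : K, (∑ w : K, if (x * y + x * z + y * z) * w + x * y * z = 0 then (1 : ℤ) else 0) =
      1 - (if x * y + x * z + y * z = 0 then (1 : ℤ) else 0) + (Fintype.card K : ℤ) *
        (if x * y + x * z + y * z = 0 then (if x * y * z = 0 then (1 : ℤ) else 0) else 0) := by
    intro x y z
    rw [legc_lin]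
    by_cases h1 : x * y + x * z + y * z = 0
    · rw [if_pos h1, if_pos h1, if_pos h1]
      by_cases h2 : x * y * z = 0
      · rw [if_pos h2, if_pos h2]; ring
      · rw [if_neg h2, if_neg h2]; ring
    · rw [if_neg h1, if_neg h1, if_neg h1]; ring
  simp_rw [h]
  simp only [Finset.sum_add_distrib, Finset.sum_sub_distrib, ← Finset.mul_sum]
  rw [legc_e2, legc_e23]
  simp
  ring

/-- The contribution of one point. -/
private theorem legc_point (A B : K) :
    (Fintype.card K : ℤ) ^ 2 * ((Fintype.card K : ℤ) - 1) * ((Fintype.card K : ℤ) - 2) *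
        (if A = 0 then 1 else 0) =
      (∑ y₁ : K, ∑ y₂ : K, ∑ y₃ : K, ∑ u : K, ∑ v : K,
        if y₁ * y₂ * y₃ * A + (y₁ * y₂ + y₁ * y₃ + y₂ * y₃) * ((u + v) * A + B) = 0 then (1 : ℤ) else 0) -
      (Fintype.card K : ℤ) ^ 3 * ((Fintype.card K : ℤ) - 1) * (∑ z : K, if z * A + B = 0 then (1 : ℤ) else 0) -
      (3 * (Fintype.card K : ℤ) ^ 3 - 2 * (Fintype.card K : ℤ) ^ 2) := by
  have hl : (∑ z : K, if z * A + B = 0 then (1 : ℤ) else 0) =
      if A = 0 then (if B = 0 then (Fintype.card K : ℤ) else 0) else 1 := by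
    rw [← legc_lin A B]
    exact Finset.sum_congr rfl fun z _ => by rw [mul_comm]
  rw [hl]
  by_cases hA : A = 0
  · subst hA
    rw [if_pos rfl, if_pos rfl]
    by_cases hB : B = 0
    · subst hB
      simp
      ring
    · have h1 : ∀ y₁ y₂ y₃ u v : K, (if y₁ * y₂ * y₃ * 0 + (y₁ * y₂ + y₁ * y₃ + y₂ * y₃) *
          ((u + v) * 0 + B) = 0 then (1 : ℤ) else 0) =
          if y₁ * y₂ + y₁ * y₃ + y₂ * y₃ = 0 then (1 : ℤ) else 0 := by
        intro y₁ y₂ y₃ u v
        congr 1
        rw [mul_zero, mul_zero, zero_add, zero_add, mul_eq_zero]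
        exact propext ⟨fun h => h.resolve_right hB, Or.inl⟩
      simp_rw [h1]
      simp only [Finset.sum_const, Finset.card_univ, nsmul_eq_mul, ← Finset.mul_sum]
      rw [legc_e2, if_neg hB]
      ring
  · rw [if_neg hA, if_neg hA]
    have h2 : ∀ y₁ y₂ y₃ : K, (∑ u : K, ∑ v : K,
        if y₁ * y₂ * y₃ * A + (y₁ * y₂ + y₁ * y₃ + y₂ * y₃) * ((u + v) * A + B) = 0 then (1 : ℤ) else 0) =
        (Fintype.card K : ℤ) * ∑ w : K,
          if (y₁ * y₂ + y₁ * y₃ + y₂ * y₃) * w + y₁ * y₂ * y₃ = 0 then (1 : ℤ) else 0 := by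
      intro y₁ y₂ y₃
      have h3 : ∀ u : K, (∑ v : K,
          if y₁ * y₂ * y₃ * A + (y₁ * y₂ + y₁ * y₃ + y₂ * y₃) * ((u + v) * A + B) = 0
            then (1 : ℤ) else 0) =
          ∑ w : K, if (y₁ * y₂ + y₁ * y₃ + y₂ * y₃) * w + y₁ * y₂ * y₃ = 0 then (1 : ℤ) else 0 := by
        intro u
        refine Eq.trans (Finset.sum_congr rfl fun v _ => ?_) (Equiv.sum_comp (Equiv.addLeft (u + B / A))
          fun w : K => if (y₁ * y₂ + y₁ * y₃ + y₂ * y₃) * w + y₁ * y₂ * y₃ = 0 then (1 : ℤ) else 0)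
        rw [Equiv.coe_addLeft]
        congr 1
        have h4 : y₁ * y₂ * y₃ * A + (y₁ * y₂ + y₁ * y₃ + y₂ * y₃) * ((u + v) * A + B) =
            A * ((y₁ * y₂ + y₁ * y₃ + y₂ * y₃) * (u + B / A + v) + y₁ * y₂ * y₃) := by
          field_simp
          ring
        rw [h4, mul_eq_zero]
        exact propext ⟨fun h => h.resolve_left hA, Or.inr⟩
      rw [Finset.sum_congr rfl fun u _ => h3 u, Finset.sum_const, Finset.card_univ, nsmul_eq_mul]
    simp_rw [h2]
    simp only [← Finset.mul_sum]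
    rw [legc_e3]
    ring

end

/-- Closing two legs: the count. `A` is the polynomial of the graph, `B` that of the graph with the two
vertices identified. -/
theorem leg_count {X K : Type} [Finite X] [Field K] [Finite K] (A B : X → K) :
    (Nat.card K : ℤ) ^ 2 * ((Nat.card K : ℤ) - 1) * ((Nat.card K : ℤ) - 2) *
        (Nat.card {x : X // A x = 0} : ℤ) =
      (Nat.card {x : K × K × K × K × K × X // x.1 * x.2.1 * x.2.2.1 * A x.2.2.2.2.2 +
        (x.1 * x.2.1 + x.1 * x.2.2.1 + x.2.1 * x.2.2.1) *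
          ((x.2.2.2.1 + x.2.2.2.2.1) * A x.2.2.2.2.2 + B x.2.2.2.2.2) = 0} : ℤ) -
      (Nat.card K : ℤ) ^ 3 * ((Nat.card K : ℤ) - 1) * (Nat.card {x : K × X // x.1 * A x.2 + B x.2 = 0} : ℤ) -
      (3 * (Nat.card K : ℤ) ^ 3 - 2 * (Nat.card K : ℤ) ^ 2) * (Nat.card X : ℤ) := by
  classical
  have : Fintype X := Fintype.ofFinite X
  have : Fintype K := Fintype.ofFinite K
  have hcard : ∀ (Y : Type) [Fintype Y] (p : Y → Prop), (Nat.card {y : Y // p y} : ℤ) =
      ∑ y : Y, if p y then (1 : ℤ) else 0 := by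
    intro Y _ p
    rw [Nat.card_eq_fintype_card, Fintype.card_subtype, Finset.card_filter]
    push_cast
    rfl
  have c0 := hcard X fun x => A x = 0
  have c1 : (Nat.card {x : K × X // x.1 * A x.2 + B x.2 = 0} : ℤ) =
      ∑ x : X, ∑ z : K, if z * A x + B x = 0 then (1 : ℤ) else 0 := by
    rw [Nat.card_congr (β := Σ x : X, {z : K // z * A x + B x = 0}) ⟨fun x => ⟨x.1.2, x.1.1, x.2⟩,
      fun x => ⟨(x.2.1, x.1), x.2.2⟩, fun _ => rfl, fun _ => rfl⟩, Nat.card_sigma]
    push_cast
    exact Finset.sum_congr rfl fun x _ => hcard K fun z => z * A x + B x = 0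
  have c2 : (Nat.card {x : K × K × K × K × K × X // x.1 * x.2.1 * x.2.2.1 * A x.2.2.2.2.2 +
        (x.1 * x.2.1 + x.1 * x.2.2.1 + x.2.1 * x.2.2.1) *
          ((x.2.2.2.1 + x.2.2.2.2.1) * A x.2.2.2.2.2 + B x.2.2.2.2.2) = 0} : ℤ) =
      ∑ x : X, ∑ y₁ : K, ∑ y₂ : K, ∑ y₃ : K, ∑ u : K, ∑ v : K,
      if y₁ * y₂ * y₃ * A x + (y₁ * y₂ + y₁ * y₃ + y₂ * y₃) * ((u + v) * A x + B x) = 0
        then (1 : ℤ) else 0 := by
    rw [Nat.card_congr (β := Σ x : X, {y : K × K × K × K × K // y.1 * y.2.1 * y.2.2.1 * A x +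
        (y.1 * y.2.1 + y.1 * y.2.2.1 + y.2.1 * y.2.2.1) *
          ((y.2.2.2.1 + y.2.2.2.2) * A x + B x) = 0})
      ⟨fun x => ⟨x.1.2.2.2.2.2, (x.1.1, x.1.2.1, x.1.2.2.1, x.1.2.2.2.1, x.1.2.2.2.2.1), x.2⟩,
      fun x => ⟨(x.2.1.1, x.2.1.2.1, x.2.1.2.2.1, x.2.1.2.2.2.1, x.2.1.2.2.2.2, x.1), x.2.2⟩,
      fun _ => rfl, fun _ => rfl⟩, Nat.card_sigma]
    push_cast
    refine Finset.sum_congr rfl fun x _ => ?_
    rw [hcard (K × K × K × K × K) fun y => y.1 * y.2.1 * y.2.2.1 * A x +
        (y.1 * y.2.1 + y.1 * y.2.2.1 + y.2.1 * y.2.2.1) *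
          ((y.2.2.2.1 + y.2.2.2.2) * A x + B x) = 0]
    simp only [Fintype.sum_prod_type]
  have hX : (Nat.card X : ℤ) = ∑ _x : X, (1 : ℤ) := by simp
  rw [c0, c1, c2, hX, Nat.card_eq_fintype_card (α := K), Finset.mul_sum, Finset.mul_sum, Finset.mul_sum,
    ← Finset.sum_sub_distrib, ← Finset.sum_sub_distrib]
  refine Finset.sum_congr rfl fun x _ => ?_
  rw [legc_point (A x) (B x), mul_one]

end Pool.Agent.KGU
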