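import Pool.Agent.KG.DC
import Pool.Agent.KGU.LegC

/-!
# Closing two legs: the graphs
-/

set_option autoImplicit false

open scoped BigOperators

namespace Pool.Agent.KGU

open Pool.Agent.KG

section

variable {V E K : Type} [Fintype V] [Fintype E] [Field K]

/-- an edge to a new vertex -/
private theorem legg_pend (a : V) (s t : E → V) (α β : Option E → K) :
    tht (ae (some a) (some ∘ s)) (ae none (some ∘ t)) α β = α none * tht s t (α ∘ some) (β ∘ some) := by
  have h := tht_dc (some a) none (by simp) (fun o : Option V => o.elim a id) (fun x => ⟨some x, rfl⟩) (by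
        rintro (_ | x) (_ | x')
        · simp
        · simp [eq_comm]
        · simp
        · simp) (some ∘ s) (some ∘ t) α β
  rw [h, tht_isol (some ∘ s) (some ∘ t) (some a) none (by simp) (fun e => by simp), mul_zero, zero_add]
  rfl

private theorem legg_pend' (b : V) (s t : E → V) (α β : Option E → K) :
    tht (ae none (some ∘ s)) (ae (some b) (some ∘ t)) α β = α none * tht s t (α ∘ some) (β ∘ some) := by
  have h := tht_dc none (some b) (by simp) (fun o : Option V => o.elim b id) (fun x => ⟨some x, rfl⟩) (by
        rintro (_ | x) (_ | x')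
        · simp
        · simp [eq_comm]
        · simp
        · simp) (some ∘ s) (some ∘ t) α β
  rw [h, tht_isol (some ∘ s) (some ∘ t) (some b) none (by simp) (fun e => by simp), mul_zero, zero_add]
  rfl

/-- two edges in series -/
private theorem legg_ser (a b : V) (s t : E → V) (α β : Option (Option E) → K) :
    tht (ae (some a) (ae none (some ∘ s))) (ae none (ae (some b) (some ∘ t))) α β =
      β none * (α (some none) * tht s t ((α ∘ some) ∘ some) ((β ∘ some) ∘ some)) +
        α none * tht (ae a s) (ae b t) (α ∘ some) (β ∘ some) := by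
  have h := tht_dc (some a) none (by simp) (fun o : Option V => o.elim a id) (fun x => ⟨some x, rfl⟩) (by
        rintro (_ | x) (_ | x')
        · simp
        · simp [eq_comm]
        · simp
        · simp) (ae none (some ∘ s)) (ae (some b) (some ∘ t)) α β
  have h1 : (fun o : Option V => o.elim a id) ∘ (ae none (some ∘ s)) = ae a s := by
    funext o
    rcases o with _ | e <;> rfl
  have h2 : (fun o : Option V => o.elim a id) ∘ (ae (some b) (some ∘ t)) = ae b t := by
    funext o
    rcases o with _ | e <;> rfl
  rw [h1, h2] at h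
  rw [h, legg_pend']
  rfl

/-- three parallel edges -/
private theorem legg_tri {W : Type} [Fintype W] (c d : V) (hcd : c ≠ d) (π : V → W)
    (hπ : Function.Surjective π)
    (hk : ∀ u v, π u = π v ↔ u = v ∨ (u = c ∧ v = d) ∨ (u = d ∧ v = c)) (s t : E → V)
    (α β : Option (Option (Option E)) → K) :
    tht (ae c (ae c (ae c s))) (ae d (ae d (ae d t))) α β =
      β none * β (some none) * β (some (some none)) *
        tht s t (((α ∘ some) ∘ some) ∘ some) (((β ∘ some) ∘ some) ∘ some) +
      (β none * β (some none) * α (some (some none)) + β none * α (some none) * β (some (some none)) +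
        α none * β (some none) * β (some (some none))) *
        tht (π ∘ s) (π ∘ t) (((α ∘ some) ∘ some) ∘ some) (((β ∘ some) ∘ some) ∘ some) := by
  have hcd' : π c = π d := (hk c d).2 (Or.inr (Or.inl ⟨rfl, rfl⟩))
  have hae : ∀ {E' : Type} (x : V) (f : E' → V), π ∘ (ae x f) = ae (π x) (π ∘ f) := by
    intro E' x f
    funext o
    rcases o with _ | e <;> rfl
  rw [tht_dc c d hcd π hπ hk, tht_dc c d hcd π hπ hk, tht_dc c d hcd π hπ hk]
  simp only [hae, hcd', tht_loop]
  simp only [Function.comp]
  ring

end

/-- The graph with a chain from `a` to `b`: `a - w`, three edges `w - u`, `u - b` (`w = none`,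
`u = some none`). -/
def chS {V E : Type} (a : V) (s : E → V) : Option (Option (Option (Option (Option E)))) → Option (Option V) :=
  ae none (ae none (ae none (ae (some (some a)) (some ∘ (ae none (some ∘ s))))))

/-- The other ends. -/
def chT {V E : Type} (b : V) (t : E → V) : Option (Option (Option (Option (Option E)))) → Option (Option V) :=
  ae (some none) (ae (some none) (ae (some none) (ae none (some ∘ (ae (some b) (some ∘ t))))))

theorem sym_chain {V E K W : Type} [Fintype V] [Fintype E] [Field K] [Fintype W] (a b : V) (hab : a ≠ b)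
    (π : V → W) (hπ : Function.Surjective π)
    (hk : ∀ u v, π u = π v ↔ u = v ∨ (u = a ∧ v = b) ∨ (u = b ∧ v = a)) (s t : E → V)
    (y₁ y₂ y₃ u v : K) (x : E → K) :
    sym (chS a s) (chT b t) (fun o => o.elim y₁ fun o => o.elim y₂ fun o => o.elim y₃ fun o => o.elim u
      fun o => o.elim v x) =
      y₁ * y₂ * y₃ * sym s t x + (y₁ * y₂ + y₁ * y₃ + y₂ * y₃) *
        ((u + v) * sym s t x + sym (π ∘ s) (π ∘ t) x) := by
  simp only [sym_eq_tht]
  rw [chS, chT, legg_tri none (some none) (by simp) (fun o : Option (Option V) => o.elim none id)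
    (fun x => ⟨some x, rfl⟩) (by
        rintro (_ | x) (_ | x')
        · simp
        · simp [eq_comm]
        · simp
        · simp)]
  have h1 : (fun o : Option (Option V) => o.elim none id) ∘
      (ae (some (some a)) (some ∘ (ae none (some ∘ s)))) = ae (some a) (ae none (some ∘ s)) := by
    funext o
    rcases o with _ | _ | e <;> rfl
  have h2 : (fun o : Option (Option V) => o.elim none id) ∘
      (ae none (some ∘ (ae (some b) (some ∘ t)))) = ae none (ae (some b) (some ∘ t)) := by
    funext o
    rcases o with _ | _ | e <;> rfl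
  rw [h1, h2, legg_pend, legg_pend', legg_ser, tht_dc a b hab π hπ hk]
  show y₁ * y₂ * y₃ * (1 * (1 * tht s t 1 x)) + (y₁ * y₂ * 1 + y₁ * 1 * y₃ + 1 * y₂ * y₃) *
    (u * (1 * tht s t 1 x) + 1 * (v * tht s t 1 x + 1 * tht (π ∘ s) (π ∘ t) 1 x)) =
    y₁ * y₂ * y₃ * tht s t 1 x + (y₁ * y₂ + y₁ * y₃ + y₂ * y₃) *
        ((u + v) * tht s t 1 x + tht (π ∘ s) (π ∘ t) 1 x)
  ring

theorem sym_edge {V E K W : Type} [Fintype V] [Fintype E] [Field K] [Fintype W] (a b : V) (hab : a ≠ b)
    (π : V → W) (hπ : Function.Surjective π)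
    (hk : ∀ u v, π u = π v ↔ u = v ∨ (u = a ∧ v = b) ∨ (u = b ∧ v = a)) (s t : E → V) (z : K) (x : E → K) :
    sym (ae a s) (ae b t) (fun o => o.elim z x) = z * sym s t x + sym (π ∘ s) (π ∘ t) x := by
  simp only [sym_eq_tht]
  rw [tht_dc a b hab π hπ hk]
  show z * tht s t 1 x + 1 * tht (π ∘ s) (π ∘ t) 1 x = z * tht s t 1 x + tht (π ∘ s) (π ∘ t) 1 x
  rw [one_mul]

theorem sym_loop {V E K : Type} [Fintype V] [Fintype E] [Field K] (a : V) (s t : E → V) (z : K) (x : E → K) :
    sym (ae a s) (ae a t) (fun o => o.elim z x) = z * sym s t x := by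
  simp only [sym_eq_tht]
  rw [tht_loop]
  rfl

/-- The map which identifies `b` with `a`. -/
theorem exists_quot {V : Type} [Fintype V] (a b : V) (hab : a ≠ b) :
    ∃ (W : Type) (_ : Fintype W) (π : V → W), Function.Surjective π ∧
      ∀ u v, π u = π v ↔ u = v ∨ (u = a ∧ v = b) ∨ (u = b ∧ v = a) := by
  classical
  refine ⟨{v // v ≠ b}, inferInstance, fun v => if h : v = b then ⟨a, hab⟩ else ⟨v, h⟩,
    fun w => ⟨w.1, by simp [w.2]⟩, ?_⟩
  intro u v
  by_cases h1 : u = b
  · subst h1
    by_cases h2 : v = u
    · subst h2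
      simp
    · beta_reduce
      rw [dif_pos rfl, dif_neg h2, Subtype.mk.injEq]
      constructor
      · intro h
        exact Or.inr (Or.inr ⟨rfl, h.symm⟩)
      · rintro (h | h | h)
        · exact absurd h.symm h2
        · exact absurd h.2 h2
        · exact h.2.symm
  · by_cases h2 : v = b
    · subst h2
      beta_reduce
      rw [dif_pos rfl, dif_neg h1, Subtype.mk.injEq]
      constructor
      · intro h
        exact Or.inr (Or.inl ⟨h, rfl⟩)
      · rintro (h | h | h)
        · exact absurd h h1
        · exact h.1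
        · exact absurd h.1 h1
    · beta_reduce
      rw [dif_neg h1, dif_neg h2, Subtype.mk.injEq]
      constructor
      · exact Or.inl
      · rintro (h | h | h)
        · exact h
        · exact absurd h.2 h2
        · exact absurd h.1 h1

/-- subdivision of an edge -/
theorem sym_subdiv {V E K : Type} [Fintype V] [Fintype E] [Field K] (a b : V) (hab : a ≠ b) (s t : E → V)
    (y z : K) (x : E → K) :
    sym (ae (some a) (ae none (some ∘ s))) (ae none (ae (some b) (some ∘ t)))
      (fun o => o.elim y fun o => o.elim z x) =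
      sym (ae a s) (ae b t) (fun o => o.elim (y + z) x) := by
  obtain ⟨W, _, π, hπ, hk⟩ := exists_quot a b hab
  simp only [sym_eq_tht]
  rw [legg_ser, tht_dc a b hab π hπ hk, tht_dc a b hab π hπ hk]
  show y * (1 * tht s t 1 x) + 1 * (z * tht s t 1 x + 1 * tht (π ∘ s) (π ∘ t) 1 x) =
    (y + z) * tht s t 1 x + 1 * tht (π ∘ s) (π ∘ t) 1 x
  ring

/-- Closing two legs. -/
theorem ns_leg {V E : Type} [Fintype V] [Fintype E] (a b : V) (hab : a ≠ b) (s t : E → V) (F : FinField) :
    F.q ^ 2 * (F.q - 1) * (F.q - 2) * ns s t F =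
      ns (chS a s) (chT b t) F - F.q ^ 3 * (F.q - 1) * ns (ae a s) (ae b t) F -
        (3 * F.q ^ 3 - 2 * F.q ^ 2) * F.q ^ Fintype.card E := by
  obtain ⟨W, _, π, hπ, hk⟩ := exists_quot a b hab
  have hc := leg_count (X := E → F.K) (K := F.K) (fun x => sym s t x) (fun x => sym (π ∘ s) (π ∘ t) x)
  have hq : F.q = (Nat.card F.K : ℤ) := rfl
  have hX : (Nat.card (E → F.K) : ℤ) = F.q ^ Fintype.card E := by
    rw [Nat.card_fun, hq, Nat.card_eq_fintype_card (α := E)]
    push_cast
    rfl
  have k1 : ns (ae a s) (ae b t) F =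
      (Nat.card {x : F.K × (E → F.K) // x.1 * sym s t x.2 + sym (π ∘ s) (π ∘ t) x.2 = 0} : ℤ) := by
    unfold ns NS
    congr 1
    refine Nat.card_congr ⟨fun y => ⟨(y.1 none, y.1 ∘ some), ?_⟩,
      fun x => ⟨fun o => o.elim x.1.1 x.1.2, ?_⟩, ?_, fun _ => rfl⟩
    · have h := sym_edge a b hab π hπ hk s t (y.1 none) (y.1 ∘ some)
      have h2 : (fun o : Option E => o.elim (y.1 none) (y.1 ∘ some)) = y.1 := by
        funext o
        rcases o with _ | e <;> rfl
      rw [h2, y.2] at h
      exact h.symm
    · rw [sym_edge a b hab π hπ hk]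
      exact x.2
    · intro y
      apply Subtype.ext
      funext o
      rcases o with _ | e <;> rfl
  have k2 : ns (chS a s) (chT b t) F = (Nat.card {x : F.K × F.K × F.K × F.K × F.K × (E → F.K) //
      x.1 * x.2.1 * x.2.2.1 * sym s t x.2.2.2.2.2 + (x.1 * x.2.1 + x.1 * x.2.2.1 + x.2.1 * x.2.2.1) *
        ((x.2.2.2.1 + x.2.2.2.2.1) * sym s t x.2.2.2.2.2 + sym (π ∘ s) (π ∘ t) x.2.2.2.2.2) = 0} : ℤ) := by
    unfold ns NS
    congr 1
    refine Nat.card_congr ⟨fun y => ⟨(y.1 none, y.1 (some none), y.1 (some (some none)),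
      y.1 (some (some (some none))), y.1 (some (some (some (some none)))),
      fun e => y.1 (some (some (some (some (some e)))))), ?_⟩,
      fun x => ⟨fun o => o.elim x.1.1 fun o => o.elim x.1.2.1 fun o => o.elim x.1.2.2.1 fun o =>
        o.elim x.1.2.2.2.1 fun o => o.elim x.1.2.2.2.2.1 x.1.2.2.2.2.2, ?_⟩, ?_, fun _ => rfl⟩
    · have h := sym_chain a b hab π hπ hk s t (y.1 none) (y.1 (some none)) (y.1 (some (some none)))
        (y.1 (some (some (some none)))) (y.1 (some (some (some (some none)))))
        (fun e => y.1 (some (some (some (some (some e))))))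
      have h2 : (fun o : Option (Option (Option (Option (Option E)))) => o.elim (y.1 none) fun o =>
          o.elim (y.1 (some none)) fun o => o.elim (y.1 (some (some none))) fun o =>
          o.elim (y.1 (some (some (some none)))) fun o =>
          o.elim (y.1 (some (some (some (some none))))) fun e =>
            y.1 (some (some (some (some (some e)))))) = y.1 := by
        funext o
        rcases o with _ | _ | _ | _ | _ | e <;> rfl
      rw [h2, y.2] at h
      exact h.symm
    · rw [sym_chain a b hab π hπ hk]
      exact x.2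
    · intro y
      apply Subtype.ext
      funext o
      rcases o with _ | _ | _ | _ | _ | e <;> rfl
  have k3 : ns s t F = (Nat.card {x : E → F.K // sym s t x = 0} : ℤ) := rfl
  rw [k1, k2, k3, ← hX, hq]
  exact hc

/-- A loop. -/
theorem ns_loop {V E : Type} [Fintype V] [Fintype E] (a : V) (s t : E → V) (F : FinField) :
    ns (ae a s) (ae a t) F = (F.q - 1) * ns s t F + F.q ^ Fintype.card E := by
  classical
  have hq : F.q = (Nat.card F.K : ℤ) := rfl
  have hX : (Nat.card (E → F.K) : ℤ) = F.q ^ Fintype.card E := by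
    rw [Nat.card_fun, hq, Nat.card_eq_fintype_card (α := E)]
    push_cast
    rfl
  have k1 : Nat.card {y : Option E → F.K // sym (ae a s) (ae a t) y = 0} =
      Nat.card ((E → F.K) ⊕ {z : F.K // z ≠ 0} × {x : E → F.K // sym s t x = 0}) := by
    refine Nat.card_congr ⟨fun y => if h : y.1 none = 0 then Sum.inl (y.1 ∘ some) else
      Sum.inr (⟨y.1 none, h⟩, ⟨y.1 ∘ some, ?_⟩), fun x => match x with
        | Sum.inl x => ⟨fun o => o.elim 0 x, ?_⟩
        | Sum.inr x => ⟨fun o => o.elim x.1.1 x.2.1, ?_⟩, ?_, ?_⟩
    · have h3 := sym_loop a s t (y.1 none) (y.1 ∘ some)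
      have h2 : (fun o : Option E => o.elim (y.1 none) (y.1 ∘ some)) = y.1 := by
        funext o
        rcases o with _ | e <;> rfl
      rw [h2, y.2] at h3
      exact (mul_eq_zero.1 h3.symm).resolve_left h
    · rw [sym_loop, zero_mul]
    · rw [sym_loop, x.2.2, mul_zero]
    · intro y
      by_cases h : y.1 none = 0
      · simp only [h, dif_pos]
        apply Subtype.ext
        funext o
        rcases o with _ | e
        · exact h.symm
        · rfl
      · simp only [h, dif_neg, not_false_eq_true]
        apply Subtype.ext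
        funext o
        rcases o with _ | e <;> rfl
    · rintro (x | x)
      · exact dif_pos rfl
      · exact dif_neg x.1.2
  have hne : (Nat.card {z : F.K // z ≠ 0} : ℤ) = F.q - 1 := by
    have : Fintype F.K := Fintype.ofFinite _
    have h1 : Nat.card {z : F.K // z ≠ 0} = Fintype.card F.K - 1 := by
      rw [Nat.card_eq_fintype_card, Fintype.card_subtype_compl, Fintype.card_subtype_eq]
    have h2 : 1 ≤ Fintype.card F.K := Fintype.card_pos
    rw [h1, hq, Nat.card_eq_fintype_card]
    push_cast [Nat.cast_sub h2]
    ring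
  unfold ns NS
  rw [k1, Nat.card_sum, Nat.card_prod]
  push_cast
  rw [hne]
  have hX' : ((Nat.card (E → F.K) : ℕ) : ℤ) = F.q ^ Fintype.card E := hX
  rw [hX']
  ring

/-- Subdivision of an edge. -/
theorem ns_subdiv {V E : Type} [Fintype V] [Fintype E] (a b : V) (hab : a ≠ b) (s t : E → V)
    (F : FinField) :
    ns (ae (some a) (ae none (some ∘ s))) (ae none (ae (some b) (some ∘ t))) F =
      F.q * ns (ae a s) (ae b t) F := by
  have k1 : Nat.card {y : Option (Option E) → F.K //
      sym (ae (some a) (ae none (some ∘ s))) (ae none (ae (some b) (some ∘ t))) y = 0} =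
      Nat.card (F.K × {x : Option E → F.K // sym (ae a s) (ae b t) x = 0}) := by
    refine Nat.card_congr ⟨fun y => (y.1 none, ⟨fun o => o.elim (y.1 none + y.1 (some none))
      fun e => y.1 (some (some e)), ?_⟩), fun x => ⟨fun o => o.elim x.1 fun o => o.elim (x.2.1 none - x.1)
        fun e => x.2.1 (some e), ?_⟩, ?_, ?_⟩
    · have h := sym_subdiv a b hab s t (y.1 none) (y.1 (some none)) (fun e => y.1 (some (some e)))
      have h2 : (fun o : Option (Option E) => o.elim (y.1 none) fun o =>
          o.elim (y.1 (some none)) fun e => y.1 (some (some e))) = y.1 := by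
        funext o
        rcases o with _ | _ | e <;> rfl
      rw [h2, y.2] at h
      exact h.symm
    · rw [sym_subdiv a b hab]
      have h2 : (fun o : Option E => o.elim (x.1 + (x.2.1 none - x.1)) fun e => x.2.1 (some e)) = x.2.1 := by
        funext o
        rcases o with _ | e
        · show x.1 + (x.2.1 none - x.1) = x.2.1 none
          ring
        · rfl
      rw [h2]
      exact x.2.2
    · intro y
      apply Subtype.ext
      funext o
      rcases o with _ | _ | e
      · rfl
      · show y.1 none + y.1 (some none) - y.1 none = y.1 (some none)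
        ring
      · rfl
    · rintro ⟨z, x⟩
      refine Prod.ext rfl ?_
      apply Subtype.ext
      funext o
      rcases o with _ | e
      · show z + (x.1 none - z) = x.1 none
        ring
      · rfl
  unfold ns NS
  rw [k1, Nat.card_prod]
  push_cast
  rfl

end Pool.Agent.KGU
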