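import Pool.Agent.KG.Main
import Pool.Agent.KGU.LegG
import Pool.Agent.KGU.USp

/-!
# Graphs with degrees at most four and exactly four legs
-/

set_option autoImplicit false

open scoped BigOperators

namespace Pool.Agent.KGU

open Pool.Agent.KG

/-- The functions `ns` of the connected multigraphs without loops all whose degrees are at most `4` and
for which the missing degrees have sum `4` (`4 n - 2 m = 4`). -/
def Log4 : Set (FinField → ℤ) :=
  {f | ∃ (n m : ℕ) (s t : Fin m → Fin n), (∀ v, deg s t v ≤ 4) ∧ (∀ e, s e ≠ t e) ∧
    (∃ T, IsTree s t T) ∧ m + 2 = 2 * n ∧ f = ns s t}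

theorem handshake {V E : Type} [Fintype V] [Fintype E] (s t : E → V) :
    ∑ v, deg s t v = 2 * Fintype.card E := by
  classical
  have h : ∀ f : E → V, ∑ v, {e | f e = v}.ncard = Fintype.card E := by
    intro f
    have h1 : ∀ v, {e | f e = v}.ncard = (Finset.univ.filter fun e => f e = v).card := by
      intro v
      rw [Set.ncard_eq_toFinset_card']
      congr 1
      ext e
      simp
    rw [Finset.sum_congr rfl fun v _ => h1 v, ← Finset.card_univ]
    exact (Finset.card_eq_sum_card_fiberwise fun e _ => Finset.mem_univ (f e)).symm
  unfold deg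
  rw [Finset.sum_add_distrib, h s, h t]
  ring

/-- Without a spanning tree the number is `q ^ m`. -/
theorem ns_disc {V E : Type} [Fintype V] [Fintype E] (s t : E → V) (h : ¬ ∃ T, IsTree s t T) (F : FinField) :
    ns s t F = F.q ^ Fintype.card E := by
  have h1 : ∀ x : E → F.K, sym s t x = 0 := by
    intro x
    unfold sym
    refine Finset.sum_eq_zero fun T _ => ?_
    rw [if_neg fun hT => h ⟨T, hT⟩]
  unfold ns NS
  rw [Nat.card_congr (Equiv.subtypeUnivEquiv h1), Nat.card_fun, Nat.card_eq_fintype_card (α := E)]
  push_cast
  rfl

/-- Take one edge out. -/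
theorem exists_peel {V E : Type} [Fintype V] [Fintype E] (s t : E → V) (e0 : E) :
    ∃ (E' : Type) (_ : Fintype E') (s' t' : E' → V), ns s t = ns (ae (s e0) s') (ae (t e0) t') ∧
      (∀ v, deg (ae (s e0) s') (ae (t e0) t') v = deg s t v) ∧
      Fintype.card E = Fintype.card E' + 1 ∧ ∀ e', ∃ e, s' e' = s e ∧ t' e' = t e := by
  classical
  let g : Option {e // e ≠ e0} ≃ E := Equiv.optionSubtypeNe e0
  have hs : ∀ f : E → V, ∀ o, f (g o) = (ae (f e0) fun e : {e // e ≠ e0} => f e.1) o := by
    intro f o
    rcases o with _ | e
    · show f (Equiv.optionSubtypeNe e0 none) = _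
      rw [Equiv.optionSubtypeNe_none]
      rfl
    · show f (Equiv.optionSubtypeNe e0 (some e)) = _
      rw [Equiv.optionSubtypeNe_some]
      rfl
  refine ⟨{e // e ≠ e0}, inferInstance, fun e => s e.1, fun e => t e.1, ?_, ?_, ?_, ?_⟩
  · exact ns_iso (Equiv.refl V) g _ _ s t (fun o => hs s o) (fun o => hs t o)
  · intro v
    exact (deg_iso (Equiv.refl V) g _ _ s t (fun o => hs s o) (fun o => hs t o) v).symm
  · rw [← Fintype.card_congr g, Fintype.card_option]
  · exact fun e' => ⟨e'.1, rfl, rfl⟩

/-- Two vertices with free legs. -/
theorem exists_two {V E : Type} [Fintype V] [Fintype E] (s t : E → V) (h : ∀ v, deg s t v ≤ 4)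
    (hc : Fintype.card E + 2 < 2 * Fintype.card V) :
    ∃ a b, a ≠ b ∧ deg s t a ≤ 3 ∧ deg s t b ≤ 3 := by
  classical
  by_contra hcon
  push Not at hcon
  have h1 : ∑ v, (4 - deg s t v) ≤ 4 := by
    by_cases h2 : ∃ a, deg s t a ≤ 3
    · obtain ⟨a, ha⟩ := h2
      rw [Finset.sum_eq_single a]
      · omega
      · intro b _ hb
        have := hcon a b hb.symm ha
        omega
      · intro h
        exact absurd (Finset.mem_univ _) h
    · push Not at h2
      rw [Finset.sum_eq_zero fun v _ => by have := h2 v; omega]
      omega
  have h2 : ∑ v, (4 - deg s t v) + ∑ v, deg s t v = 4 * Fintype.card V := by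
    rw [← Finset.sum_add_distrib, Finset.sum_congr rfl fun v _ => Nat.sub_add_cancel (h v)]
    simp [mul_comm]
  have h3 := handshake s t
  omega

/-- The induction. -/
private theorem log4_aux (N : ℕ) : ∀ (V E : Type) [Fintype V] [Fintype E] (s t : E → V),
    (∀ v, deg s t v ≤ 4) → (∀ e, s e ≠ t e) →
      (2 * (Fintype.card V : ℤ) - Fintype.card E - 2).natAbs = N → Sp Log4 (ns s t) := by
  classical
  induction N with
  | zero =>
    intro V E _ _ s t h hl hN
    by_cases hT : ∃ T, IsTree s t T
    · have hm : Fintype.card E + 2 = 2 * Fintype.card V := by omega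
      let e := Fintype.equivFin V
      let g := Fintype.equivFin E
      obtain ⟨T, hT⟩ := hT
      refine Sp.base ⟨Fintype.card V, Fintype.card E, e ∘ s ∘ g.symm, e ∘ t ∘ g.symm, ?_, ?_, ?_, hm, ?_⟩
      · intro v
        have := deg_iso e g s t (e ∘ s ∘ g.symm) (e ∘ t ∘ g.symm) (fun i => by simp) (fun i => by simp)
          (e.symm v)
        rw [Equiv.apply_symm_apply] at this
        rw [this]
        exact h _
      · intro i hi
        exact hl (g.symm i) (e.injective hi)
      · exact ⟨T.map g.toEmbedding, (isTree_iso e g s t (e ∘ s ∘ g.symm) (e ∘ t ∘ g.symm)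
          (fun i => by simp) (fun i => by simp) T).2 hT⟩
      · exact (ns_iso e g s t (e ∘ s ∘ g.symm) (e ∘ t ∘ g.symm) (fun i => by simp)
          (fun i => by simp)).symm
    · exact sp_congr (sp_mulq (Fintype.card E) Sp.one) fun F => by rw [ns_disc s t hT, mul_one]
  | succ N IH =>
    intro V E _ _ s t h hl hN
    by_cases hT : ∃ T, IsTree s t T
    swap
    · exact sp_congr (sp_mulq (Fintype.card E) Sp.one) fun F => by rw [ns_disc s t hT, mul_one]
    obtain ⟨T, hT1, -⟩ := hT
    by_cases hlt : Fintype.card E + 2 < 2 * Fintype.card V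
    · -- close two legs
      obtain ⟨a, b, hab, ha, hb⟩ := exists_two s t h hlt
      have d1 : ∀ v, deg (ae a s) (ae b t) v ≤ 4 := by
        intro v
        rw [deg_ae]
        have := h v
        by_cases hva : v = a
        · subst hva
          rw [if_pos rfl, if_neg hab]
          omega
        · by_cases hvb : v = b
          · subst hvb
            rw [if_neg hva, if_pos rfl]
            omega
          · rw [if_neg hva, if_neg hvb]
            omega
      have l1 : ∀ e, ae a s e ≠ ae b t e := by
        rintro (_ | e)
        · exact hab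
        · exact hl e
      have s1 := IH V (Option E) (ae a s) (ae b t) d1 l1 (by
        rw [Fintype.card_option]; push_cast; omega)
      have d2 : ∀ v, deg (chS a s) (chT b t) v ≤ 4 := by
        intro v
        unfold chS chT
        rw [deg_ae, deg_ae, deg_ae, deg_ae]
        rcases v with _ | _ | v
        · have h1 := deg_none (ae none (some ∘ s)) (ae (some b) (some ∘ t))
          have h2 : deg (some ∘ ae none (some ∘ s)) (some ∘ ae (some b) (some ∘ t)) none = 0 := h1
          rw [h2]
          simp
        · have h1 := deg_some (ae none (some ∘ s)) (ae (some b) (some ∘ t)) none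
          have h2 : deg (some ∘ ae none (some ∘ s)) (some ∘ ae (some b) (some ∘ t)) (some none) =
            deg (ae none (some ∘ s)) (ae (some b) (some ∘ t)) none := h1
          have h3 : deg (some ∘ s) (some ∘ t) none = 0 := deg_none s t
          rw [h2, deg_ae, h3]
          simp
        · have h1 := deg_some (ae none (some ∘ s)) (ae (some b) (some ∘ t)) (some v)
          have h2 : deg (some ∘ ae none (some ∘ s)) (some ∘ ae (some b) (some ∘ t)) (some (some v)) =
            deg (ae none (some ∘ s)) (ae (some b) (some ∘ t)) (some v) := h1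
          have h3 : deg (some ∘ s) (some ∘ t) (some v) = deg s t v := deg_some s t v
          rw [h2, deg_ae, h3]
          have h4 := d1 v
          rw [deg_ae] at h4
          simp only [Option.some.injEq, reduceCtorEq, if_false, add_zero]
          omega
      have l2 : ∀ e, chS a s e ≠ chT b t e := by
        rintro (_ | _ | _ | _ | _ | e)
        · exact (Option.some_ne_none _).symm
        · exact (Option.some_ne_none _).symm
        · exact (Option.some_ne_none _).symm
        · exact Option.some_ne_none _
        · show (some none : Option (Option V)) ≠ some (some b)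
          simp
        · show (some (some (s e)) : Option (Option V)) ≠ some (some (t e))
          simpa using hl e
      have s2 := IH (Option (Option V)) _ (chS a s) (chT b t) d2 l2 (by
        simp only [Fintype.card_option]; push_cast; omega)
      have hpoly : Sp Log4 fun F => (3 * F.q ^ 3 - 2 * F.q ^ 2) * F.q ^ Fintype.card E :=
        sp_congr (sp_poly ((3 * Polynomial.X ^ 3 - 2 * Polynomial.X ^ 2) *
          Polynomial.X ^ Fintype.card E : Polynomial ℤ)) fun F => by simp
      have s1' : Sp Log4 fun F => F.q ^ 3 * (F.q - 1) * ns (ae a s) (ae b t) F :=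
        sp_congr (Sp.mulp (Polynomial.X ^ 3 * (Polynomial.X - 1) : Polynomial ℤ) s1) fun F => by simp
      refine Sp.div (Polynomial.X ^ 2 * (Polynomial.X - 1) * (Polynomial.X - 2) : Polynomial ℤ) ?_ ?_
      · have h1 : (Polynomial.X - 1 : Polynomial ℤ).Monic := by
          have := Polynomial.monic_X_sub_C (1 : ℤ)
          simpa using this
        have h2 : (Polynomial.X - 2 : Polynomial ℤ).Monic := by
          have := Polynomial.monic_X_sub_C (2 : ℤ)
          simpa using this
        exact ((Polynomial.monic_X_pow 2).mul h1).mul h2
      · refine sp_congr (sp_sub (sp_sub s2 s1') hpoly) fun F => ?_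
        have := ns_leg a b hab s t F
        simp only [Polynomial.eval_mul, Polynomial.eval_pow, Polynomial.eval_X, Polynomial.eval_sub,
          Polynomial.eval_one, Polynomial.eval_ofNat]
        linarith
    · -- subdivide an edge
      have hcard : 0 < Fintype.card E := by omega
      obtain ⟨e0⟩ := Fintype.card_pos_iff.1 hcard
      obtain ⟨E', _, s', t', p1, p2, p3, p4⟩ := exists_peel s t e0
      have hab : s e0 ≠ t e0 := hl e0
      have d1 : ∀ v, deg (ae (some (s e0)) (ae none (some ∘ s'))) (ae none (ae (some (t e0)) (some ∘ t'))) v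
          ≤ 4 := by
        intro v
        rw [deg_ae, deg_ae]
        rcases v with _ | v
        · have h3 : deg (some ∘ s') (some ∘ t') none = 0 := deg_none s' t'
          rw [h3]
          simp
        · have h3 : deg (some ∘ s') (some ∘ t') (some v) = deg s' t' v := deg_some s' t' v
          have h4 := p2 v
          rw [deg_ae] at h4
          have h5 := h v
          rw [h3]
          simp only [Option.some.injEq, reduceCtorEq, if_false, add_zero]
          omega
      have l1 : ∀ e, (ae (some (s e0)) (ae none (some ∘ s'))) e ≠
          (ae none (ae (some (t e0)) (some ∘ t'))) e := by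
        rintro (_ | _ | e)
        · exact Option.some_ne_none _
        · exact (Option.some_ne_none _).symm
        · obtain ⟨e1, h1, h2⟩ := p4 e
          show some (s' e) ≠ some (t' e)
          rw [h1, h2]
          simpa using hl e1
      have s1 := IH (Option V) (Option (Option E')) _ _ d1 l1 (by
        simp only [Fintype.card_option]; push_cast; omega)
      refine sp_divq 1 (sp_congr s1 fun F => ?_)
      rw [ns_subdiv _ _ hab, ← p1, pow_one]

/-- Remove the loops. -/
theorem log4_mem {V E : Type} [Fintype V] [Fintype E] (s t : E → V) (h : ∀ v, deg s t v ≤ 4) :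
    Sp Log4 (ns s t) := by
  classical
  induction hm : Fintype.card E generalizing E with
  | zero =>
    refine log4_aux _ V E s t h (fun e => ?_) rfl
    exact absurd (Fintype.card_pos_iff.2 ⟨e⟩) (by omega)
  | succ m IH =>
    by_cases hl : ∀ e, s e ≠ t e
    · exact log4_aux _ V E s t h hl rfl
    · push Not at hl
      obtain ⟨e0, he0⟩ := hl
      obtain ⟨E', _, s', t', p1, p2, p3, -⟩ := exists_peel s t e0
      have h' : ∀ v, deg s' t' v ≤ 4 := by
        intro v
        have h1 := p2 v
        have h2 := h v
        rw [deg_ae] at h1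
        omega
      have h3 := IH s' t' h' (by omega)
      rw [p1, he0]
      refine sp_congr (Sp.add (Sp.mulp (Polynomial.X - 1 : Polynomial ℤ) h3)
        (sp_mulq (Fintype.card E') Sp.one)) fun F => ?_
      rw [ns_loop]
      simp

theorem log4_of_phi4 {f : FinField → ℤ} (hf : Sp Phi4 f) : Sp Log4 f := by
  refine sp_trans ?_ hf
  rintro f ⟨n, m, s, t, h, rfl⟩
  exact log4_mem s t h

end Pool.Agent.KGU
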