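import Pool.Agent.KGU.LegI
import Pool.Agent.KG.Tree

/-!
# Kirchhoff polynomials: from maximal degree three to 3-regular graphs
-/

set_option autoImplicit false

open scoped BigOperators

namespace Pool.Agent.KGU

open Pool.Agent.KG

/-- The functions `nk` of the connected 3-regular multigraphs without loops. -/
def Reg3 : Set (FinField → ℤ) :=
  {f | ∃ (n m : ℕ) (s t : Fin m → Fin n), (∀ v, deg s t v = 3) ∧ (∀ e, s e ≠ t e) ∧
    (∃ T, IsTree s t T) ∧ f = nk s t}

section

variable {V E K : Type} [Fintype V] [Fintype E] [Field K]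

private theorem reg3_pend (a : V) (s t : E → V) (α β : Option E → K) :
    tht (ae (some a) (some ∘ s)) (ae none (some ∘ t)) α β = α none * tht s t (α ∘ some) (β ∘ some) := by
  have h := tht_dc (some a) none (by simp) (fun o : Option V => o.elim a id) (fun x => ⟨some x, rfl⟩) (by
        rintro (_ | x) (_ | x')
        · simp
        · simp [eq_comm]
        · simp
        · simp) (some ∘ s) (some ∘ t) α β
  rw [h, tht_isol (some ∘ s) (some ∘ t) (some a) none (by simp) (fun e => by simp), mul_zero, zero_add]
  rfl

private theorem reg3_pend' (b : V) (s t : E → V) (α β : Option E → K) :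
    tht (ae none (some ∘ s)) (ae (some b) (some ∘ t)) α β = α none * tht s t (α ∘ some) (β ∘ some) := by
  have h := tht_dc none (some b) (by simp) (fun o : Option V => o.elim b id) (fun x => ⟨some x, rfl⟩) (by
        rintro (_ | x) (_ | x')
        · simp
        · simp [eq_comm]
        · simp
        · simp) (some ∘ s) (some ∘ t) α β
  rw [h, tht_isol (some ∘ s) (some ∘ t) (some b) none (by simp) (fun e => by simp), mul_zero, zero_add]
  rfl

private theorem reg3_ser (a : V) (s t : E → V) (α β : Option (Option E) → K) :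
    tht (ae (some a) (ae none (some ∘ s))) (ae none (ae (some a) (some ∘ t))) α β =
      (β none * α (some none) + α none * β (some none)) *
        tht s t ((α ∘ some) ∘ some) ((β ∘ some) ∘ some) := by
  have h := tht_dc (some a) none (by simp) (fun o : Option V => o.elim a id) (fun x => ⟨some x, rfl⟩) (by
        rintro (_ | x) (_ | x')
        · simp
        · simp [eq_comm]
        · simp
        · simp) (ae none (some ∘ s)) (ae (some a) (some ∘ t)) α β
  have h1 : (fun o : Option V => o.elim a id) ∘ (ae none (some ∘ s)) = ae a s := by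
    funext o
    rcases o with _ | e <;> rfl
  have h2 : (fun o : Option V => o.elim a id) ∘ (ae (some a) (some ∘ t)) = ae a t := by
    funext o
    rcases o with _ | e <;> rfl
  rw [h1, h2] at h
  rw [h, reg3_pend', tht_loop]
  simp only [Function.comp]
  ring

private theorem reg3_dbl {W : Type} [Fintype W] (c d : V) (hcd : c ≠ d) (π : V → W)
    (hπ : Function.Surjective π)
    (hk : ∀ u v, π u = π v ↔ u = v ∨ (u = c ∧ v = d) ∨ (u = d ∧ v = c)) (s t : E → V)
    (α β : Option (Option E) → K) :
    tht (ae c (ae c s)) (ae d (ae d t)) α β =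
      β none * β (some none) * tht s t ((α ∘ some) ∘ some) ((β ∘ some) ∘ some) +
      (β none * α (some none) + α none * β (some none)) *
        tht (π ∘ s) (π ∘ t) ((α ∘ some) ∘ some) ((β ∘ some) ∘ some) := by
  have hcd' : π c = π d := (hk c d).2 (Or.inr (Or.inl ⟨rfl, rfl⟩))
  have hae : ∀ {E' : Type} (x : V) (f : E' → V), π ∘ (ae x f) = ae (π x) (π ∘ f) := by
    intro E' x f
    funext o
    rcases o with _ | e <;> rfl
  rw [tht_dc c d hcd π hπ hk, tht_dc c d hcd π hπ hk]
  simp only [hae, hcd', tht_loop]
  simp only [Function.comp]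
  ring

end

/-- A triangle with one doubled side attached at `a` (`w = none`, `w' = some none`): two edges `w - w'`, and
`a - w`, `w' - a`. -/
def trS {V E : Type} (a : V) (s : E → V) : Option (Option (Option (Option E))) → Option (Option V) :=
  ae none (ae none (ae (some (some a)) (some ∘ (ae none (some ∘ s)))))

/-- The other ends. -/
def trT {V E : Type} (a : V) (t : E → V) : Option (Option (Option (Option E))) → Option (Option V) :=
  ae (some none) (ae (some none) (ae none (some ∘ (ae (some a) (some ∘ t)))))

theorem kir_tri {V E K : Type} [Fintype V] [Fintype E] [Field K] (a : V) (s t : E → V) (c c' u v : K)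
    (x : E → K) :
    kir (trS a s) (trT a t) (fun o => o.elim c fun o => o.elim c' fun o => o.elim u fun o => o.elim v x) =
      (u * v + (c + c') * (u + v)) * kir s t x := by
  simp only [kir_eq_tht]
  rw [trS, trT, reg3_dbl none (some none) (by simp) (fun o : Option (Option V) => o.elim none id)
    (fun x => ⟨some x, rfl⟩) (by
        rintro (_ | x) (_ | x')
        · simp
        · simp [eq_comm]
        · simp
        · simp)]
  have h1 : (fun o : Option (Option V) => o.elim none id) ∘
      (ae (some (some a)) (some ∘ (ae none (some ∘ s)))) = ae (some a) (ae none (some ∘ s)) := by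
    funext o
    rcases o with _ | _ | e <;> rfl
  have h2 : (fun o : Option (Option V) => o.elim none id) ∘
      (ae none (some ∘ (ae (some a) (some ∘ t)))) = ae none (ae (some a) (some ∘ t)) := by
    funext o
    rcases o with _ | _ | e <;> rfl
  rw [h1, h2, reg3_pend, reg3_pend', reg3_ser]
  show 1 * 1 * (u * (v * tht s t x 1)) + (1 * c' + c * 1) * ((1 * v + u * 1) * tht s t x 1) =
    (u * v + (c + c') * (u + v)) * tht s t x 1
  ring

theorem kir_pend {V E K : Type} [Fintype V] [Fintype E] [Field K] (a : V) (s t : E → V) (y : K)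
    (x : E → K) :
    kir (ae (some a) (some ∘ s)) (ae none (some ∘ t)) (fun o => o.elim y x) = y * kir s t x := by
  simp only [kir_eq_tht]
  rw [reg3_pend]
  rfl

theorem kir_loop {V E K : Type} [Fintype V] [Fintype E] [Field K] (a : V) (s t : E → V) (y : K)
    (x : E → K) :
    kir (ae a s) (ae a t) (fun o => o.elim y x) = kir s t x := by
  simp only [kir_eq_tht]
  rw [tht_loop]
  show 1 * tht s t x 1 = tht s t x 1
  rw [one_mul]

section

variable {X K : Type} [Finite X] [Field K] [Finite K]

omit [Finite K] in
/-- The number of zeros of a product of a function on `Y` and a function on `X`. -/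
private theorem reg3_prod {Y : Type} [Finite Y] (g : Y → K) (f : X → K) :
    (Nat.card {z : Y × X // g z.1 * f z.2 = 0} : ℤ) = Nat.card Y * Nat.card X -
      ((Nat.card Y : ℤ) - Nat.card {y : Y // g y = 0}) * ((Nat.card X : ℤ) - Nat.card {x : X // f x = 0}) := by
  classical
  have : Fintype X := Fintype.ofFinite X
  have : Fintype Y := Fintype.ofFinite Y
  have h1 : ∀ (Z : Type) [Finite Z] (h : Z → K), (Nat.card Z : ℤ) - Nat.card {z : Z // h z = 0} =
      Nat.card {z : Z // h z ≠ 0} := by
    intro Z _ h
    have : Fintype Z := Fintype.ofFinite Z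
    have h2 := Fintype.card_subtype_compl (fun z : Z => h z = 0)
    have h3 := Fintype.card_subtype_le (fun z : Z => h z = 0)
    simp only [Nat.card_eq_fintype_card]
    have h4 : Fintype.card {z : Z // h z ≠ 0} = Fintype.card Z - Fintype.card {z : Z // h z = 0} := h2
    rw [h4]
    push_cast [Nat.cast_sub h3]
    ring
  have h2 := h1 (Y × X) fun z => g z.1 * f z.2
  rw [h1 Y g, h1 X f]
  have h3 : Nat.card {z : Y × X // g z.1 * f z.2 ≠ 0} =
      Nat.card ({y : Y // g y ≠ 0} × {x : X // f x ≠ 0}) :=
    Nat.card_congr ⟨fun z => (⟨z.1.1, left_ne_zero_of_mul z.2⟩, ⟨z.1.2, right_ne_zero_of_mul z.2⟩),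
      fun w => ⟨(w.1.1, w.2.1), mul_ne_zero w.1.2 w.2.2⟩, fun _ => rfl, fun _ => rfl⟩
  rw [Nat.card_prod] at h3
  rw [Nat.card_prod] at h2
  push_cast at h2
  have h5 : (Nat.card {z : Y × X // g z.1 * f z.2 ≠ 0} : ℤ) =
      Nat.card {y : Y // g y ≠ 0} * Nat.card {x : X // f x ≠ 0} := by exact_mod_cast h3
  linarith

/-- The number of zeros of `u v + (c + c') (u + v)`. -/
private theorem reg3_quad : (Nat.card {z : K × K × K × K // z.2.2.1 * z.2.2.2 +
    (z.1 + z.2.1) * (z.2.2.1 + z.2.2.2) = 0} : ℤ) = (Nat.card K : ℤ) ^ 3 := by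
  classical
  have : Fintype K := Fintype.ofFinite K
  have h1 : Nat.card {z : K × K × K × K // z.2.2.1 * z.2.2.2 + (z.1 + z.2.1) * (z.2.2.1 + z.2.2.2) = 0} =
      Nat.card (K × {z : K × K × K // z.1 * z.2.1 + z.1 * z.2.2 + z.2.1 * z.2.2 = 0}) :=
    Nat.card_congr ⟨fun z => (z.1.2.1, ⟨(z.1.1 + z.1.2.1, z.1.2.2.1, z.1.2.2.2), by
        have := z.2
        show (z.1.1 + z.1.2.1) * z.1.2.2.1 + (z.1.1 + z.1.2.1) * z.1.2.2.2 + z.1.2.2.1 * z.1.2.2.2 = 0
        linear_combination this⟩),
      fun w => ⟨(w.2.1.1 - w.1, w.1, w.2.1.2.1, w.2.1.2.2), by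
        have := w.2.2
        show w.2.1.2.1 * w.2.1.2.2 + (w.2.1.1 - w.1 + w.1) * (w.2.1.2.1 + w.2.1.2.2) = 0
        linear_combination this⟩,
      fun z => by
        apply Subtype.ext
        show (z.1.1 + z.1.2.1 - z.1.2.1, z.1.2.1, z.1.2.2.1, z.1.2.2.2) = z.1
        rw [add_sub_cancel_right],
      fun w => by
        refine Prod.ext rfl ?_
        apply Subtype.ext
        show (w.2.1.1 - w.1 + w.1, w.2.1.2.1, w.2.1.2.2) = w.2.1
        rw [sub_add_cancel]⟩
  have h2 : (Nat.card {z : K × K × K // z.1 * z.2.1 + z.1 * z.2.2 + z.2.1 * z.2.2 = 0} : ℤ) =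
      (Nat.card K : ℤ) ^ 2 := by
    rw [Nat.card_eq_fintype_card, Fintype.card_subtype, Finset.card_filter, Nat.card_eq_fintype_card,
      ← legc_e2 (K := K)]
    push_cast
    simp only [Fintype.sum_prod_type]
  rw [h1, Nat.card_prod]
  push_cast
  rw [h2]
  ring

end

/-- An end vertex joined by an edge. -/
theorem nk_pend {V E : Type} [Fintype V] [Fintype E] (a : V) (s t : E → V) (F : FinField) :
    nk (ae (some a) (some ∘ s)) (ae none (some ∘ t)) F =
      F.q ^ (Fintype.card E + 1) - (F.q - 1) * (F.q ^ Fintype.card E - nk s t F) := by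
  have h1 : Nat.card {y : Option E → F.K // kir (ae (some a) (some ∘ s)) (ae none (some ∘ t)) y = 0} =
      Nat.card {z : F.K × (E → F.K) // z.1 * kir s t z.2 = 0} := by
    refine Nat.card_congr ⟨fun y => ⟨(y.1 none, y.1 ∘ some), ?_⟩,
      fun x => ⟨fun o => o.elim x.1.1 x.1.2, ?_⟩, ?_, fun _ => rfl⟩
    · have h := kir_pend a s t (y.1 none) (y.1 ∘ some)
      have h2 : (fun o : Option E => o.elim (y.1 none) (y.1 ∘ some)) = y.1 := by
        funext o
        rcases o with _ | e <;> rfl
      rw [h2, y.2] at h
      exact h.symm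
    · rw [kir_pend]
      exact x.2
    · intro y
      apply Subtype.ext
      funext o
      rcases o with _ | e <;> rfl
  have h2 := reg3_prod (fun z : F.K => z) (fun x : E → F.K => kir s t x)
  have hq : F.q = (Nat.card F.K : ℤ) := rfl
  have hX : (Nat.card (E → F.K) : ℤ) = F.q ^ Fintype.card E := by
    rw [Nat.card_fun, hq, Nat.card_eq_fintype_card (α := E)]
    push_cast
    rfl
  have h3 : Nat.card {y : F.K // y = 0} = 1 := by
    rw [Nat.card_eq_one_iff_unique]
    exact ⟨⟨fun x y => Subtype.ext (x.2.trans y.2.symm)⟩, ⟨⟨0, rfl⟩⟩⟩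
  unfold nk NK
  rw [h1, h2, hX, h3, hq]
  push_cast
  ring

/-- A triangle with one doubled side. -/
theorem nk_tri {V E : Type} [Fintype V] [Fintype E] (a : V) (s t : E → V) (F : FinField) :
    nk (trS a s) (trT a t) F =
      F.q ^ (Fintype.card E + 4) - (F.q ^ 4 - F.q ^ 3) * (F.q ^ Fintype.card E - nk s t F) := by
  have h1 : Nat.card {y : Option (Option (Option (Option E))) → F.K // kir (trS a s) (trT a t) y = 0} =
      Nat.card {z : (F.K × F.K × F.K × F.K) × (E → F.K) // (z.1.2.2.1 * z.1.2.2.2 +
        (z.1.1 + z.1.2.1) * (z.1.2.2.1 + z.1.2.2.2)) * kir s t z.2 = 0} := by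
    refine Nat.card_congr ⟨fun y => ⟨((y.1 none, y.1 (some none), y.1 (some (some none)),
      y.1 (some (some (some none)))), fun e => y.1 (some (some (some (some e))))), ?_⟩,
      fun x => ⟨fun o => o.elim x.1.1.1 fun o => o.elim x.1.1.2.1 fun o => o.elim x.1.1.2.2.1 fun o =>
        o.elim x.1.1.2.2.2 x.1.2, ?_⟩, ?_, fun _ => rfl⟩
    · have h := kir_tri a s t (y.1 none) (y.1 (some none)) (y.1 (some (some none)))
        (y.1 (some (some (some none)))) (fun e => y.1 (some (some (some (some e)))))
      have h2 : (fun o : Option (Option (Option (Option E))) => o.elim (y.1 none) fun o =>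
          o.elim (y.1 (some none)) fun o => o.elim (y.1 (some (some none))) fun o =>
          o.elim (y.1 (some (some (some none)))) fun e => y.1 (some (some (some (some e))))) = y.1 := by
        funext o
        rcases o with _ | _ | _ | _ | e <;> rfl
      rw [h2, y.2] at h
      exact h.symm
    · rw [kir_tri]
      exact x.2
    · intro y
      apply Subtype.ext
      funext o
      rcases o with _ | _ | _ | _ | e <;> rfl
  have h2 := reg3_prod (fun z : F.K × F.K × F.K × F.K => z.2.2.1 * z.2.2.2 +
    (z.1 + z.2.1) * (z.2.2.1 + z.2.2.2)) (fun x : E → F.K => kir s t x)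
  have hq : F.q = (Nat.card F.K : ℤ) := rfl
  have hX : (Nat.card (E → F.K) : ℤ) = F.q ^ Fintype.card E := by
    rw [Nat.card_fun, hq, Nat.card_eq_fintype_card (α := E)]
    push_cast
    rfl
  unfold nk NK
  rw [h1, h2, hX, reg3_quad, Nat.card_prod, Nat.card_prod, Nat.card_prod, hq]
  push_cast
  ring

theorem nk_loop {V E : Type} [Fintype V] [Fintype E] (a : V) (s t : E → V) (F : FinField) :
    nk (ae a s) (ae a t) F = F.q * nk s t F := by
  have h1 : Nat.card {y : Option E → F.K // kir (ae a s) (ae a t) y = 0} =
      Nat.card (F.K × {x : E → F.K // kir s t x = 0}) := by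
    refine Nat.card_congr ⟨fun y => (y.1 none, ⟨y.1 ∘ some, ?_⟩),
      fun x => ⟨fun o => o.elim x.1 x.2.1, ?_⟩, ?_, fun _ => rfl⟩
    · have h := kir_loop a s t (y.1 none) (y.1 ∘ some)
      have h2 : (fun o : Option E => o.elim (y.1 none) (y.1 ∘ some)) = y.1 := by
        funext o
        rcases o with _ | e <;> rfl
      rw [h2, y.2] at h
      exact h.symm
    · rw [kir_loop]
      exact x.2.2
    · intro y
      apply Subtype.ext
      funext o
      rcases o with _ | e <;> rfl
  unfold nk NK
  rw [h1, Nat.card_prod]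
  push_cast
  rfl

/-- Without a spanning tree the number is `q ^ m`. -/
theorem nk_disc {V E : Type} [Fintype V] [Fintype E] (s t : E → V) (h : ¬ ∃ T, IsTree s t T) (F : FinField) :
    nk s t F = F.q ^ Fintype.card E := by
  have h1 : ∀ x : E → F.K, kir s t x = 0 := by
    intro x
    unfold kir
    refine Finset.sum_eq_zero fun T _ => ?_
    rw [if_neg fun hT => h ⟨T, hT⟩]
  unfold nk NK
  rw [Nat.card_congr (Equiv.subtypeUnivEquiv h1), Nat.card_fun, Nat.card_eq_fintype_card (α := E)]
  push_cast
  rfl

theorem nk_iso' {V W E E' : Type} [Fintype V] [Fintype W] [Fintype E] [Fintype E'] (f : V ≃ W) (g : E ≃ E')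
    (s t : E → V) (s' t' : E' → W) (hs : ∀ e, s' (g e) = f (s e)) (ht : ∀ e, t' (g e) = f (t e)) :
    nk s' t' = nk s t := by
  funext F
  unfold nk NK
  congr 1
  refine Nat.card_congr ⟨fun y => ⟨y.1 ∘ g, ?_⟩, fun y => ⟨y.1 ∘ g.symm, ?_⟩, ?_, ?_⟩
  · have h := tht_iso f g s t s' t' hs ht y.1 (1 : E' → F.K)
    have h2 := y.2
    rw [kir_eq_tht, h] at h2
    rw [kir_eq_tht]
    exact h2
  · have h := tht_iso f g s t s' t' hs ht (y.1 ∘ g.symm) (1 : E' → F.K)
    have h3 : (y.1 ∘ g.symm) ∘ g = y.1 := by
      funext i
      simp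
    have h2 := y.2
    rw [kir_eq_tht] at h2
    rw [kir_eq_tht, h, h3]
    exact h2
  · intro y
    apply Subtype.ext
    funext i
    simp
  · intro y
    apply Subtype.ext
    funext i
    simp

/-- Take one edge out. -/
theorem exists_peelK {V E : Type} [Fintype V] [Fintype E] (s t : E → V) (e0 : E) :
    ∃ (E' : Type) (_ : Fintype E') (s' t' : E' → V), nk s t = nk (ae (s e0) s') (ae (t e0) t') ∧
      (∀ v, deg (ae (s e0) s') (ae (t e0) t') v = deg s t v) ∧
      Fintype.card E = Fintype.card E' + 1 := by
  classical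
  let g : Option {e // e ≠ e0} ≃ E := Equiv.optionSubtypeNe e0
  have hs : ∀ f : E → V, ∀ o, f (g o) = (ae (f e0) fun e : {e // e ≠ e0} => f e.1) o := by
    intro f o
    rcases o with _ | e
    · show f (Equiv.optionSubtypeNe e0 none) = _
      rw [Equiv.optionSubtypeNe_none]
      rfl
    · show f (Equiv.optionSubtypeNe e0 (some e)) = _
      rw [Equiv.optionSubtypeNe_some]
      rfl
  refine ⟨{e // e ≠ e0}, inferInstance, fun e => s e.1, fun e => t e.1, ?_, ?_, ?_⟩
  · exact nk_iso' (Equiv.refl V) g _ _ s t (fun o => hs s o) (fun o => hs t o)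
  · intro v
    exact (deg_iso (Equiv.refl V) g _ _ s t (fun o => hs s o) (fun o => hs t o) v).symm
  · rw [← Fintype.card_congr g, Fintype.card_option]

private theorem reg3_aux (N : ℕ) : ∀ (V E : Type) [Fintype V] [Fintype E] (s t : E → V),
    (∀ v, deg s t v ≤ 3) → (∀ e, s e ≠ t e) → (∑ v, (3 - deg s t v) = N) → Sp Reg3 (nk s t) := by
  classical
  induction N with
  | zero =>
    intro V E _ _ s t h hl hN
    by_cases hT : ∃ T, IsTree s t T
    · have h3 : ∀ v, deg s t v = 3 := by
        intro v
        have h1 := (Finset.sum_eq_zero_iff.1 hN) v (Finset.mem_univ v)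
        have := h v
        omega
      let e := Fintype.equivFin V
      let g := Fintype.equivFin E
      obtain ⟨T, hT⟩ := hT
      refine Sp.base ⟨Fintype.card V, Fintype.card E, e ∘ s ∘ g.symm, e ∘ t ∘ g.symm, ?_, ?_, ?_, ?_⟩
      · intro v
        have := deg_iso e g s t (e ∘ s ∘ g.symm) (e ∘ t ∘ g.symm) (fun i => by simp) (fun i => by simp)
          (e.symm v)
        rw [Equiv.apply_symm_apply] at this
        rw [this]
        exact h3 _
      · intro i hi
        exact hl (g.symm i) (e.injective hi)
      · exact ⟨T.map g.toEmbedding, (isTree_iso e g s t (e ∘ s ∘ g.symm) (e ∘ t ∘ g.symm)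
          (fun i => by simp) (fun i => by simp) T).2 hT⟩
      · exact (nk_iso' e g s t (e ∘ s ∘ g.symm) (e ∘ t ∘ g.symm) (fun i => by simp)
          (fun i => by simp)).symm
    · exact sp_congr (sp_mulq (Fintype.card E) Sp.one) fun F => by rw [nk_disc s t hT, mul_one]
  | succ N IH =>
    intro V E _ _ s t h hl hN
    obtain ⟨a, -, ha⟩ : ∃ a ∈ Finset.univ, 3 - deg s t a ≠ 0 := by
      by_contra hcon
      push Not at hcon
      rw [Finset.sum_eq_zero hcon] at hN
      omega
    -- the pendant graph and the graph with the triangle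
    have p0 : deg (ae (some a) (some ∘ s)) (ae none (some ∘ t)) none = 1 := by
      have h3 : deg (some ∘ s) (some ∘ t) none = 0 := deg_none s t
      rw [deg_ae, h3]
      simp
    have p1 : ∀ v, deg (ae (some a) (some ∘ s)) (ae none (some ∘ t)) (some v) =
        deg s t v + if v = a then 1 else 0 := by
      intro v
      have h3 : deg (some ∘ s) (some ∘ t) (some v) = deg s t v := deg_some s t v
      rw [deg_ae, h3]
      simp
    set s₁ := ae (some a) (some ∘ s) with hs1
    set t₁ := ae none (some ∘ t) with ht1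
    have q0 : deg (trS none s₁) (trT none t₁) none = 3 := by
      have h1 : deg (some ∘ ae none (some ∘ s₁)) (some ∘ ae (some none) (some ∘ t₁)) none = 0 :=
        deg_none (ae none (some ∘ s₁)) (ae (some none) (some ∘ t₁))
      unfold trS trT
      rw [deg_ae, deg_ae, deg_ae, h1]
      simp
    have q1 : deg (trS none s₁) (trT none t₁) (some none) = 3 := by
      have h1 : deg (some ∘ ae none (some ∘ s₁)) (some ∘ ae (some none) (some ∘ t₁)) (some none) =
        deg (ae none (some ∘ s₁)) (ae (some none) (some ∘ t₁)) none :=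
        deg_some (ae none (some ∘ s₁)) (ae (some none) (some ∘ t₁)) none
      have h2 : deg (some ∘ s₁) (some ∘ t₁) none = 0 := deg_none s₁ t₁
      unfold trS trT
      rw [deg_ae, deg_ae, deg_ae, h1, deg_ae, h2]
      simp
    have q2 : ∀ v, deg (trS none s₁) (trT none t₁) (some (some v)) =
        deg s₁ t₁ v + if v = none then 2 else 0 := by
      intro v
      have h1 : deg (some ∘ ae none (some ∘ s₁)) (some ∘ ae (some none) (some ∘ t₁)) (some (some v)) =
        deg (ae none (some ∘ s₁)) (ae (some none) (some ∘ t₁)) (some v) :=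
        deg_some (ae none (some ∘ s₁)) (ae (some none) (some ∘ t₁)) (some v)
      have h2 : deg (some ∘ s₁) (some ∘ t₁) (some v) = deg s₁ t₁ v := deg_some s₁ t₁ v
      unfold trS trT
      rw [deg_ae, deg_ae, deg_ae, h1, deg_ae, h2]
      simp only [reduceCtorEq, if_false, add_zero, Option.some.injEq]
      by_cases hv : v = none
      · simp [hv]
      · simp [hv]
    have d1 : ∀ v, deg (trS none s₁) (trT none t₁) v ≤ 3 := by
      rintro (_ | _ | _ | v)
      · exact q0.le
      · exact q1.le
      · rw [q2, p0, if_pos rfl]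
      · rw [q2, p1]
        have := h v
        by_cases hv : v = a
        · subst hv
          simp
          omega
        · simp [hv]
          omega
    have l1 : ∀ e, trS none s₁ e ≠ trT none t₁ e := by
      rintro (_ | _ | _ | _ | _ | e)
      · exact (Option.some_ne_none _).symm
      · exact (Option.some_ne_none _).symm
      · exact Option.some_ne_none _
      · show (some none : Option (Option (Option V))) ≠ some (some none)
        simp
      · show (some (some (some a)) : Option (Option (Option V))) ≠ some (some none)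
        simp
      · show (some (some (some (s e))) : Option (Option (Option V))) ≠ some (some (some (t e)))
        simpa using hl e
    have hsum : ∑ v, (3 - deg (trS none s₁) (trT none t₁) v) = N := by
      rw [Fintype.sum_option, Fintype.sum_option, Fintype.sum_option, q0, q1, q2, p0, if_pos rfl]
      have h1 : ∀ v : V, 3 - deg (trS none s₁) (trT none t₁) (some (some (some v))) =
          3 - (deg s t v + if v = a then 1 else 0) := by
        intro v
        rw [q2, p1]
        simp
      rw [Finset.sum_congr rfl fun v _ => h1 v]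
      have h2 : ∑ v, (3 - (deg s t v + if v = a then 1 else 0)) + 1 = ∑ v, (3 - deg s t v) := by
        rw [← Finset.add_sum_erase _ _ (Finset.mem_univ a), ← Finset.add_sum_erase _ _ (Finset.mem_univ a)]
        have h3 : ∑ v ∈ Finset.univ.erase a, (3 - (deg s t v + if v = a then 1 else 0)) =
            ∑ v ∈ Finset.univ.erase a, (3 - deg s t v) := by
          refine Finset.sum_congr rfl fun v hv => ?_
          rw [if_neg (Finset.ne_of_mem_erase hv), add_zero]
        rw [h3, if_pos rfl]
        omega
      omega
    have s1 := IH (Option (Option (Option V))) _ (trS none s₁) (trT none t₁) d1 l1 hsum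
    have hpoly : Sp Reg3 fun F => F.q ^ (Fintype.card E + 5) -
        (F.q ^ 4 - F.q ^ 3) * (F.q - 1) * F.q ^ Fintype.card E :=
      sp_congr (sp_poly (Polynomial.X ^ (Fintype.card E + 5) -
        (Polynomial.X ^ 4 - Polynomial.X ^ 3) * (Polynomial.X - 1) *
          Polynomial.X ^ Fintype.card E : Polynomial ℤ)) fun F => by simp
    refine Sp.div (Polynomial.X ^ 3 * (Polynomial.X - 1) * (Polynomial.X - 1) : Polynomial ℤ) ?_ ?_
    · have h1 : (Polynomial.X - 1 : Polynomial ℤ).Monic := by
        have := Polynomial.monic_X_sub_C (1 : ℤ)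
        simpa using this
      exact ((Polynomial.monic_X_pow 3).mul h1).mul h1
    · refine sp_congr (sp_sub s1 hpoly) fun F => ?_
      have h1 := nk_tri none s₁ t₁ F
      have h2 := nk_pend a s t F
      rw [← hs1, ← ht1] at h2
      rw [Fintype.card_option] at h1
      rw [h1, h2]
      simp only [Polynomial.eval_mul, Polynomial.eval_pow, Polynomial.eval_X, Polynomial.eval_sub,
        Polynomial.eval_one]
      ring

/-- Remove the loops. -/
theorem reg3_mem {V E : Type} [Fintype V] [Fintype E] (s t : E → V) (h : ∀ v, deg s t v ≤ 3) :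
    Sp Reg3 (nk s t) := by
  classical
  induction hm : Fintype.card E generalizing E with
  | zero =>
    refine reg3_aux _ V E s t h (fun e => ?_) rfl
    exact absurd (Fintype.card_pos_iff.2 ⟨e⟩) (by omega)
  | succ m IH =>
    by_cases hl : ∀ e, s e ≠ t e
    · exact reg3_aux _ V E s t h hl rfl
    · push Not at hl
      obtain ⟨e0, he0⟩ := hl
      obtain ⟨E', _, s', t', p1, p2, p3⟩ := exists_peelK s t e0
      have h' : ∀ v, deg s' t' v ≤ 3 := by
        intro v
        have h1 := p2 v
        have h2 := h v
        rw [deg_ae] at h1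
        omega
      have h3 := IH s' t' h' (by omega)
      rw [p1, he0]
      refine sp_congr (sp_mulq 1 h3) fun F => ?_
      rw [nk_loop, pow_one]

theorem reg3_of_cubic {f : FinField → ℤ} (hf : Sp Cubic f) : Sp Reg3 f := by
  refine sp_trans ?_ hf
  rintro f ⟨n, m, s, t, h, rfl⟩
  exact reg3_mem s t h

end Pool.Agent.KGU
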