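import Pool.Agent.KG.Defs
import Pool.Agent.GPM.App2

/-!
# The functions of the class `Sp B` are in the class `InB g`
-/

set_option autoImplicit false

open scoped BigOperators

namespace Pool.Agent.KGU

open Pool.Agent.KG Pool.Agent.HGC Pool.Agent.GPM

/-- The field with `p ^ r` elements. -/
noncomputable def gf (p : Nat.Primes) (r : ℕ) : FinField :=
  haveI : Fact (p : ℕ).Prime := ⟨p.2⟩
  ⟨GaloisField p r⟩

theorem gf_q (p : Nat.Primes) (r : ℕ) (hr : 1 ≤ r) : (gf p r).q = ((p : ℕ) : ℤ) ^ r := by
  have : Fact (p : ℕ).Prime := ⟨p.2⟩
  have h : Nat.card (GaloisField p r) = (p : ℕ) ^ r := GaloisField.card p r (by omega)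
  show ((Nat.card (GaloisField p r) : ℕ) : ℤ) = _
  rw [h]
  push_cast
  rfl

/-- The function of prime powers of a function of finite fields. -/
noncomputable def toPF (f : FinField → ℤ) : PF := fun p r => ((f (gf p r) : ℤ) : ℂ)

theorem inB_of_sp {B : Set (FinField → ℤ)} {ι : Type} {g : ι → PF} (hg : ∀ i, Bd (g i))
    (hb : ∀ f ∈ B, ∃ i, ∀ p r, 1 ≤ r → g i p r = toPF f p r) {f : FinField → ℤ} (hf : Sp B f) :
    InB g (toPF f) := by
  induction hf with
  | base h =>
    obtain ⟨i, hi⟩ := hb _ h
    exact (InB.base i).congr hi
  | one => exact (InB.poly 1).congr fun p r _ => by simp [toPF, pq]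
  | add _ _ h1 h2 => exact (h1.add h2).congr fun p r _ => by simp [toPF]
  | mulp c _ h =>
    refine (h.pmul c).congr fun p r hr => ?_
    simp only [toPF, pq]
    rw [gf_q p r hr]
    push_cast
    rfl
  | div m hm _ h =>
    refine InB.div_monic hg hm (h.congr fun p r hr => ?_)
    simp only [toPF, pq]
    rw [gf_q p r hr]
    push_cast
    rfl

/-- Counts bounded by a power of `q` are polynomially bounded. -/
theorem bd_of_le {N : (K : Type) → [Field K] → ℕ} (A : ℕ)
    (h : ∀ (K : Type) [Field K] [Finite K], N K ≤ Nat.card K ^ A) : Bd (countPF N) := by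
  refine ⟨A, 1, fun p r hr => ?_⟩
  have : Fact (p : ℕ).Prime := ⟨p.2⟩
  have h1 : Nat.card (GaloisField p r) = (p : ℕ) ^ r := GaloisField.card p r (by omega)
  have h2 := h (GaloisField p r)
  simp only [countPF]
  rw [Complex.norm_natCast, one_mul]
  rw [h1] at h2
  exact_mod_cast h2

theorem NK_le {V E : Type} [Fintype V] [Fintype E] (s t : E → V) (K : Type) [Field K] [Finite K] :
    NK s t K ≤ Nat.card K ^ Fintype.card E := by
  unfold NK
  calc Nat.card {y : E → K // kir s t y = 0} ≤ Nat.card (E → K) :=
        Nat.card_le_card_of_injective _ Subtype.val_injective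
    _ = Nat.card K ^ Fintype.card E := by rw [Nat.card_fun, Nat.card_eq_fintype_card (α := E)]

theorem NS_le {V E : Type} [Fintype V] [Fintype E] (s t : E → V) (K : Type) [Field K] [Finite K] :
    NS s t K ≤ Nat.card K ^ Fintype.card E := by
  unfold NS
  calc Nat.card {y : E → K // sym s t y = 0} ≤ Nat.card (E → K) :=
        Nat.card_le_card_of_injective _ Subtype.val_injective
    _ = Nat.card K ^ Fintype.card E := by rw [Nat.card_fun, Nat.card_eq_fintype_card (α := E)]

/-- A logarithmically divergent Feynman graph of four-dimensional `φ⁴` theory with four external legs: a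
finite connected multigraph without loops (tadpoles) with `n` vertices of degree at most `4` and `m = 2 n - 2`
edges, i.e. a connected multigraph which is obtained from a 4-regular multigraph by removing a vertex. -/
structure Log4Graph where
  /-- number of vertices -/
  n : ℕ
  /-- number of edges -/
  m : ℕ
  /-- one end of the edges -/
  s : Fin m → Fin n
  /-- the other end -/
  t : Fin m → Fin n
  /-- the degrees are at most four -/
  deg_le : ∀ v, deg s t v ≤ 4
  /-- there are no loops -/
  noloop : ∀ e, s e ≠ t e
  /-- there is a spanning tree -/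
  conn : ∃ T, IsTree s t T
  /-- there are four external legs -/
  legs : m + 2 = 2 * n

/-- A connected 3-regular multigraph without loops. -/
structure CubicGraph where
  /-- number of vertices -/
  n : ℕ
  /-- number of edges -/
  m : ℕ
  /-- one end of the edges -/
  s : Fin m → Fin n
  /-- the other end -/
  t : Fin m → Fin n
  /-- the degrees are three -/
  deg_eq : ∀ v, deg s t v = 3
  /-- there are no loops -/
  noloop : ∀ e, s e ≠ t e
  /-- there is a spanning tree -/
  conn : ∃ T, IsTree s t T

/-- The number of points of the Kirchhoff hypersurface. -/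
noncomputable def CubicGraph.count (G : CubicGraph) : PF := countPF fun K _ => NK G.s G.t K

/-- The number of points of the graph hypersurface. -/
noncomputable def Log4Graph.count (G : Log4Graph) : PF := countPF fun K _ => NS G.s G.t K

theorem toPF_aff {n m : ℕ} (P : Fin m → MvPolynomial (Fin n) ℤ) (p : Nat.Primes) (r : ℕ) :
    toPF (fun F => (affCount P F.K : ℤ)) p r = countPF (affCount P) p r := by
  simp only [toPF, countPF]
  push_cast
  rfl

end Pool.Agent.KGU
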