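import Pool.Agent.KGU.URel

/-! # Matrices with pattern `blk S Z` and given vectors in the kernel -/

set_option autoImplicit false

open scoped BigOperators Matrix

namespace Pool.Agent.KGU

open Pool.Agent.KG

variable {I U L : Type} [Fintype I] [Fintype U] [Fintype L] [DecidableEq I]

omit [Fintype U] [Fintype L] in
private theorem blk_ker {W K : Type} [Fintype W] [Field K] (A : Matrix I I K) (C : Matrix W I K)
    (D : Matrix W W K) (hD : D.IsSymm) (P : Matrix W I K) :
    Matrix.fromBlocks A Cᵀ C D * Matrix.fromRows (1 : Matrix I I K) P = 0 ↔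
      C = -(D * P) ∧ A = Pᵀ * D * P := by
  rw [Matrix.fromBlocks_mul_fromRows, ← Matrix.fromRows_zero, Matrix.fromRows_ext_iff]
  simp only [Matrix.mul_one]
  constructor
  · rintro ⟨h1, h2⟩
    have h3 : C = -(D * P) := eq_neg_of_add_eq_zero_left h2
    refine ⟨h3, ?_⟩
    have h4 : Cᵀ = -(Pᵀ * D) := by
      rw [h3, Matrix.transpose_neg, Matrix.transpose_mul, hD.eq]
    rw [h4, Matrix.neg_mul] at h1
    exact eq_of_sub_eq_zero (by rw [sub_eq_add_neg]; exact h1)
  · rintro ⟨rfl, rfl⟩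
    rw [Matrix.transpose_neg, Matrix.transpose_mul, hD.eq, Matrix.neg_mul, add_neg_cancel, neg_add_cancel]
    exact ⟨rfl, rfl⟩

open Classical in
private noncomputable def blkD {K : Type} [Field K] (Z : U → L → Prop) (a : U → K)
    (m : ∀ v, K × ({u // Z u v} → K)) : Matrix (U ⊕ L) (U ⊕ L) K
  | Sum.inl u, Sum.inl u' => if u = u' then a u else 0
  | Sum.inl u, Sum.inr v => if h : Z u v then (m v).2 ⟨u, h⟩ else 0
  | Sum.inr v, Sum.inl u => if h : Z u v then (m v).2 ⟨u, h⟩ else 0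
  | Sum.inr v, Sum.inr v' => if v = v' then (m v).1 else 0

omit [Fintype U] [Fintype L] in
open Classical in
private theorem blkD_symm {K : Type} [Field K] (Z : U → L → Prop) (a : U → K)
    (m : ∀ v, K × ({u // Z u v} → K)) : (blkD Z a m).IsSymm := by
  refine Matrix.IsSymm.ext fun i j => ?_
  rcases i with u | v <;> rcases j with u' | v'
  · show (if u' = u then a u' else 0) = if u = u' then a u else 0
    by_cases h : u = u'
    · subst h; rfl
    · rw [if_neg h, if_neg (Ne.symm h)]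
  · rfl
  · rfl
  · show (if v' = v then (m v').1 else 0) = if v = v' then (m v).1 else 0
    by_cases h : v = v'
    · subst h; rfl
    · rw [if_neg h, if_neg (Ne.symm h)]

/-- the matrix of the points -/
private def blkP {K : Type} (p : U → I → K) (y : L → I → K) : Matrix (U ⊕ L) I K :=
  fun w i => Sum.elim p y w i

omit [Fintype I] [DecidableEq I] in
open Classical in
private theorem blkD_mul {K : Type} [Field K] (Z : U → L → Prop) (a : U → K)
    (m : ∀ v, K × ({u // Z u v} → K)) (p : U → I → K) (y : L → I → K) (v : L) (i : I) :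
    (blkD Z a m * blkP p y) (Sum.inr v) i =
      (m v).1 * y v i + ∑ u, (m v).2 u * p u.1 i := by
  rw [Matrix.mul_apply, Fintype.sum_sum_type, add_comm]
  congr 1
  · rw [Finset.sum_eq_single v]
    · show (if v = v then (m v).1 else 0) * y v i = _
      rw [if_pos rfl]
    · intro v' _ hv'
      show (if v = v' then (m v).1 else 0) * y v' i = _
      rw [if_neg (Ne.symm hv'), zero_mul]
    · intro h
      exact absurd (Finset.mem_univ v) h
  · symm
    refine Fintype.sum_of_injective (Subtype.val) Subtype.val_injective _ _ ?_ ?_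
    · intro u hu
      show (if h : Z u v then (m v).2 ⟨u, h⟩ else 0) * p u i = 0
      rw [dif_neg, zero_mul]
      intro h
      exact hu ⟨⟨u, h⟩, rfl⟩
    · intro u
      show (m v).2 u * p u.1 i = (if h : Z u.1 v then (m v).2 ⟨u.1, h⟩ else 0) * p u.1 i
      rw [dif_pos u.2]

open Classical in
private noncomputable def blkM {K : Type} [Field K] (Z : U → L → Prop) (p : U → I → K) (y : L → I → K)
    (a : U → K) (m : ∀ v, K × ({u // Z u v} → K)) : Matrix (I ⊕ U ⊕ L) (I ⊕ U ⊕ L) K :=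
  Matrix.fromBlocks ((blkP p y)ᵀ * blkD Z a m * blkP p y) (-(blkD Z a m * blkP p y))ᵀ
    (-(blkD Z a m * blkP p y)) (blkD Z a m)

omit [Fintype I] [DecidableEq I] in
private theorem blkM_symm {K : Type} [Field K] (Z : U → L → Prop) (p : U → I → K) (y : L → I → K)
    (a : U → K) (m : ∀ v, K × ({u // Z u v} → K)) : (blkM Z p y a m).IsSymm := by
  unfold blkM
  refine Matrix.IsSymm.fromBlocks ?_ (Matrix.transpose_transpose _) (blkD_symm Z a m)
  show ((blkP p y)ᵀ * blkD Z a m * blkP p y)ᵀ = _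
  rw [Matrix.transpose_mul, Matrix.transpose_mul, Matrix.transpose_transpose, (blkD_symm Z a m).eq,
    Matrix.mul_assoc]

private theorem blkM_ker {K : Type} [Field K] (Z : U → L → Prop) (p : U → I → K) (y : L → I → K)
    (a : U → K) (m : ∀ v, K × ({u // Z u v} → K)) :
    blkM Z p y a m * Matrix.fromRows (1 : Matrix I I K) (blkP p y) = 0 := by
  unfold blkM
  exact (blk_ker _ _ _ (blkD_symm Z a m) _).2 ⟨rfl, rfl⟩

omit [Fintype I] [DecidableEq I] in
open Classical in
private theorem blkM_pat {K : Type} [Field K] (S : L → Set I) (Z : U → L → Prop) (p : U → I → K)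
    (y : L → I → K) (a : U → K) (m : ∀ v, K × ({u // Z u v} → K))
    (hm : ∀ v, ∀ i ∈ S v, (m v).1 * y v i + ∑ u, (m v).2 u * p u.1 i = 0) :
    Pat (blk S Z) (blkM Z p y a m) := by
  refine ⟨blkM_symm Z p y a m, ?_⟩
  have hs : ∀ i j, blkM Z p y a m i j = blkM Z p y a m j i := fun i j => (blkM_symm Z p y a m).apply j i
  have key : ∀ i v, i ∈ S v → blkM Z p y a m (Sum.inl i) (Sum.inr (Sum.inr v)) = 0 := by
    intro i v h
    show -((blkD Z a m * blkP p y) (Sum.inr v) i) = 0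
    rw [blkD_mul, hm v i h, neg_zero]
  have key2 : ∀ u v, ¬ Z u v → blkM Z p y a m (Sum.inr (Sum.inl u)) (Sum.inr (Sum.inr v)) = 0 := by
    intro u v h
    show (if h : Z u v then (m v).2 ⟨u, h⟩ else 0) = 0
    rw [dif_neg h]
  intro i j hij hadj
  have hadj' : ¬ ((blk S Z).Adj i j) := hadj
  rw [blk, SimpleGraph.fromRel_adj] at hadj'
  rcases i with i | u | v <;> rcases j with j | u' | v'
  · exact absurd ⟨hij, Or.inl trivial⟩ hadj'
  · exact absurd ⟨hij, Or.inl trivial⟩ hadj'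
  · refine key i v' ?_
    by_contra h
    exact hadj' ⟨hij, Or.inl h⟩
  · exact absurd ⟨hij, Or.inr trivial⟩ hadj'
  · show (if u = u' then a u else 0) = 0
    rw [if_neg]
    rintro rfl
    exact hij rfl
  · refine key2 u v' ?_
    intro h
    exact hadj' ⟨hij, Or.inl h⟩
  · rw [hs]
    refine key j v ?_
    by_contra h
    exact hadj' ⟨hij, Or.inr h⟩
  · rw [hs]
    refine key2 u' v ?_
    intro h
    exact hadj' ⟨hij, Or.inr h⟩
  · show (if v = v' then (m v).1 else 0) = 0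
    rw [if_neg]
    rintro rfl
    exact hij rfl

open Classical in
/-- the data of a matrix -/
private noncomputable def datM {K : Type} (Z : U → L → Prop) (M : Matrix (I ⊕ U ⊕ L) (I ⊕ U ⊕ L) K) (v : L) :
    K × ({u // Z u v} → K) :=
  (M (Sum.inr (Sum.inr v)) (Sum.inr (Sum.inr v)),
    fun u => M (Sum.inr (Sum.inl u.1)) (Sum.inr (Sum.inr v)))

private theorem eq_blkM {K : Type} [Field K] (S : L → Set I) (Z : U → L → Prop) (p : U → I → K)
    (y : L → I → K) (M : Matrix (I ⊕ U ⊕ L) (I ⊕ U ⊕ L) K) (hM : Pat (blk S Z) M)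
    (hk : M * Matrix.fromRows (1 : Matrix I I K) (blkP p y) = 0) :
    M = blkM Z p y (fun u => M (Sum.inr (Sum.inl u)) (Sum.inr (Sum.inl u))) (datM Z M) := by
  classical
  obtain ⟨hs, hp⟩ := hM
  have hD : M.toBlocks₂₂ = blkD Z (fun u => M (Sum.inr (Sum.inl u)) (Sum.inr (Sum.inl u))) (datM Z M) := by
    have hz : ∀ u v, ¬ Z u v → M (Sum.inr (Sum.inl u)) (Sum.inr (Sum.inr v)) = 0 := by
      intro u v h
      refine hp _ _ (by simp) ?_
      rw [blk, SimpleGraph.fromRel_adj]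
      rintro ⟨_, h1 | h1⟩
      · exact h h1
      · exact h1
    ext i j
    rcases i with u | v <;> rcases j with u' | v'
    · show M (Sum.inr (Sum.inl u)) (Sum.inr (Sum.inl u')) =
        if u = u' then M (Sum.inr (Sum.inl u)) (Sum.inr (Sum.inl u)) else 0
      by_cases h : u = u'
      · subst h; rw [if_pos rfl]
      · rw [if_neg h]
        refine hp _ _ (by simpa using h) ?_
        rw [blk, SimpleGraph.fromRel_adj]
        rintro ⟨_, h1 | h1⟩ <;> exact h1
    · show M (Sum.inr (Sum.inl u)) (Sum.inr (Sum.inr v')) =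
        if h : Z u v' then M (Sum.inr (Sum.inl u)) (Sum.inr (Sum.inr v')) else 0
      by_cases h : Z u v'
      · rw [dif_pos h]
      · rw [dif_neg h, hz u v' h]
    · show M (Sum.inr (Sum.inr v)) (Sum.inr (Sum.inl u')) =
        if h : Z u' v then M (Sum.inr (Sum.inl u')) (Sum.inr (Sum.inr v)) else 0
      rw [← hs.apply]
      by_cases h : Z u' v
      · rw [dif_pos h]
      · rw [dif_neg h, hz u' v h]
    · show M (Sum.inr (Sum.inr v)) (Sum.inr (Sum.inr v')) =
        if v = v' then M (Sum.inr (Sum.inr v)) (Sum.inr (Sum.inr v)) else 0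
      by_cases h : v = v'
      · subst h; rw [if_pos rfl]
      · rw [if_neg h]
        refine hp _ _ (by simpa using h) ?_
        rw [blk, SimpleGraph.fromRel_adj]
        rintro ⟨_, h1 | h1⟩ <;> exact h1
  have h1 : M = Matrix.fromBlocks M.toBlocks₁₁ (M.toBlocks₂₁)ᵀ M.toBlocks₂₁ M.toBlocks₂₂ := by
    have h2 : (M.toBlocks₂₁)ᵀ = M.toBlocks₁₂ := by
      ext i j
      exact hs.apply _ _
    rw [h2, Matrix.fromBlocks_toBlocks]
  have hs2 : M.toBlocks₂₂.IsSymm := by
    rw [hD]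
    exact blkD_symm _ _ _
  have hk' := hk
  rw [h1] at hk'
  obtain ⟨h3, h4⟩ := (blk_ker _ _ _ hs2 _).1 hk'
  rw [blkM, ← hD, ← h3, ← h4]
  exact h1

open Classical in
/-- The bijection. Let `P = (p, y)`, `p u` and `y v` in `K^I`, be fixed.
PROOF: a matrix `M` with pattern `blk S Z` has blocks `M_II` (symmetric), `M_IU`, `M_IL` (entry `(i,v)` zero for
`i ∈ S v`), `M_UU`, `M_LL` (diagonal), `M_UL` (zero outside `Z`). The equation `M * fromRows 1 P = 0` says, row by
row (vectors in `K^I`):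
row `u`: `M_(u,·) + M_uu p_u + ∑_(v, Z u v) M_uv y_v = 0`, this determines the block `M_UI`;
row `v`: `M_(v,·) + M_vv y_v + ∑_(u, Z u v) M_uv p_u = 0`, this determines the entries `M_(v,i)`, `i ∉ S v`, and
for `i ∈ S v` it is the condition `(M_vv y_v + ∑_u M_uv p_u) i = 0`;
row `i`: `M_(i,·) + ∑_u M_iu p_u + ∑_v M_iv y_v = 0`, this determines the block `M_II`, and the result is symmetric:
`M_II = ∑_u M_uu p_u p_uᵀ + ∑_v M_vv y_v y_vᵀ + ∑_(u,v) M_uv (p_u y_vᵀ + y_v p_uᵀ)`.
So `M` is determined by the diagonal entries `M_uu` (arbitrary) and, for every `v`, by the numbers `M_vv` and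
`M_uv` (`Z u v`) with the condition. -/
theorem blk_card {K : Type} [Field K] [Finite K] (S : L → Set I) (Z : U → L → Prop) (p : U → I → K)
    (y : L → I → K) :
    Nat.card {M : Matrix (I ⊕ U ⊕ L) (I ⊕ U ⊕ L) K // Pat (blk S Z) M ∧
        M * Matrix.fromRows (1 : Matrix I I K) (fun w i => Sum.elim p y w i) = 0} =
      Nat.card K ^ Fintype.card U *
        ∏ v, Nat.card {m : K × ({u // Z u v} → K) //
          ∀ i ∈ S v, m.1 * y v i + ∑ u, m.2 u * p u.1 i = 0} := by
  have hprod : Nat.card ((U → K) × ∀ v, {m : K × ({u // Z u v} → K) //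
      ∀ i ∈ S v, m.1 * y v i + ∑ u, m.2 u * p u.1 i = 0}) = Nat.card K ^ Fintype.card U *
        ∏ v, Nat.card {m : K × ({u // Z u v} → K) //
          ∀ i ∈ S v, m.1 * y v i + ∑ u, m.2 u * p u.1 i = 0} := by
    rw [Nat.card_prod, Nat.card_fun, Nat.card_eq_fintype_card (α := U), Nat.card_pi]
  rw [← hprod]
  refine Nat.card_congr ⟨fun M => (fun u => M.1 (Sum.inr (Sum.inl u)) (Sum.inr (Sum.inl u)),
    fun v => ⟨datM Z M.1 v, ?_⟩), fun x => ⟨blkM Z p y x.1 fun v => (x.2 v).1,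
      blkM_pat S Z p y x.1 _ fun v => (x.2 v).2, blkM_ker Z p y x.1 _⟩, ?_, ?_⟩
  · intro i hi
    have h1 := eq_blkM S Z p y M.1 M.2.1 M.2.2
    have h2 : M.1 (Sum.inr (Sum.inr v)) (Sum.inl i) = 0 := by
      refine M.2.1.2 _ _ (by simp) ?_
      rw [blk, SimpleGraph.fromRel_adj]
      rintro ⟨_, h1 | h1⟩
      · exact h1
      · exact h1 hi
    rw [h1] at h2
    have h3 : -((blkD Z (fun u => M.1 (Sum.inr (Sum.inl u)) (Sum.inr (Sum.inl u))) (datM Z M.1) *
      blkP p y) (Sum.inr v) i) = 0 := h2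
    rw [blkD_mul, neg_eq_zero] at h3
    exact h3
  · intro M
    apply Subtype.ext
    exact (eq_blkM S Z p y M.1 M.2.1 M.2.2).symm
  · rintro ⟨a, m⟩
    refine Prod.ext ?_ ?_
    · funext u
      show (if u = u then a u else 0) = a u
      rw [if_pos rfl]
    · funext v
      apply Subtype.ext
      refine Prod.ext ?_ ?_
      · show (if v = v then (m v).1.1 else 0) = (m v).1.1
        rw [if_pos rfl]
      · funext u
        show (if h : Z u.1 v then (m v).1.2 ⟨u.1, h⟩ else 0) = (m v).1.2 u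
        rw [dif_pos u.2]

private theorem card_zrel (Z : U → L → Prop) :
    ∑ v, Nat.card {u // Z u v} = {x : U × L | Z x.1 x.2}.ncard := by
  classical
  rw [← Nat.card_coe_set_eq, ← Nat.card_sigma]
  exact Nat.card_congr ⟨fun x => ⟨(x.2.1, x.1), x.2.2⟩, fun x => ⟨x.1.2, ⟨x.1.1, x.2⟩⟩, fun _ => rfl,
    fun _ => rfl⟩

/-- PROOF: sum `blk_card` over `P = (p, y)`, and use `rel_vec` for every `v`; the exponents are
`∑ card (S v)` on the left and `card U + card L + card Z` on the right (`∑_v card {u // Z u v}` is the number of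
pairs `(u, v)` with `Z u v`). The sum over `(p, y)` of the products over `v` of the numbers of `w` is
`ic0 S Z`. -/
theorem Q_blk (S : L → Set I) (Z : U → L → Prop) (F : FinField) :
    F.q ^ (∑ v, (S v).ncard) * Qc (blk S Z) F =
      F.q ^ (Fintype.card U + Fintype.card L + {x : U × L | Z x.1 x.2}.ncard) * ic0 S Z F := by
  classical
  have : Fintype F.K := Fintype.ofFinite _
  have hQ : Nat.card {x : Matrix (I ⊕ U ⊕ L) (I ⊕ U ⊕ L) F.K × Matrix (U ⊕ L) I F.K //
      Pat (blk S Z) x.1 ∧ x.1 * Matrix.fromRows (1 : Matrix I I F.K) x.2 = 0} =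
      ∑ z : (U → I → F.K) × (L → I → F.K), Nat.card F.K ^ Fintype.card U *
        ∏ v, Nat.card {m : F.K × ({u // Z u v} → F.K) //
          ∀ i ∈ S v, m.1 * z.2 v i + ∑ u, m.2 u * z.1 u.1 i = 0} := by
    rw [← Finset.sum_congr rfl fun z _ => blk_card S Z z.1 z.2, ← Nat.card_sigma]
    refine Nat.card_congr ⟨fun x => ⟨(fun u => x.1.2 (Sum.inl u), fun v => x.1.2 (Sum.inr v)),
      ⟨x.1.1, x.2.1, ?_⟩⟩, fun x => ⟨(x.2.1, fun w i => Sum.elim x.1.1 x.1.2 w i), x.2.2⟩, ?_, ?_⟩
    · have h1 : (fun w i => Sum.elim (fun u => x.1.2 (Sum.inl u)) (fun v => x.1.2 (Sum.inr v)) w i :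
          Matrix (U ⊕ L) I F.K) = x.1.2 := by
        funext w i
        rcases w with u | v <;> rfl
      rw [h1]
      exact x.2.2
    · intro x
      apply Subtype.ext
      refine Prod.ext rfl ?_
      funext w i
      rcases w with u | v <;> rfl
    · rintro ⟨⟨p, y⟩, M⟩
      rfl
  have hI : Nat.card {x : (U → I → F.K) × (L → I → F.K) × (L → I → F.K) //
      ∀ v, (∀ i, i ∉ S v → x.2.1 v i = 0) ∧ x.2.1 v ⬝ᵥ x.2.2 v = 0 ∧
        ∀ u, Z u v → x.2.1 v ⬝ᵥ x.1 u = 0} =
      ∑ z : (U → I → F.K) × (L → I → F.K), ∏ v, Nat.card {w : I → F.K //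
        (∀ i, i ∉ S v → w i = 0) ∧ w ⬝ᵥ z.2 v = 0 ∧ ∀ u : {u // Z u v}, w ⬝ᵥ z.1 u.1 = 0} := by
    rw [← Finset.sum_congr rfl fun z _ => Nat.card_pi, ← Nat.card_sigma]
    exact Nat.card_congr ⟨fun x => ⟨(x.1.1, x.1.2.2), fun v => ⟨x.1.2.1 v, (x.2 v).1, (x.2 v).2.1,
      fun u => (x.2 v).2.2 u.1 u.2⟩⟩, fun x => ⟨(x.1.1, (fun v => (x.2 v).1), x.1.2),
        fun v => ⟨(x.2 v).2.1, (x.2 v).2.2.1, fun u hu => (x.2 v).2.2.2 ⟨u, hu⟩⟩⟩,
        fun _ => rfl, fun _ => rfl⟩
  have hmain : Nat.card F.K ^ (∑ v, (S v).ncard) *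
      Nat.card {x : Matrix (I ⊕ U ⊕ L) (I ⊕ U ⊕ L) F.K × Matrix (U ⊕ L) I F.K //
      Pat (blk S Z) x.1 ∧ x.1 * Matrix.fromRows (1 : Matrix I I F.K) x.2 = 0} =
      Nat.card F.K ^ (Fintype.card U + Fintype.card L + {x : U × L | Z x.1 x.2}.ncard) *
      Nat.card {x : (U → I → F.K) × (L → I → F.K) × (L → I → F.K) //
      ∀ v, (∀ i, i ∉ S v → x.2.1 v i = 0) ∧ x.2.1 v ⬝ᵥ x.2.2 v = 0 ∧
        ∀ u, Z u v → x.2.1 v ⬝ᵥ x.1 u = 0} := by
    rw [hQ, hI, Finset.mul_sum, Finset.mul_sum]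
    refine Finset.sum_congr rfl fun z _ => ?_
    have h1 : ∏ v, (Nat.card {m : F.K × ({u // Z u v} → F.K) //
          ∀ i ∈ S v, m.1 * z.2 v i + ∑ u, m.2 u * z.1 u.1 i = 0} * Nat.card F.K ^ (S v).ncard) =
        ∏ v, (Nat.card {w : I → F.K // (∀ i, i ∉ S v → w i = 0) ∧ w ⬝ᵥ z.2 v = 0 ∧
          ∀ u : {u // Z u v}, w ⬝ᵥ z.1 u.1 = 0} * Nat.card F.K ^ (Fintype.card {u // Z u v} + 1)) :=
      Finset.prod_congr rfl fun v _ => rel_vec (S v) (z.2 v) fun u : {u // Z u v} => z.1 u.1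
    rw [Finset.prod_mul_distrib, Finset.prod_mul_distrib, Finset.prod_pow_eq_pow_sum,
      Finset.prod_pow_eq_pow_sum, Finset.sum_add_distrib] at h1
    have h2 : ∑ v, Fintype.card {u // Z u v} = {x : U × L | Z x.1 x.2}.ncard := by
      rw [← card_zrel Z]
      exact Finset.sum_congr rfl fun v _ => (Nat.card_eq_fintype_card).symm
    have h3 : ∑ _v : L, 1 = Fintype.card L := by simp
    rw [h2, h3] at h1
    rw [← mul_assoc, mul_comm (Nat.card F.K ^ ∑ v, (S v).ncard) (Nat.card F.K ^ Fintype.card U), mul_assoc,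
      mul_comm (Nat.card F.K ^ ∑ v, (S v).ncard), h1]
    ring
  unfold FinField.q Qc ic0
  exact_mod_cast hmain

end Pool.Agent.KGU
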