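import Pool.Agent.KGU.UGad

/-! # Gadget systems: the total count -/

set_option autoImplicit false

open scoped BigOperators Matrix

namespace Pool.Agent.KGU

open Pool.Agent.KG

variable {V J K : Type} [Fintype V] [Fintype J] [Field K]

/-- restriction to the six coordinates of `j` -/
private def gt_rs (j : J) (a : GI V J → K) : Fin 6 → K := fun k => a (Sum.inr (j, k))

/-- zero outside the six coordinates of `j` -/
private def gt_Sup (j : J) (a : GI V J → K) : Prop :=
  ∀ i : GI V J, (∀ k, i ≠ Sum.inr (j, k)) → a i = 0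

open Classical in
/-- extension by zero -/
private noncomputable def gt_ext (j : J) (a : Fin 6 → K) : GI V J → K :=
  Sum.elim (fun _ => 0) (fun y => if y.1 = j then a y.2 else 0)

private theorem gt_rs_ext (j : J) (a : Fin 6 → K) : gt_rs j (gt_ext (V := V) j a) = a := by
  classical
  funext k
  show (if j = j then a k else 0) = a k
  rw [if_pos rfl]

private theorem gt_Sup_ext (j : J) (a : Fin 6 → K) : gt_Sup j (gt_ext (V := V) j a) := by
  classical
  intro i hi
  rcases i with i | ⟨j', k⟩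
  · rfl
  · show (if j' = j then a k else 0) = 0
    rw [if_neg]
    intro h
    exact hi k (by rw [h])

private theorem gt_ext_rs {j : J} {a : GI V J → K} (h : gt_Sup j a) : gt_ext j (gt_rs j a) = a := by
  classical
  funext i
  rcases i with i | ⟨j', k⟩
  · exact (h _ (fun k => by simp)).symm
  · show (if j' = j then a (Sum.inr (j, k)) else 0) = a (Sum.inr (j', k))
    by_cases hj : j' = j
    · rw [if_pos hj, hj]
    · rw [if_neg hj]
      refine (h _ (fun k' hk => hj ?_)).symm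
      have := Sum.inr_injective hk
      exact congrArg Prod.fst this

private theorem gt_dot {j : J} {a : GI V J → K} (h : gt_Sup j a) (b : GI V J → K) :
    a ⬝ᵥ b = gt_rs j a ⬝ᵥ gt_rs j b := by
  classical
  unfold dotProduct
  rw [Fintype.sum_sum_type, Fintype.sum_prod_type]
  rw [Finset.sum_eq_zero (fun i _ => by rw [h _ (fun k => by simp), zero_mul]), zero_add]
  rw [Finset.sum_eq_single j]
  · rfl
  · intro j' _ hj
    refine Finset.sum_eq_zero (fun k _ => ?_)
    rw [h _ (fun k' hk => hj (congrArg Prod.fst (Sum.inr_injective hk))), zero_mul]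
  · intro h'
    exact absurd (Finset.mem_univ j) h'

private theorem gt_ne {j : J} {a : GI V J → K} (h : gt_Sup j a) : a ≠ 0 ↔ gt_rs j a ≠ 0 := by
  classical
  constructor
  · intro ha h0
    apply ha
    rw [← gt_ext_rs h, h0]
    funext i
    rcases i with i | ⟨j', k⟩
    · rfl
    · show (if j' = j then (0 : K) else 0) = 0
      rw [ite_self]
  · intro ha h0
    apply ha
    rw [h0]
    rfl

/-- six vectors -/
private abbrev gt_T (X : Type) : Type := X × X × X × X × X × X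

/-- the local condition -/
private def gt_loc (p : Fin 6 → K) (x : gt_T (Fin 6 → K)) : Prop :=
      (x.1 3 = 0 ∧ x.1 4 = 0 ∧ x.1 0 = x.1 2 ∧ x.1 1 = x.1 5 ∧ x.1 0 ≠ 0) ∧
      (x.2.1 0 = 0 ∧ x.2.1 1 = 0 ∧ x.2.1 2 = 0 ∧ x.2.1 4 = 0 ∧ x.2.1 3 = x.2.1 5 ∧ x.2.1 3 ≠ 0) ∧
      (x.2.2.1 0 = 0 ∧ x.2.2.1 1 = 0 ∧ x.2.2.1 2 = 0 ∧ x.2.2.1 3 = 0 ∧ x.2.2.1 4 = x.2.2.1 5 ∧
        x.2.2.1 4 ≠ 0) ∧
      (x.2.2.2.1 ≠ 0 ∧ (∀ i, i ≠ 0 → i ≠ 1 → x.2.2.2.1 i = 0) ∧ x.2.2.2.1 ⬝ᵥ p = 0 ∧
        x.2.2.2.1 ⬝ᵥ x.1 = 0) ∧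
      (x.2.2.2.2.1 ≠ 0 ∧ (∀ i, i ≠ 2 → i ≠ 5 → x.2.2.2.2.1 i = 0) ∧ x.2.2.2.2.1 ⬝ᵥ p = 0 ∧
        x.2.2.2.2.1 ⬝ᵥ x.1 = 0) ∧
      (x.2.2.2.2.2 ≠ 0 ∧ (∀ i, i ≠ 3 → i ≠ 4 → i ≠ 5 → x.2.2.2.2.2 i = 0) ∧ x.2.2.2.2.2 ⬝ᵥ p = 0 ∧
        x.2.2.2.2.2 ⬝ᵥ x.2.1 = 0 ∧ x.2.2.2.2.2 ⬝ᵥ x.2.2.1 = 0)

/-- the condition on the six vectors on `GI V J` -/
private def gt_big (j : J) (p : GI V J → K) (x : gt_T (GI V J → K)) : Prop :=
  (gt_Sup j x.1 ∧ gt_Sup j x.2.1 ∧ gt_Sup j x.2.2.1 ∧ gt_Sup j x.2.2.2.1 ∧ gt_Sup j x.2.2.2.2.1 ∧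
    gt_Sup j x.2.2.2.2.2) ∧
  gt_loc (gt_rs j p) (gt_rs j x.1, gt_rs j x.2.1, gt_rs j x.2.2.1, gt_rs j x.2.2.2.1,
    gt_rs j x.2.2.2.2.1, gt_rs j x.2.2.2.2.2)

private theorem gt_card_big (j : J) (p : GI V J → K) :
    Nat.card {x : gt_T (GI V J → K) // gt_big j p x} =
      Nat.card {x : gt_T (Fin 6 → K) // gt_loc (gt_rs j p) x} := by
  refine Nat.card_congr
    { toFun := fun x => ⟨(gt_rs j x.1.1, gt_rs j x.1.2.1, gt_rs j x.1.2.2.1, gt_rs j x.1.2.2.2.1,
        gt_rs j x.1.2.2.2.2.1, gt_rs j x.1.2.2.2.2.2), x.2.2⟩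
      invFun := fun x => ⟨(gt_ext j x.1.1, gt_ext j x.1.2.1, gt_ext j x.1.2.2.1,
        gt_ext j x.1.2.2.2.1, gt_ext j x.1.2.2.2.2.1, gt_ext j x.1.2.2.2.2.2),
        ⟨gt_Sup_ext _ _, gt_Sup_ext _ _, gt_Sup_ext _ _, gt_Sup_ext _ _, gt_Sup_ext _ _,
          gt_Sup_ext _ _⟩, ?_⟩
      left_inv := ?_
      right_inv := ?_ }
  · simp only [gt_rs_ext]
    exact x.2
  · rintro ⟨⟨a, b, c, d, e, f⟩, ⟨h1, h2, h3, h4, h5, h6⟩, h⟩
    apply Subtype.ext
    simp only at h1 h2 h3 h4 h5 h6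
    simp only [gt_ext_rs h1, gt_ext_rs h2, gt_ext_rs h3, gt_ext_rs h4, gt_ext_rs h5, gt_ext_rs h6]
  · rintro ⟨⟨a, b, c, d, e, f⟩, h⟩
    apply Subtype.ext
    simp only [gt_rs_ext]

/-- the six vectors of `j` in a configuration -/
private def gt_six (x : (Option (J × Fin 3) → GI V J → K) × (J × Fin 3 → GI V J → K)) (j : J) :
    gt_T (GI V J → K) :=
  (x.1 (some (j, 0)), x.1 (some (j, 1)), x.1 (some (j, 2)), x.2 (j, 0), x.2 (j, 1), x.2 (j, 2))

private theorem gt_config (G : HGC.Gadget V J)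
    (x : (Option (J × Fin 3) → GI V J → K) × (J × Fin 3 → GI V J → K)) :
    ((∀ v, x.2 v ≠ 0 ∧ (∀ i, i ∉ (gx G).S v → x.2 v i = 0) ∧ ∀ u, (gx G).Z u v → x.2 v ⬝ᵥ x.1 u = 0) ∧
    (∀ r, x.1 ((gx G).ru r) ((gx G).ra r) = x.1 ((gx G).ru r) ((gx G).rb r)) ∧
    (∀ u i, (gx G).Ze u i → x.1 u i = 0) ∧ ∀ u i, (gx G).Nz u i → x.1 u i ≠ 0) ↔
    (x.1 none (Sum.inl G.o) ≠ 0 ∧
      ∀ j k, x.1 none (Sum.inl (gv G j k)) = x.1 none (Sum.inr (j, k.castSucc))) ∧
    ∀ j, gt_big j (x.1 none) (gt_six x j) := by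
  constructor
  · rintro ⟨h1, h2, h3, h4⟩
    refine ⟨⟨h4 none _ rfl, fun j k => h2 (j, Sum.inl k)⟩, fun j => ?_⟩
    have s1 : gt_Sup j (x.1 (some (j, 0))) := fun i hi => h3 (some (j, 0)) i
      ⟨hi 0, hi 1, hi 2, hi 5⟩
    have s2 : gt_Sup j (x.1 (some (j, 1))) := fun i hi => h3 (some (j, 1)) i ⟨hi 3, hi 5⟩
    have s3 : gt_Sup j (x.1 (some (j, 2))) := fun i hi => h3 (some (j, 2)) i ⟨hi 4, hi 5⟩
    have s4 : gt_Sup j (x.2 (j, 0)) := fun i hi => (h1 (j, 0)).2.1 i (by
      show i ∉ ({Sum.inr (j, 0), Sum.inr (j, 1)} : Set (GI V J))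
      simp only [Set.mem_insert_iff, Set.mem_singleton_iff, not_or]
      exact ⟨hi 0, hi 1⟩)
    have s5 : gt_Sup j (x.2 (j, 1)) := fun i hi => (h1 (j, 1)).2.1 i (by
      show i ∉ ({Sum.inr (j, 2), Sum.inr (j, 5)} : Set (GI V J))
      simp only [Set.mem_insert_iff, Set.mem_singleton_iff, not_or]
      exact ⟨hi 2, hi 5⟩)
    have s6 : gt_Sup j (x.2 (j, 2)) := fun i hi => (h1 (j, 2)).2.1 i (by
      show i ∉ ({Sum.inr (j, 3), Sum.inr (j, 4), Sum.inr (j, 5)} : Set (GI V J))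
      simp only [Set.mem_insert_iff, Set.mem_singleton_iff, not_or]
      exact ⟨hi 3, hi 4, hi 5⟩)
    have hinj : ∀ k k' : Fin 6, k ≠ k' → (Sum.inr (j, k) : GI V J) ≠ Sum.inr (j, k') := by
      intro k k' hk h
      exact hk (congrArg Prod.snd (Sum.inr_injective h))
    refine ⟨⟨s1, s2, s3, s4, s5, s6⟩, ⟨?_, ?_, ?_, ?_, ?_⟩, ⟨?_, ?_, ?_, ?_, ?_, ?_⟩,
      ⟨?_, ?_, ?_, ?_, ?_, ?_⟩, ⟨?_, ?_, ?_, ?_⟩, ⟨?_, ?_, ?_, ?_⟩, ⟨?_, ?_, ?_, ?_, ?_⟩⟩
    · exact h3 (some (j, 0)) _ ⟨hinj _ _ (by decide), hinj _ _ (by decide), hinj _ _ (by decide),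
        hinj _ _ (by decide)⟩
    · exact h3 (some (j, 0)) _ ⟨hinj _ _ (by decide), hinj _ _ (by decide), hinj _ _ (by decide),
        hinj _ _ (by decide)⟩
    · exact h2 (j, Sum.inr 0)
    · exact h2 (j, Sum.inr 1)
    · exact h4 (some (j, 0)) _ rfl
    · exact h3 (some (j, 1)) _ ⟨hinj _ _ (by decide), hinj _ _ (by decide)⟩
    · exact h3 (some (j, 1)) _ ⟨hinj _ _ (by decide), hinj _ _ (by decide)⟩
    · exact h3 (some (j, 1)) _ ⟨hinj _ _ (by decide), hinj _ _ (by decide)⟩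
    · exact h3 (some (j, 1)) _ ⟨hinj _ _ (by decide), hinj _ _ (by decide)⟩
    · exact h2 (j, Sum.inr 2)
    · exact h4 (some (j, 1)) _ rfl
    · exact h3 (some (j, 2)) _ ⟨hinj _ _ (by decide), hinj _ _ (by decide)⟩
    · exact h3 (some (j, 2)) _ ⟨hinj _ _ (by decide), hinj _ _ (by decide)⟩
    · exact h3 (some (j, 2)) _ ⟨hinj _ _ (by decide), hinj _ _ (by decide)⟩
    · exact h3 (some (j, 2)) _ ⟨hinj _ _ (by decide), hinj _ _ (by decide)⟩
    · exact h2 (j, Sum.inr 3)
    · exact h4 (some (j, 2)) _ rfl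
    · exact (gt_ne s4).1 (h1 (j, 0)).1
    · intro k k0 k1
      refine (h1 (j, 0)).2.1 (Sum.inr (j, k)) ?_
      show (Sum.inr (j, k) : GI V J) ∉ ({Sum.inr (j, 0), Sum.inr (j, 1)} : Set (GI V J))
      simp only [Set.mem_insert_iff, Set.mem_singleton_iff, not_or]
      exact ⟨hinj _ _ k0, hinj _ _ k1⟩
    · exact (gt_dot s4 _).symm.trans ((h1 (j, 0)).2.2 none trivial)
    · exact (gt_dot s4 _).symm.trans ((h1 (j, 0)).2.2 (some (j, 0)) rfl)
    · exact (gt_ne s5).1 (h1 (j, 1)).1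
    · intro k k0 k1
      refine (h1 (j, 1)).2.1 (Sum.inr (j, k)) ?_
      show (Sum.inr (j, k) : GI V J) ∉ ({Sum.inr (j, 2), Sum.inr (j, 5)} : Set (GI V J))
      simp only [Set.mem_insert_iff, Set.mem_singleton_iff, not_or]
      exact ⟨hinj _ _ k0, hinj _ _ k1⟩
    · exact (gt_dot s5 _).symm.trans ((h1 (j, 1)).2.2 none trivial)
    · exact (gt_dot s5 _).symm.trans ((h1 (j, 1)).2.2 (some (j, 0)) rfl)
    · exact (gt_ne s6).1 (h1 (j, 2)).1
    · intro k k0 k1 k2
      refine (h1 (j, 2)).2.1 (Sum.inr (j, k)) ?_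
      show (Sum.inr (j, k) : GI V J) ∉
        ({Sum.inr (j, 3), Sum.inr (j, 4), Sum.inr (j, 5)} : Set (GI V J))
      simp only [Set.mem_insert_iff, Set.mem_singleton_iff, not_or]
      exact ⟨hinj _ _ k0, hinj _ _ k1, hinj _ _ k2⟩
    · exact (gt_dot s6 _).symm.trans ((h1 (j, 2)).2.2 none trivial)
    · exact (gt_dot s6 _).symm.trans ((h1 (j, 2)).2.2 (some (j, 1)) rfl)
    · exact (gt_dot s6 _).symm.trans ((h1 (j, 2)).2.2 (some (j, 2)) rfl)
  · rintro ⟨⟨ho, he⟩, h⟩
    have hcase : ∀ (j : J) (a : GI V J → K) (i : GI V J), gt_Sup j a →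
        (∀ k, i = Sum.inr (j, k) → gt_rs j a k = 0) → a i = 0 := by
      intro j a i ha h0
      by_cases hi : ∃ k, i = Sum.inr (j, k)
      · obtain ⟨k, hk⟩ := hi
        have := h0 k hk
        rw [hk]
        exact this
      · push Not at hi
        exact ha i hi
    refine ⟨?_, ?_, ?_, ?_⟩
    · rintro ⟨j, k⟩
      obtain ⟨⟨s1, s2, s3, s4, s5, s6⟩, l1, l2, l3, l4, l5, l6⟩ := h j
      dsimp only [gt_six] at s1 s2 s3 s4 s5 s6 l1 l2 l3 l4 l5 l6
      fin_cases k
      · refine ⟨(gt_ne s4).2 l4.1, ?_, ?_⟩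
        · intro i hi
          have hi' : i ∉ ({Sum.inr (j, 0), Sum.inr (j, 1)} : Set (GI V J)) := hi
          simp only [Set.mem_insert_iff, Set.mem_singleton_iff, not_or] at hi'
          refine hcase j _ i s4 (fun k hk => l4.2.1 k ?_ ?_)
          · intro h0; exact hi'.1 (by rw [hk, h0])
          · intro h0; exact hi'.2 (by rw [hk, h0])
        · rintro (_ | ⟨j', k'⟩) hu
          · show x.2 (j, 0) ⬝ᵥ x.1 none = 0
            rw [gt_dot s4]
            exact l4.2.2.1
          · fin_cases k'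
            · have hj : j' = j := hu
              subst hj
              show x.2 (j', 0) ⬝ᵥ x.1 (some (j', 0)) = 0
              rw [gt_dot s4]
              exact l4.2.2.2
            · exact False.elim hu
            · exact False.elim hu
      · refine ⟨(gt_ne s5).2 l5.1, ?_, ?_⟩
        · intro i hi
          have hi' : i ∉ ({Sum.inr (j, 2), Sum.inr (j, 5)} : Set (GI V J)) := hi
          simp only [Set.mem_insert_iff, Set.mem_singleton_iff, not_or] at hi'
          refine hcase j _ i s5 (fun k hk => l5.2.1 k ?_ ?_)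
          · intro h0; exact hi'.1 (by rw [hk, h0])
          · intro h0; exact hi'.2 (by rw [hk, h0])
        · rintro (_ | ⟨j', k'⟩) hu
          · show x.2 (j, 1) ⬝ᵥ x.1 none = 0
            rw [gt_dot s5]
            exact l5.2.2.1
          · fin_cases k'
            · have hj : j' = j := hu
              subst hj
              show x.2 (j', 1) ⬝ᵥ x.1 (some (j', 0)) = 0
              rw [gt_dot s5]
              exact l5.2.2.2
            · exact False.elim hu
            · exact False.elim hu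
      · refine ⟨(gt_ne s6).2 l6.1, ?_, ?_⟩
        · intro i hi
          have hi' : i ∉ ({Sum.inr (j, 3), Sum.inr (j, 4), Sum.inr (j, 5)} : Set (GI V J)) := hi
          simp only [Set.mem_insert_iff, Set.mem_singleton_iff, not_or] at hi'
          refine hcase j _ i s6 (fun k hk => l6.2.1 k ?_ ?_ ?_)
          · intro h0; exact hi'.1 (by rw [hk, h0])
          · intro h0; exact hi'.2.1 (by rw [hk, h0])
          · intro h0; exact hi'.2.2 (by rw [hk, h0])
        · rintro (_ | ⟨j', k'⟩) hu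
          · show x.2 (j, 2) ⬝ᵥ x.1 none = 0
            rw [gt_dot s6]
            exact l6.2.2.1
          · fin_cases k'
            · exact False.elim hu
            · have hj : j' = j := hu
              subst hj
              show x.2 (j', 2) ⬝ᵥ x.1 (some (j', 1)) = 0
              rw [gt_dot s6]
              exact l6.2.2.2.1
            · have hj : j' = j := hu
              subst hj
              show x.2 (j', 2) ⬝ᵥ x.1 (some (j', 2)) = 0
              rw [gt_dot s6]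
              exact l6.2.2.2.2
    · rintro ⟨j, k | k⟩
      · exact he j k
      · obtain ⟨⟨s1, s2, s3, s4, s5, s6⟩, l1, l2, l3, l4, l5, l6⟩ := h j
        fin_cases k
        · exact l1.2.2.1
        · exact l1.2.2.2.1
        · exact l2.2.2.2.2.1
        · exact l3.2.2.2.2.1
    · rintro (_ | ⟨j, k⟩) i hi
      · exact False.elim hi
      · obtain ⟨⟨s1, s2, s3, s4, s5, s6⟩, l1, l2, l3, l4, l5, l6⟩ := h j
        fin_cases k
        · obtain ⟨i0, i1, i2, i5⟩ : i ≠ Sum.inr (j, 0) ∧ i ≠ Sum.inr (j, 1) ∧ i ≠ Sum.inr (j, 2) ∧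
            i ≠ Sum.inr (j, 5) := hi
          refine hcase j _ i s1 (fun k hk => ?_)
          fin_cases k
          · exact absurd hk i0
          · exact absurd hk i1
          · exact absurd hk i2
          · exact l1.1
          · exact l1.2.1
          · exact absurd hk i5
        · obtain ⟨i3, i5⟩ : i ≠ Sum.inr (j, 3) ∧ i ≠ Sum.inr (j, 5) := hi
          refine hcase j _ i s2 (fun k hk => ?_)
          fin_cases k
          · exact l2.1
          · exact l2.2.1
          · exact l2.2.2.1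
          · exact absurd hk i3
          · exact l2.2.2.2.1
          · exact absurd hk i5
        · obtain ⟨i4, i5⟩ : i ≠ Sum.inr (j, 4) ∧ i ≠ Sum.inr (j, 5) := hi
          refine hcase j _ i s3 (fun k hk => ?_)
          fin_cases k
          · exact l3.1
          · exact l3.2.1
          · exact l3.2.2.1
          · exact l3.2.2.2.1
          · exact absurd hk i4
          · exact absurd hk i5
    · rintro (_ | ⟨j, k⟩) i hi
      · have hi' : i = Sum.inl G.o := hi
        rw [hi']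
        exact ho
      · obtain ⟨⟨s1, s2, s3, s4, s5, s6⟩, l1, l2, l3, l4, l5, l6⟩ := h j
        fin_cases k
        · have hi' : i = Sum.inr (j, 0) := hi
          rw [hi']
          exact l1.2.2.2.2
        · have hi' : i = Sum.inr (j, 3) := hi
          rw [hi']
          exact l2.2.2.2.2.2
        · have hi' : i = Sum.inr (j, 4) := hi
          rw [hi']
          exact l3.2.2.2.2.2

/-- a main point -/
private def gt_P (G : HGC.Gadget V J) (p : GI V J → K) : Prop :=
  p (Sum.inl G.o) ≠ 0 ∧ ∀ j k, p (Sum.inl (gv G j k)) = p (Sum.inr (j, k.castSucc))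

/-- the configurations as a dependent sum -/
private def gt_equiv (G : HGC.Gadget V J) :
    {x : (Option (J × Fin 3) → GI V J → K) × (J × Fin 3 → GI V J → K) //
      gt_P G (x.1 none) ∧ ∀ j, gt_big j (x.1 none) (gt_six x j)} ≃
    Σ p : {p : GI V J → K // gt_P G p}, ∀ j : J, {y : gt_T (GI V J → K) // gt_big j p.1 y} where
  toFun x := ⟨⟨x.1.1 none, x.2.1⟩, fun j => ⟨gt_six x.1 j, x.2.2 j⟩⟩
  invFun z := ⟨(fun o => match o with
      | none => z.1.1
      | some (j, 0) => (z.2 j).1.1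
      | some (j, 1) => (z.2 j).1.2.1
      | some (j, 2) => (z.2 j).1.2.2.1,
    fun v => match v with
      | (j, 0) => (z.2 j).1.2.2.2.1
      | (j, 1) => (z.2 j).1.2.2.2.2.1
      | (j, 2) => (z.2 j).1.2.2.2.2.2), z.1.2, fun j => (z.2 j).2⟩
  left_inv := by
    rintro ⟨⟨x, w⟩, h⟩
    apply Subtype.ext
    apply Prod.ext
    · funext o
      rcases o with _ | ⟨j, k⟩
      · rfl
      · fin_cases k <;> rfl
    · funext v
      rcases v with ⟨j, k⟩
      fin_cases k <;> rfl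
  right_inv := by
    rintro ⟨p, y⟩
    rfl

/-- PROOF: a configuration counted by `(gx G).count` consists of the main point `p = x none`, and, for every `j`, of
the points `r = x (some (j,0))`, `f = x (some (j,1))`, `g = x (some (j,2))` and the functionals `u = w (j,0)`,
`w (j,1)`, `t = w (j,2)`. The conditions on `p` alone are `p (inl o) ≠ 0` and the equalities of the coordinates at a
variable and at its copies; in particular the coordinate `p0` at the copy `(j,0)` of `o` is not zero. For given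
`p` the conditions on the objects attached to different `j` are independent, these objects are zero at all the
coordinates outside the copies `(j,0), ..., (j,5)`, and restricting them to these six coordinates gives exactly
the set counted in `gad_local`. So the number is the sum over `p` of the products over `j` of the numbers in
`gad_local`, i.e. `(q - 1)^(6 card J)` times the number of the `p` in `gad_main`. -/
theorem gad_total {V J : Type} [Fintype V] [Fintype J] (G : HGC.Gadget V J) (F : FinField) :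
    (gx G).count F = (F.q - 1) ^ (6 * Fintype.card J + 1) * (HGC.gadCount G F.K : ℤ) := by
  classical
  haveI := Fintype.ofFinite F.K
  have hq : F.q = (Nat.card F.K : ℤ) := rfl
  have hm := gad_main G F.K
  have h1 : (gx G).count F =
      (Nat.card {x : (Option (J × Fin 3) → GI V J → F.K) × (J × Fin 3 → GI V J → F.K) //
        gt_P G (x.1 none) ∧ ∀ j, gt_big j (x.1 none) (gt_six x j)} : ℤ) := by
    unfold XS.count
    congr 1
    exact Nat.card_congr (Equiv.subtypeEquivRight fun x => gt_config G x)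
  have hf0 : Finite (GI V J → F.K) := Pi.finite
  have hf1 : Finite (gt_T (GI V J → F.K)) := by
    unfold gt_T
    infer_instance
  have hf2 : ∀ p : {p : GI V J → F.K // gt_P G p},
      Finite ((j : J) → {y : gt_T (GI V J → F.K) // gt_big j p.1 y}) := fun p => Pi.finite
  rw [h1, Nat.card_congr (gt_equiv G), Nat.card_sigma]
  have h2 : ∀ p : {p : GI V J → F.K // gt_P G p},
      ((Nat.card (∀ j : J, {y : gt_T (GI V J → F.K) // gt_big j p.1 y}) : ℕ) : ℤ) =
      if (∀ j, p.1 (Sum.inr (j, 1)) * p.1 (Sum.inr (j, 2)) =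
          p.1 (Sum.inr (j, 0)) * p.1 (Sum.inr (j, 5)) ∧
          p.1 (Sum.inr (j, 3)) + p.1 (Sum.inr (j, 4)) = p.1 (Sum.inr (j, 5)))
        then (F.q - 1) ^ (6 * Fintype.card J) else 0 := by
    intro p
    rw [Nat.card_pi]
    push_cast
    have h3 : ∀ j : J, ((Nat.card {y : gt_T (GI V J → F.K) // gt_big j p.1 y} : ℕ) : ℤ) =
        if (p.1 (Sum.inr (j, 1)) * p.1 (Sum.inr (j, 2)) =
          p.1 (Sum.inr (j, 0)) * p.1 (Sum.inr (j, 5)) ∧
          p.1 (Sum.inr (j, 3)) + p.1 (Sum.inr (j, 4)) = p.1 (Sum.inr (j, 5)))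
        then (F.q - 1) ^ 6 else 0 := by
      intro j
      rw [gt_card_big]
      have h0 : gt_rs j p.1 0 ≠ 0 := by
        have h5 : p.1 (Sum.inl G.o) = p.1 (Sum.inr (j, 0)) := p.2.2 j 0
        have h6 := p.2.1
        rw [h5] at h6
        exact h6
      have h4 := gad_local (gt_rs j p.1) h0
      have h7 : (Nat.card {x : gt_T (Fin 6 → F.K) // gt_loc (gt_rs j p.1) x} : ℤ) = _ := h4
      rw [h7, hq]
      congr 1
    rw [Finset.prod_congr rfl (fun j _ => h3 j)]
    by_cases hall : ∀ j, p.1 (Sum.inr (j, 1)) * p.1 (Sum.inr (j, 2)) =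
          p.1 (Sum.inr (j, 0)) * p.1 (Sum.inr (j, 5)) ∧
          p.1 (Sum.inr (j, 3)) + p.1 (Sum.inr (j, 4)) = p.1 (Sum.inr (j, 5))
    · rw [if_pos hall, Finset.prod_congr rfl (fun j _ => if_pos (hall j)), Finset.prod_const,
        Finset.card_univ, ← pow_mul]
    · rw [if_neg hall]
      push Not at hall
      obtain ⟨j, hj⟩ := hall
      refine Finset.prod_eq_zero (Finset.mem_univ j) ?_
      rw [if_neg]
      rintro ⟨h8, h9⟩
      exact hj h8 h9
  push_cast
  rw [Finset.sum_congr rfl (fun p _ => h2 p), ← Finset.sum_filter, Finset.sum_const,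
    nsmul_eq_mul, pow_succ, mul_assoc, hq, ← hm, mul_comm]
  congr 1
  rw [← Fintype.card_subtype, ← Nat.card_eq_fintype_card]
  congr 1
  refine Nat.card_congr
    { toFun := fun p => ⟨p.1.1, p.1.2.1, p.1.2.2, p.2⟩
      invFun := fun p => ⟨⟨p.1, p.2.1, p.2.2.1⟩, p.2.2.2⟩
      left_inv := fun _ => rfl
      right_inv := fun _ => rfl }

end Pool.Agent.KGU
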