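import Pool.Agent.KGU.USp

/-! # Incidence systems: nonzero functionals and non-orthogonality -/

set_option autoImplicit false

open scoped BigOperators Matrix

namespace Pool.Agent.KGU

open Pool.Agent.KG

variable {I U L : Type} [Fintype I] [Fintype U] [Fintype L]

private theorem ICM_split {α : Type} [Finite α] (P Q : α → Prop) :
    Nat.card {x // P x} = Nat.card {x // P x ∧ Q x} + Nat.card {x // P x ∧ ¬ Q x} := by
  have h1 : ∀ R : α → Prop, Nat.card {x // R x} = {x | R x}.ncard := fun R =>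
    Nat.card_coe_set_eq {x | R x}
  rw [h1, h1, h1, ← Set.ncard_union_eq ?_ (Set.toFinite _) (Set.toFinite _)]
  · congr 1
    ext x
    simp only [Set.mem_ofPred_eq, Set.mem_union]
    tauto
  · rw [Set.disjoint_left]
    rintro x ⟨_, h⟩ ⟨_, h'⟩
    exact h' h

private theorem ICIE_dot {I K : Type} [Fintype I] [Field K] [Finite K] (w : I → K) (hw : w ≠ 0) :
    Nat.card K * Nat.card {z : I → K // w ⬝ᵥ z = 0} = Nat.card K ^ Fintype.card I := by
  classical
  obtain ⟨i0, hi0⟩ : ∃ i, w i ≠ 0 := by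
    by_contra hcon
    push Not at hcon
    exact hw (funext hcon)
  have hdot : ∀ c : K, w ⬝ᵥ (Pi.single i0 c) = w i0 * c := by
    intro c
    rw [dotProduct_single]
  let e : K × {z : I → K // w ⬝ᵥ z = 0} ≃ (I → K) :=
    { toFun := fun x => x.2.1 + Pi.single i0 (x.1 / w i0)
      invFun := fun z => (w ⬝ᵥ z, ⟨z - Pi.single i0 (w ⬝ᵥ z / w i0), by
        rw [dotProduct_sub, hdot, mul_div_cancel₀ _ hi0, sub_self]⟩)
      left_inv := by
        rintro ⟨c, z, hz⟩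
        have h1 : w ⬝ᵥ (z + Pi.single i0 (c / w i0)) = c := by
          rw [dotProduct_add, hz, hdot, mul_div_cancel₀ _ hi0, zero_add]
        refine Prod.ext h1 (Subtype.ext ?_)
        simp only [h1, add_sub_cancel_right]
      right_inv := by
        intro z
        simp }
  have h1 := Nat.card_congr e
  rw [Nat.card_prod, Nat.card_fun, Nat.card_eq_fintype_card (α := I)] at h1
  exact h1

open Classical in
private theorem ICIE_ic0 (S : L → Set I) (Z : U → L → Prop) (F : FinField)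
    [Fintype ((U → I → F.K) × (L → I → F.K))] :
    ic0 S Z F = ∑ y ∈ (Finset.univ : Finset ((U → I → F.K) × (L → I → F.K))).filter (fun y =>
      ∀ v, (∀ i, i ∉ S v → y.2 v i = 0) ∧ ∀ u, Z u v → y.2 v ⬝ᵥ y.1 u = 0),
        ∏ v, (Nat.card {z : I → F.K // y.2 v ⬝ᵥ z = 0} : ℤ) := by
  let e : {x : (U → I → F.K) × (L → I → F.K) × (L → I → F.K) //
      ∀ v, (∀ i, i ∉ S v → x.2.1 v i = 0) ∧ x.2.1 v ⬝ᵥ x.2.2 v = 0 ∧
        ∀ u, Z u v → x.2.1 v ⬝ᵥ x.1 u = 0} ≃
      (Σ y : {y : (U → I → F.K) × (L → I → F.K) // ∀ v, (∀ i, i ∉ S v → y.2 v i = 0) ∧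
        ∀ u, Z u v → y.2 v ⬝ᵥ y.1 u = 0}, ∀ v : L, {z : I → F.K // y.1.2 v ⬝ᵥ z = 0}) :=
    { toFun := fun x => ⟨⟨(x.1.1, x.1.2.1), fun v => ⟨(x.2 v).1, (x.2 v).2.2⟩⟩,
        fun v => ⟨x.1.2.2 v, (x.2 v).2.1⟩⟩
      invFun := fun y => ⟨(y.1.1.1, y.1.1.2, fun v => (y.2 v).1),
        fun v => ⟨(y.1.2 v).1, (y.2 v).2, (y.1.2 v).2⟩⟩
      left_inv := fun _ => rfl
      right_inv := fun _ => rfl }
  unfold ic0
  rw [Nat.card_congr e, Nat.card_sigma]
  push_cast
  have h1 := Finset.sum_subtype (p := fun y : (U → I → F.K) × (L → I → F.K) =>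
      ∀ v, (∀ i, i ∉ S v → y.2 v i = 0) ∧ ∀ u, Z u v → y.2 v ⬝ᵥ y.1 u = 0)
      (F := Subtype.fintype _)
      ((Finset.univ : Finset ((U → I → F.K) × (L → I → F.K))).filter (fun y =>
      ∀ v, (∀ i, i ∉ S v → y.2 v i = 0) ∧ ∀ u, Z u v → y.2 v ⬝ᵥ y.1 u = 0))
      (fun y => by rw [Finset.mem_filter]; exact ⟨fun h => h.2, fun h => ⟨Finset.mem_univ _, h⟩⟩)
      (fun y => ∏ v, (Nat.card {z : I → F.K // y.2 v ⬝ᵥ z = 0} : ℤ))
  rw [h1]
  refine Fintype.sum_congr _ _ fun y => ?_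
  rw [Nat.card_pi]
  push_cast
  rfl

open Classical in
/-- PROOF: for given `p` and `w` the number of the `p'` in `ic0` is the product over `v` of `N_v`, the number of the
vectors of `K^I` orthogonal to `w v`: `N_v = q^k` if `w v = 0` and `q N_v = q^k` if `w v ≠ 0`, `k = card I`. So
`q (N_v - q^k [w v = 0]) = q^k [w v ≠ 0]` in both cases. Multiply over `v` and expand the product
(`Finset.prod_sub` or `Finset.prod_add`): the term of the set `A` of the factors `-q^k [w v = 0]` is `(-1)^(card A)`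
times the number of the configurations of `ic0` for the supports `S' v = ∅` for `v ∈ A`, `S' v = S v` for `v ∉ A`
(for `v ∈ A`: `w v = 0` and `p' v` arbitrary). -/
theorem icd_ie (S : L → Set I) (Z : U → L → Prop) (F : FinField) :
    F.q ^ (Fintype.card I * Fintype.card L) * icd S Z (fun _ _ => False) F =
      F.q ^ Fintype.card L * ∑ A : Finset L, (-1) ^ A.card * ic0 (fun v => if v ∈ A then ∅ else S v) Z F := by
  let _ : Fintype ((U → I → F.K) × (L → I → F.K)) := Fintype.ofFinite _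
  obtain ⟨G, hG⟩ : ∃ G : Finset ((U → I → F.K) × (L → I → F.K)), ∀ y, y ∈ G ↔
      ∀ v, (∀ i, i ∉ S v → y.2 v i = 0) ∧ ∀ u, Z u v → y.2 v ⬝ᵥ y.1 u = 0 :=
    ⟨Finset.univ.filter fun y =>
      ∀ v, (∀ i, i ∉ S v → y.2 v i = 0) ∧ ∀ u, Z u v → y.2 v ⬝ᵥ y.1 u = 0, fun y => by
      rw [Finset.mem_filter]; exact ⟨fun h => h.2, fun h => ⟨Finset.mem_univ _, h⟩⟩⟩
  obtain ⟨N, hN⟩ : ∃ N : (I → F.K) → ℤ, ∀ w, N w = (Nat.card {z : I → F.K // w ⬝ᵥ z = 0} : ℤ) :=
    ⟨_, fun _ => rfl⟩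
  obtain ⟨k, hk⟩ : ∃ k : ℕ, k = Fintype.card I := ⟨_, rfl⟩
  have hNne : ∀ w : I → F.K, w ≠ 0 → F.q * N w = F.q ^ k := by
    intro w hw
    rw [hN, hk]
    unfold FinField.q
    exact_mod_cast ICIE_dot w hw
  -- the two counts
  have hicd : icd S Z (fun _ _ => False) F = ∑ y ∈ G, if ∀ v, y.2 v ≠ 0 then (1 : ℤ) else 0 := by
    unfold icd
    rw [← Finset.sum_filter, Finset.sum_const, nsmul_eq_mul, mul_one]
    congr 1
    rw [Nat.subtype_card]
    intro y
    rw [Finset.mem_filter, hG]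
    constructor
    · rintro ⟨h1, h2⟩ v
      exact ⟨h2 v, (h1 v).1, fun u => ⟨(h1 v).2 u, fun h => h.elim⟩⟩
    · intro h
      exact ⟨fun v => ⟨(h v).2.1, fun u => ((h v).2.2 u).1⟩, fun v => (h v).1⟩
  have hic0 : ∀ A : Finset L, ic0 (fun v => if v ∈ A then ∅ else S v) Z F =
      ∑ y ∈ G, if ∀ v ∈ A, y.2 v = 0 then ∏ v, N (y.2 v) else 0 := by
    intro A
    rw [ICIE_ic0, ← Finset.sum_filter]
    refine Finset.sum_congr ?_ fun y _ => Finset.prod_congr rfl fun v _ => (hN _).symm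
    ext y
    rw [Finset.mem_filter, Finset.mem_filter, hG]
    constructor
    · rintro ⟨_, h⟩
      have h0 : ∀ v ∈ A, y.2 v = 0 := by
        intro v hv
        have h1 := (h v).1
        rw [if_pos hv] at h1
        exact funext fun i => h1 i (Set.notMem_empty i)
      refine ⟨fun v => ⟨fun i hi => ?_, (h v).2⟩, h0⟩
      by_cases hv : v ∈ A
      · rw [h0 v hv]; rfl
      · have h1 := (h v).1
        rw [if_neg hv] at h1
        exact h1 i hi
    · rintro ⟨h, h0⟩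
      refine ⟨Finset.mem_univ _, fun v => ⟨fun i hi => ?_, (h v).2⟩⟩
      by_cases hv : v ∈ A
      · rw [h0 v hv]; rfl
      · rw [if_neg hv] at hi
        exact (h v).1 i hi
  rw [hicd]
  simp only [hic0]
  rw [Finset.mul_sum, Finset.mul_sum]
  -- exchange the sums
  have hswap : ∀ A : Finset L, F.q ^ Fintype.card L * ((-1) ^ A.card *
      ∑ y ∈ G, if ∀ v ∈ A, y.2 v = 0 then ∏ v, N (y.2 v) else 0) =
      ∑ y ∈ G, (∏ v ∈ A, -(if y.2 v = 0 then F.q * N (y.2 v) else 0)) *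
        ∏ v ∈ Finset.univ \ A, F.q * N (y.2 v) := by
    intro A
    rw [Finset.mul_sum, Finset.mul_sum]
    refine Finset.sum_congr rfl fun y _ => ?_
    by_cases h : ∀ v ∈ A, y.2 v = 0
    · rw [if_pos h]
      have h1 : ∏ v ∈ A, -(if y.2 v = 0 then F.q * N (y.2 v) else 0) =
          (-1) ^ A.card * ∏ v ∈ A, F.q * N (y.2 v) := by
        rw [← Finset.prod_const, ← Finset.prod_mul_distrib]
        refine Finset.prod_congr rfl fun v hv => ?_
        rw [if_pos (h v hv)]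
        ring
      have h2 : (∏ v ∈ A, F.q * N (y.2 v)) * ∏ v ∈ Finset.univ \ A, F.q * N (y.2 v) =
          ∏ v, F.q * N (y.2 v) := by
        rw [mul_comm]
        exact Finset.prod_sdiff (Finset.subset_univ A)
      rw [h1, mul_assoc, h2]
      rw [Finset.prod_mul_distrib, Finset.prod_const, Finset.card_univ]
      ring
    · rw [if_neg h]
      push Not at h
      obtain ⟨v, hv, hne⟩ := h
      rw [Finset.prod_eq_zero hv (by rw [if_neg hne, neg_zero])]
      ring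
  simp only [hswap]
  rw [Finset.sum_comm]
  refine Finset.sum_congr rfl fun y _ => ?_
  have h1 := Finset.prod_add (fun v => -(if y.2 v = 0 then F.q * N (y.2 v) else 0))
    (fun v => F.q * N (y.2 v)) (Finset.univ : Finset L)
  rw [Finset.powerset_univ] at h1
  rw [← h1]
  by_cases h : ∀ v, y.2 v ≠ 0
  · rw [if_pos h, mul_one, ← hk, pow_mul, ← Finset.card_univ, ← Finset.prod_const]
    refine Finset.prod_congr rfl fun v _ => ?_
    rw [if_neg (h v), neg_zero, zero_add, hNne _ (h v)]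
  · rw [if_neg h, mul_zero]
    push Not at h
    obtain ⟨v, hv⟩ := h
    refine (Finset.prod_eq_zero (Finset.mem_univ v) ?_).symm
    rw [if_pos hv]
    ring

/-- PROOF: induction over the number of pairs `(u, v)` with `Y u v`, for all `Z` together: if `Y (u0, v0)`, the
number for `(Z, Y)` is the number for `(Z, Y')` minus the number for `(Z', Y')`, where `Y'` is `Y` without the
pair `(u0, v0)` and `Z'` is `Z` with this pair. -/
theorem icd_mem {B : Set (FinField → ℤ)} (S : L → Set I)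
    (h0 : ∀ (Z : U → L → Prop), Sp B (icd S Z (fun _ _ => False))) (Z Y : U → L → Prop) :
    Sp B (icd S Z Y) := by
  classical
  have key : ∀ (n : ℕ) (Z Y : U → L → Prop), {x : U × L | Y x.1 x.2}.ncard = n →
      Sp B (icd S Z Y) := by
    intro n
    induction n with
    | zero =>
      intro Z Y hn
      have h1 : Y = fun _ _ => False := by
        funext u v
        have h2 := (Set.ncard_eq_zero (Set.toFinite _)).1 hn
        have h3 : (u, v) ∉ {x : U × L | Y x.1 x.2} := by rw [h2]; exact Set.notMem_empty _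
        exact propext ⟨fun h => h3 h, False.elim⟩
      rw [h1]
      exact h0 Z
    | succ n ih =>
      intro Z Y hn
      obtain ⟨⟨u0, v0⟩, h00⟩ : {x : U × L | Y x.1 x.2}.Nonempty := by
        rw [← Set.ncard_pos (Set.toFinite _), hn]
        omega
      have hn' : {x : U × L | Y x.1 x.2 ∧ ¬ (x.1 = u0 ∧ x.2 = v0)}.ncard = n := by
        have h1 : {x : U × L | Y x.1 x.2 ∧ ¬ (x.1 = u0 ∧ x.2 = v0)} =
            {x : U × L | Y x.1 x.2} \ {(u0, v0)} := by
          ext ⟨u, v⟩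
          simp [Prod.ext_iff]
        rw [h1, Set.ncard_sdiff_singleton_of_mem h00, hn]
        rfl
      have h1 := ih Z (fun u v => Y u v ∧ ¬ (u = u0 ∧ v = v0)) hn'
      have h2 := ih (fun u v => Z u v ∨ (u = u0 ∧ v = v0))
        (fun u v => Y u v ∧ ¬ (u = u0 ∧ v = v0)) hn'
      refine sp_congr (sp_sub h1 h2) fun F => ?_
      unfold icd
      have h3 := ICM_split (fun x : (U → I → F.K) × (L → I → F.K) =>
        ∀ v, x.2 v ≠ 0 ∧ (∀ i, i ∉ S v → x.2 v i = 0) ∧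
          ∀ u, (Z u v → x.2 v ⬝ᵥ x.1 u = 0) ∧ (Y u v ∧ ¬ (u = u0 ∧ v = v0) → x.2 v ⬝ᵥ x.1 u ≠ 0))
        (fun x => x.2 v0 ⬝ᵥ x.1 u0 = 0)
      have h4 : Nat.card {x : (U → I → F.K) × (L → I → F.K) // (∀ v, x.2 v ≠ 0 ∧
          (∀ i, i ∉ S v → x.2 v i = 0) ∧ ∀ u, (Z u v → x.2 v ⬝ᵥ x.1 u = 0) ∧
            (Y u v ∧ ¬ (u = u0 ∧ v = v0) → x.2 v ⬝ᵥ x.1 u ≠ 0)) ∧ x.2 v0 ⬝ᵥ x.1 u0 = 0} =
          Nat.card {x : (U → I → F.K) × (L → I → F.K) // ∀ v, x.2 v ≠ 0 ∧
          (∀ i, i ∉ S v → x.2 v i = 0) ∧ ∀ u, (Z u v ∨ (u = u0 ∧ v = v0) → x.2 v ⬝ᵥ x.1 u = 0) ∧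
            (Y u v ∧ ¬ (u = u0 ∧ v = v0) → x.2 v ⬝ᵥ x.1 u ≠ 0)} := by
        refine Nat.card_congr (Equiv.subtypeEquivRight fun x => ?_)
        constructor
        · rintro ⟨h, h'⟩ v
          refine ⟨(h v).1, (h v).2.1, fun u => ⟨?_, ((h v).2.2 u).2⟩⟩
          rintro (hz | ⟨rfl, rfl⟩)
          · exact ((h v).2.2 u).1 hz
          · exact h'
        · intro h
          exact ⟨fun v => ⟨(h v).1, (h v).2.1, fun u => ⟨fun hz => ((h v).2.2 u).1 (Or.inl hz),
            ((h v).2.2 u).2⟩⟩, ((h v0).2.2 u0).1 (Or.inr ⟨rfl, rfl⟩)⟩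
      have h5 : Nat.card {x : (U → I → F.K) × (L → I → F.K) // (∀ v, x.2 v ≠ 0 ∧
          (∀ i, i ∉ S v → x.2 v i = 0) ∧ ∀ u, (Z u v → x.2 v ⬝ᵥ x.1 u = 0) ∧
            (Y u v ∧ ¬ (u = u0 ∧ v = v0) → x.2 v ⬝ᵥ x.1 u ≠ 0)) ∧ ¬ x.2 v0 ⬝ᵥ x.1 u0 = 0} =
          Nat.card {x : (U → I → F.K) × (L → I → F.K) // ∀ v, x.2 v ≠ 0 ∧
          (∀ i, i ∉ S v → x.2 v i = 0) ∧ ∀ u, (Z u v → x.2 v ⬝ᵥ x.1 u = 0) ∧
            (Y u v → x.2 v ⬝ᵥ x.1 u ≠ 0)} := by
        refine Nat.card_congr (Equiv.subtypeEquivRight fun x => ?_)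
        constructor
        · rintro ⟨h, h'⟩ v
          refine ⟨(h v).1, (h v).2.1, fun u => ⟨((h v).2.2 u).1, fun hy => ?_⟩⟩
          by_cases huv : u = u0 ∧ v = v0
          · obtain ⟨rfl, rfl⟩ := huv
            exact h'
          · exact ((h v).2.2 u).2 ⟨hy, huv⟩
        · intro h
          exact ⟨fun v => ⟨(h v).1, (h v).2.1, fun u => ⟨((h v).2.2 u).1,
            fun hy => ((h v).2.2 u).2 hy.1⟩⟩, ((h v0).2.2 u0).2 h00⟩
      rw [h4, h5] at h3
      rw [h3]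
      push_cast
      ring
  exact key _ Z Y rfl

end Pool.Agent.KGU
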