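import Pool.Agent.KGU.UOrth
import Pool.Agent.KGU.USp

/-! # Matrices with prescribed vectors in the kernel -/

set_option autoImplicit false

open scoped BigOperators Matrix

namespace Pool.Agent.KGU

open Pool.Agent.KG

/-- The number of `P` for a fixed matrix `M`: with `b` the image of `I`, it is `q^(t card I)` if
`dim K0 M b = t` and `dim K0 M ∅ = t + card I`, and it is `0` if `dim K0 M ∅` is not
`dim K0 M b + card I`.
PROOF: the condition says that for every `i` in `I` the column `i` of the block matrix is a vector `x` in the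
kernel of `M` with restriction to `I` equal to the unit vector `e_i`. The restriction `K0 M ∅ → K^I` has kernel
`K0 M b`; if it is surjective each `i` has `q^t` choices; if it is not surjective, some `e_i` is not in the image. -/
theorem Q_fib {I W K : Type} [Fintype I] [Fintype W] [DecidableEq I] [Field K] [Finite K]
    (M : Matrix (I ⊕ W) (I ⊕ W) K) :
    Nat.card {P : Matrix W I K // M * Matrix.fromRows (1 : Matrix I I K) P = 0} =
      if Module.finrank K (K0 M ∅) = Module.finrank K (K0 M (Set.range Sum.inl)) + Fintype.card I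
        then Nat.card K ^ (Module.finrank K (K0 M (Set.range Sum.inl)) * Fintype.card I) else 0 := by
  classical
  let N : Submodule K (I ⊕ W → K) := K0 M ∅
  let ρ : N →ₗ[K] (I → K) := (LinearMap.funLeft K K (Sum.inl : I → I ⊕ W)).comp N.subtype
  have hρ : ∀ (x : N) (i : I), ρ x i = x.1 (Sum.inl i) := fun x i => rfl
  have hker : (LinearMap.ker ρ).map N.subtype = K0 M (Set.range Sum.inl) := by
    ext x
    constructor
    · rintro ⟨⟨y, hy⟩, hy2, rfl⟩
      refine ⟨hy.1, ?_⟩
      rintro _ ⟨i, rfl⟩
      exact congrFun (LinearMap.mem_ker.1 hy2) i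
    · rintro ⟨h1, h2⟩
      refine ⟨⟨x, ⟨h1, fun i hi => absurd hi (Set.notMem_empty i)⟩⟩, ?_, rfl⟩
      exact LinearMap.mem_ker.2 (funext fun i => h2 _ ⟨i, rfl⟩)
  have hfk : Module.finrank K (LinearMap.ker ρ) = Module.finrank K (K0 M (Set.range Sum.inl)) := by
    rw [← hker, Submodule.finrank_map_subtype_eq]
  have hrn := ρ.finrank_range_add_finrank_ker
  rw [hfk] at hrn
  -- the equivalence with families of vectors
  have hcol : ∀ (P : Matrix W I K) (i : I) (x : I ⊕ W),
      (M * Matrix.fromRows (1 : Matrix I I K) P) x i =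
        (M *ᵥ (Sum.elim (Pi.single i 1) fun w => P w i : I ⊕ W → K)) x := by
    intro P i x
    rw [Matrix.mul_apply]
    show _ = ∑ y, M x y * _
    refine Finset.sum_congr rfl fun y _ => ?_
    rcases y with j | w
    · rw [Matrix.fromRows_apply_inl, Matrix.one_apply, Sum.elim_inl, Pi.single_apply]
    · rfl
  have e1 : {P : Matrix W I K // M * Matrix.fromRows (1 : Matrix I I K) P = 0} ≃
      ((i : I) → {x : N // ρ x = Pi.single i 1}) :=
    { toFun := fun P i => ⟨⟨Sum.elim (Pi.single i 1) fun w => P.1 w i, by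
          refine ⟨?_, fun j hj => absurd hj (Set.notMem_empty j)⟩
          funext x
          rw [← hcol, P.2]
          rfl⟩, rfl⟩
      invFun := fun x => ⟨Matrix.of fun w i => (x i).1.1 (Sum.inr w), by
          ext y i
          rw [hcol]
          have h1 : (Sum.elim (Pi.single i 1) fun w => (x i).1.1 (Sum.inr w) : I ⊕ W → K) =
              (x i).1.1 := by
            funext z
            rcases z with j | w
            · rw [Sum.elim_inl]
              exact (congrFun (x i).2 j).symm
            · rfl
          show (M *ᵥ (Sum.elim (Pi.single i 1) fun w => (x i).1.1 (Sum.inr w) : I ⊕ W → K)) y = 0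
          rw [h1, (x i).1.2.1]
          rfl⟩
      left_inv := fun P => rfl
      right_inv := fun x => by
        funext i
        apply Subtype.ext
        apply Subtype.ext
        funext z
        rcases z with j | w
        · exact (congrFun (x i).2 j).symm
        · rfl }
  rw [Nat.card_congr e1, Nat.card_pi]
  by_cases hc : Module.finrank K (K0 M ∅) = Module.finrank K (K0 M (Set.range Sum.inl)) +
      Fintype.card I
  · rw [if_pos hc]
    have hsurj : Function.Surjective ρ := by
      rw [← LinearMap.range_eq_top]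
      apply Submodule.eq_top_of_finrank_eq
      rw [Module.finrank_fintype_fun_eq_card]
      have h2 : Module.finrank K N = Module.finrank K (K0 M (Set.range Sum.inl)) +
        Fintype.card I := hc
      omega
    have hfib : ∀ i : I, Nat.card {x : N // ρ x = Pi.single i 1} =
        Nat.card K ^ Module.finrank K (K0 M (Set.range Sum.inl)) := by
      intro i
      obtain ⟨x0, hx0⟩ := hsurj (Pi.single i 1)
      have e2 : {x : N // ρ x = Pi.single i 1} ≃ LinearMap.ker ρ :=
        { toFun := fun x => ⟨x.1 - x0, by rw [LinearMap.mem_ker, map_sub, x.2, hx0, sub_self]⟩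
          invFun := fun x => ⟨x.1 + x0, by rw [map_add, hx0, LinearMap.mem_ker.1 x.2, zero_add]⟩
          left_inv := fun x => Subtype.ext (sub_add_cancel _ _)
          right_inv := fun x => Subtype.ext (add_sub_cancel_right _ _) }
      rw [Nat.card_congr e2, Module.natCard_eq_pow_finrank (K := K) (V := LinearMap.ker ρ), hfk]
    rw [Finset.prod_congr rfl fun i _ => hfib i, Finset.prod_const, ← pow_mul, Finset.card_univ]
  · rw [if_neg hc]
    have hne : LinearMap.range ρ ≠ ⊤ := by
      intro h3
      rw [h3, finrank_top, Module.finrank_fintype_fun_eq_card] at hrn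
      exact hc (by
        have h2 : Module.finrank K N = Module.finrank K (K0 M ∅) := rfl
        omega)
    obtain ⟨i, hi⟩ : ∃ i : I, (Pi.single i 1 : I → K) ∉ LinearMap.range ρ := by
      by_contra hcon
      push Not at hcon
      apply hne
      rw [eq_top_iff]
      intro x _
      rw [pi_eq_sum_univ' x]
      refine Submodule.sum_mem _ fun i _ => Submodule.smul_mem _ _ ?_
      exact hcon i
    refine Finset.prod_eq_zero (Finset.mem_univ i) ?_
    have : IsEmpty {x : N // ρ x = Pi.single i 1} := ⟨fun x => hi ⟨x.1, x.2⟩⟩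
    exact Nat.card_of_isEmpty

/-- PROOF: sum `Q_fib` over the matrices with pattern `H`, according to the value `t` of
`dim K0 M (range inl)`, which is at most `card (I ⊕ W)`. -/
theorem Q_eq {I W : Type} [Fintype I] [Fintype W] [DecidableEq I] (H : SimpleGraph (I ⊕ W)) (F : FinField) :
    Qc H F = ∑ t ∈ Finset.range (Fintype.card (I ⊕ W) + 1),
      F.q ^ (t * Fintype.card I) * NT H (Set.range Sum.inl) t (Fintype.card I) F := by
  classical
  have := Fintype.ofFinite {M : Matrix (I ⊕ W) (I ⊕ W) F.K // Pat H M}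
  let τ : Matrix (I ⊕ W) (I ⊕ W) F.K → ℕ := fun M =>
    Module.finrank F.K (K0 M (Set.range Sum.inl))
  let c : Matrix (I ⊕ W) (I ⊕ W) F.K → ℕ := fun M => Module.finrank F.K (K0 M ∅)
  have e1 : {x : Matrix (I ⊕ W) (I ⊕ W) F.K × Matrix W I F.K //
      Pat H x.1 ∧ x.1 * Matrix.fromRows (1 : Matrix I I F.K) x.2 = 0} ≃
      Σ M : {M : Matrix (I ⊕ W) (I ⊕ W) F.K // Pat H M},
        {P : Matrix W I F.K // M.1 * Matrix.fromRows (1 : Matrix I I F.K) P = 0} :=
    { toFun := fun x => ⟨⟨x.1.1, x.2.1⟩, ⟨x.1.2, x.2.2⟩⟩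
      invFun := fun x => ⟨(x.1.1, x.2.1), x.1.2, x.2.2⟩
      left_inv := fun x => rfl
      right_inv := fun x => rfl }
  have h1 : Qc H F = ∑ M : {M : Matrix (I ⊕ W) (I ⊕ W) F.K // Pat H M},
      if c M.1 = τ M.1 + Fintype.card I then F.q ^ (τ M.1 * Fintype.card I) else 0 := by
    unfold Qc
    rw [Nat.card_congr e1, Nat.card_sigma, Nat.cast_sum]
    refine Finset.sum_congr rfl fun M _ => ?_
    rw [Q_fib]
    show (((if c M.1 = τ M.1 + Fintype.card I then Nat.card F.K ^ (τ M.1 * Fintype.card I)
      else 0 : ℕ)) : ℤ) = _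
    split_ifs
    · rw [Nat.cast_pow]
      rfl
    · rfl
  rw [h1]
  have h2 : ∀ M : {M : Matrix (I ⊕ W) (I ⊕ W) F.K // Pat H M},
      (if c M.1 = τ M.1 + Fintype.card I then F.q ^ (τ M.1 * Fintype.card I) else 0) =
      ∑ t ∈ Finset.range (Fintype.card (I ⊕ W) + 1), if τ M.1 = t ∧ c M.1 = t + Fintype.card I then
        F.q ^ (t * Fintype.card I) else 0 := by
    intro M
    rw [Finset.sum_eq_single (τ M.1)]
    · simp
    · intro b _ hb
      exact if_neg fun h => hb h.1.symm
    · intro h
      exfalso
      apply h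
      rw [Finset.mem_range, Nat.lt_succ_iff]
      have := Submodule.finrank_le (K0 M.1 (Set.range Sum.inl))
      rwa [Module.finrank_fintype_fun_eq_card] at this
  rw [Finset.sum_congr rfl fun M _ => h2 M, Finset.sum_comm]
  refine Finset.sum_congr rfl fun t _ => ?_
  rw [← Finset.sum_filter, Finset.sum_const, nsmul_eq_mul, mul_comm]
  congr 1
  unfold NT
  have e2 : {M : Matrix (I ⊕ W) (I ⊕ W) F.K // Pat H M ∧ τ M = t ∧ c M = t + Fintype.card I} ≃
      {M : {M : Matrix (I ⊕ W) (I ⊕ W) F.K // Pat H M} // τ M.1 = t ∧ c M.1 = t + Fintype.card I} :=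
    { toFun := fun M => ⟨⟨M.1, M.2.1⟩, M.2.2⟩
      invFun := fun M => ⟨M.1.1, M.1.2, M.2⟩
      left_inv := fun M => rfl
      right_inv := fun M => rfl }
  have h3 := Nat.card_congr e2
  rw [Nat.card_eq_fintype_card (α := {M : {M : Matrix (I ⊕ W) (I ⊕ W) F.K // Pat H M} //
    τ M.1 = t ∧ c M.1 = t + Fintype.card I}), Fintype.card_subtype] at h3
  rw [← h3]

theorem Q_mem {B : Set (FinField → ℤ)}
    (hN : ∀ (V : Type) [Fintype V] (H : SimpleGraph V) (b : Set V) (t r : ℕ), Sp B (NT H b t r))
    {I W : Type} [Fintype I] [Fintype W] [DecidableEq I] (H : SimpleGraph (I ⊕ W)) : Sp B (Qc H) := by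
  refine sp_congr (sp_sum (Finset.range (Fintype.card (I ⊕ W) + 1))
    (fun t F => F.q ^ (t * Fintype.card I) * NT H (Set.range Sum.inl) t (Fintype.card I) F)
    fun t _ => sp_mulq _ (hN _ H _ _ _)) fun F => ?_
  exact (Q_eq H F).symm

end Pool.Agent.KGU
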