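import Pool.Agent.KGU.UAdd
import Pool.Agent.KGU.USp

/-! # All the numbers `NT` are in the class -/

set_option autoImplicit false

open scoped BigOperators Matrix

namespace Pool.Agent.KGU

open Pool.Agent.KG

/-- PROOF: for `t = r = 0` the second condition says that the kernel of `M` is zero (`K0 M ∅` is the kernel and
`K0 M b` is contained in it), so `NT H b 0 0 = pat H - sing H`. -/
theorem NT_zero {V : Type} [Fintype V] (H : SimpleGraph V) (b : Set V) (F : FinField) :
    NT H b 0 0 F = pat H F - sing H F := by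
  classical
  have hk : ∀ M : Matrix V V F.K, (Module.finrank F.K (K0 M b) = 0 ∧
      Module.finrank F.K (K0 M ∅) = 0 + 0) ↔ ¬ ∃ x : V → F.K, x ≠ 0 ∧ M *ᵥ x = 0 := by
    intro M
    have h1 : Module.finrank F.K (K0 M ∅) = 0 ↔ ¬ ∃ x : V → F.K, x ≠ 0 ∧ M *ᵥ x = 0 := by
      rw [Submodule.finrank_eq_zero, Submodule.eq_bot_iff]
      constructor
      · rintro h ⟨x, hx, h2⟩
        exact hx (h x ⟨h2, fun i hi => absurd hi (Set.notMem_empty i)⟩)
      · intro h x hx
        by_contra h3
        exact h ⟨x, h3, hx.1⟩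
    have h2 := K0_le M b
    rw [← h1]
    omega
  have h1 : ∀ R : Matrix V V F.K → Prop, (Nat.card {M : Matrix V V F.K // R M} : ℤ) =
      ∑ M ∈ (Set.toFinite (Set.univ : Set (Matrix V V F.K))).toFinset, if R M then (1 : ℤ) else 0 := by
    intro R
    have : Fintype {M : Matrix V V F.K // R M} := Fintype.ofFinite _
    have : Fintype (Matrix V V F.K) := Fintype.ofFinite _
    rw [Nat.card_eq_fintype_card, Fintype.card_of_subtype
      ((Set.toFinite (Set.univ : Set (Matrix V V F.K))).toFinset.filter R) (fun M => by simp),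
      Finset.card_filter]
    push_cast
    rfl
  show (Nat.card _ : ℤ) = (Nat.card _ : ℤ) - (Nat.card _ : ℤ)
  rw [h1, h1, h1, ← Finset.sum_sub_distrib]
  refine Finset.sum_congr rfl fun M _ => ?_
  by_cases hP : Pat H M
  · by_cases hs : ∃ x : V → F.K, x ≠ 0 ∧ M *ᵥ x = 0
    · have n1 : ¬ (Pat H M ∧ Module.finrank F.K (K0 M b) = 0 ∧ Module.finrank F.K (K0 M ∅) = 0 + 0) :=
        fun h => (hk M).1 h.2 hs
      have n2 : (Pat H M ∧ ∃ x : V → F.K, x ≠ 0 ∧ M *ᵥ x = 0) := ⟨hP, hs⟩
      rw [if_neg n1, if_pos hP, if_pos n2]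
      rfl
    · have n1 : (Pat H M ∧ Module.finrank F.K (K0 M b) = 0 ∧ Module.finrank F.K (K0 M ∅) = 0 + 0) :=
        ⟨hP, (hk M).2 hs⟩
      have n2 : ¬ (Pat H M ∧ ∃ x : V → F.K, x ≠ 0 ∧ M *ᵥ x = 0) := fun h => hs h.2
      rw [if_pos n1, if_pos hP, if_neg n2]
      rfl
  · have n1 : ¬ (Pat H M ∧ Module.finrank F.K (K0 M b) = 0 ∧ Module.finrank F.K (K0 M ∅) = 0 + 0) :=
      fun h => hP h.1
    have n2 : ¬ (Pat H M ∧ ∃ x : V → F.K, x ≠ 0 ∧ M *ᵥ x = 0) := fun h => hP h.1
    rw [if_neg n1, if_neg hP, if_neg n2]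
    rfl

private theorem NTM_q1 {B : Set (FinField → ℤ)} (k : ℕ) {f : FinField → ℤ} (hf : Sp B f) :
    Sp B fun F => (F.q - 1) * F.q ^ k * f F := by
  refine sp_congr (Sp.mulp ((Polynomial.X - 1) * Polynomial.X ^ k) hf) fun F => ?_
  simp

/-- HYPOTHESES: `hp`, `hs` are `pat_eq` and the result of the cone and matrix tree modules.
PROOF: first `t = 0`, by strong induction on `r`, for all `V`, `H`, `b` together: `r = 0` is `NT_zero`; `NT_part`
with `t = 0` gives `(q^(k+r+2) - q^(k+1)) NT H b 0 (r+1)`, `k = b.ncard`, in terms of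
`NT (addV H b) (bplus b) 0 r`, `NT H b 0 r` and `NT H b 0 (r-1)`; divide by `sp_divqq`. Then induction on `t`, for
all `V`, `H`, `b`, `r` together: `NT_full` gives `(q^(n+t+r+2) - q^(n+r+1)) NT H b (t+1) r` in terms of the numbers
`NT` with the same `t` (for `H` and `addV H univ`). -/
theorem NT_mem {B : Set (FinField → ℤ)}
    (hp : ∀ (V : Type) [Fintype V] (H : SimpleGraph V), Sp B (pat H))
    (hs : ∀ (V : Type) [Fintype V] (H : SimpleGraph V), Sp B (sing H))
    {V : Type} [Fintype V] (H : SimpleGraph V) (b : Set V) (t r : ℕ) : Sp B (NT H b t r) := by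
  have h0 : ∀ (r : ℕ) (V : Type) [Fintype V] (H : SimpleGraph V) (b : Set V), Sp B (NT H b 0 r) := by
    intro r
    induction r using Nat.strong_induction_on with
    | _ r ih =>
      intro V _ H b
      rcases r with _ | r
      · exact sp_congr (sp_sub (hp V H) (hs V H)) fun F => (NT_zero H b F).symm
      · refine sp_divqq (b.ncard + 1) r ?_
        have e1 : Sp B fun F => F.q ^ (r + 1) * NT (addV H b) (bplus b) 0 r F :=
          sp_mulq _ (ih r (Nat.lt_succ_self r) (Option V) (addV H b) (bplus b))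
        have e2 : Sp B fun F => F.q ^ (b.ncard + 2) * (if r = 0 then 0 else NT H b 0 (r - 1) F) := by
          refine sp_mulq _ ?_
          by_cases hr : r = 0
          · exact sp_congr sp_zero fun F => (if_pos hr).symm
          · exact sp_congr (ih (r - 1) (by omega) V H b) fun F => (if_neg hr).symm
        have e3 : Sp B fun F => (F.q - 1) * F.q ^ (b.ncard + 1) * NT H b 0 r F :=
          NTM_q1 _ (ih r (Nat.lt_succ_self r) V H b)
        refine sp_congr (sp_sub (sp_sub e1 e2) e3) fun F => ?_
        have := NT_part H b 0 r F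
        rw [show b.ncard + r + 2 = b.ncard + 1 + r + 1 by ring] at this
        linear_combination this
  have h1 : ∀ (t : ℕ) (V : Type) [Fintype V] (H : SimpleGraph V) (b : Set V) (r : ℕ),
      Sp B (NT H b t r) := by
    intro t
    induction t with
    | zero => exact fun V _ H b r => h0 r V H b
    | succ t ih =>
      intro V _ H b r
      refine sp_divqq (Fintype.card V + r + 1) t ?_
      have e1 : Sp B fun F => F.q ^ (t + r + 1) * NT (addV H Set.univ) (bplus b) t r F :=
        sp_mulq _ (ih (Option V) (addV H Set.univ) (bplus b) r)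
      have e2 : Sp B fun F => F.q ^ (Fintype.card V + 2) *
          (if r = 0 then 0 else NT H b t (r - 1) F) := by
        refine sp_mulq _ ?_
        by_cases hr : r = 0
        · exact sp_congr sp_zero fun F => (if_pos hr).symm
        · exact sp_congr (ih V H b (r - 1)) fun F => (if_neg hr).symm
      have e3 : Sp B fun F => (F.q - 1) * F.q ^ (Fintype.card V + 1) * NT H b t r F :=
        NTM_q1 _ (ih V H b r)
      have e4 : Sp B fun F => (F.q ^ (Fintype.card V + r + 2) - F.q ^ (Fintype.card V + 1)) *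
          NT H b t (r + 1) F := by
        refine sp_congr (sp_sub (sp_mulq (Fintype.card V + r + 2) (ih V H b (r + 1)))
          (sp_mulq (Fintype.card V + 1) (ih V H b (r + 1)))) fun F => ?_
        ring
      refine sp_congr (sp_sub (sp_sub (sp_sub e1 e2) e3) e4) fun F => ?_
      have := NT_full H b t r F
      rw [show Fintype.card V + t + r + 2 = Fintype.card V + r + 1 + t + 1 by ring] at this
      linear_combination this
  exact h1 t V H b r

end Pool.Agent.KGU
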