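import Pool.Agent.KGU.USp

/-! # Extended incidence systems -/

set_option autoImplicit false

open scoped BigOperators Matrix

namespace Pool.Agent.KGU

open Pool.Agent.KG

variable {I U L R K : Type} [Fintype I] [Field K]

/-- the configurations of the incidence system -/
private def xs_C (X : XS I U L R) (x : (Option U → I → K) × (I ⊕ R ⊕ L → I → K)) : Prop :=
  ∀ v, x.2 v ≠ 0 ∧ (∀ i, i ∉ X.S' v → x.2 v i = 0) ∧
    ∀ u, (X.Z' u v → x.2 v ⬝ᵥ x.1 u = 0) ∧ (X.Y' u v → x.2 v ⬝ᵥ x.1 u ≠ 0)

/-- the configurations of the extended system -/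
private def xs_D (X : XS I U L R) (x : (U → I → K) × (L → I → K)) : Prop :=
    (∀ v, x.2 v ≠ 0 ∧ (∀ i, i ∉ X.S v → x.2 v i = 0) ∧ ∀ u, X.Z u v → x.2 v ⬝ᵥ x.1 u = 0) ∧
    (∀ r, x.1 (X.ru r) (X.ra r) = x.1 (X.ru r) (X.rb r)) ∧
    (∀ u i, X.Ze u i → x.1 u i = 0) ∧ ∀ u i, X.Nz u i → x.1 u i ≠ 0

private theorem xs_dot1 {w : I → K} {i : I} (h : ∀ i', i' ∉ ({i} : Set I) → w i' = 0)
    (p : I → K) : w ⬝ᵥ p = w i * p i := by
  classical
  unfold dotProduct
  refine Finset.sum_eq_single i (fun i' _ hi => ?_) (fun h' => absurd (Finset.mem_univ i) h')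
  rw [h i' (by simpa using hi), zero_mul]

private theorem xs_dot2 {w : I → K} {i j : I} (hij : i ≠ j)
    (h : ∀ i', i' ∉ ({i, j} : Set I) → w i' = 0) (p : I → K) : w ⬝ᵥ p = w i * p i + w j * p j := by
  classical
  unfold dotProduct
  rw [← Finset.add_sum_erase _ _ (Finset.mem_univ i)]
  congr 1
  refine Finset.sum_eq_single j (fun i' hi' hj => ?_) (fun h' => ?_)
  · rw [h i' (by
      simp only [Set.mem_insert_iff, Set.mem_singleton_iff, not_or]
      exact ⟨(Finset.mem_erase.1 hi').1, hj⟩), zero_mul]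
  · exact absurd (Finset.mem_erase.2 ⟨hij.symm, Finset.mem_univ j⟩) h'

section
variable {X : XS I U L R} (hR : ∀ r, X.ra r ≠ X.rb r)
  {x : (Option U → I → K) × (I ⊕ R ⊕ L → I → K)} (h : xs_C X x)
include h

private theorem xs_w1 (i : I) : x.2 (Sum.inl i) i * x.1 none i ≠ 0 := by
  obtain ⟨h1, h2, h3⟩ := h (Sum.inl i)
  have h4 := (h3 none).2 trivial
  rwa [xs_dot1 h2] at h4

private theorem xs_e (i : I) : x.1 none i ≠ 0 := right_ne_zero_of_mul (xs_w1 h i)

private theorem xs_a (i : I) : x.2 (Sum.inl i) i ≠ 0 := left_ne_zero_of_mul (xs_w1 h i)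

include hR

private theorem xs_c0 (r : R) : x.2 (Sum.inr (Sum.inl r)) (X.ra r) * x.1 none (X.ra r) +
    x.2 (Sum.inr (Sum.inl r)) (X.rb r) * x.1 none (X.rb r) = 0 := by
  obtain ⟨h1, h2, h3⟩ := h (Sum.inr (Sum.inl r))
  have h4 := (h3 none).1 trivial
  rwa [xs_dot2 (hR r) h2] at h4

private theorem xs_c (r : R) : x.2 (Sum.inr (Sum.inl r)) (X.ra r) ≠ 0 := by
  intro h0
  obtain ⟨h1, h2, h3⟩ := h (Sum.inr (Sum.inl r))
  have h4 := xs_c0 hR h r
  rw [h0, zero_mul, zero_add] at h4
  have h5 : x.2 (Sum.inr (Sum.inl r)) (X.rb r) = 0 :=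
    (mul_eq_zero.1 h4).resolve_right (xs_e h _)
  apply h1
  funext i
  by_cases hi : i ∈ ({X.ra r, X.rb r} : Set I)
  · rcases hi with hi | hi
    · rw [hi]; exact h0
    · rw [Set.mem_singleton_iff.1 hi]; exact h5
  · exact h2 i hi

private theorem xs_fwd : xs_D X ((fun u i => x.1 (some u) i / x.1 none i : U → I → K),
    (fun v i => x.2 (Sum.inr (Sum.inr v)) i * x.1 none i : L → I → K)) := by
  refine ⟨fun v => ⟨?_, ?_, ?_⟩, ?_, ?_, ?_⟩
  · intro h0
    apply (h (Sum.inr (Sum.inr v))).1
    funext i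
    exact (mul_eq_zero.1 (congrFun h0 i)).resolve_right (xs_e h i)
  · intro i hi
    show x.2 (Sum.inr (Sum.inr v)) i * x.1 none i = 0
    rw [(h (Sum.inr (Sum.inr v))).2.1 i hi, zero_mul]
  · intro u hu
    have h1 := ((h (Sum.inr (Sum.inr v))).2.2 (some u)).1 hu
    rw [← h1]
    unfold dotProduct
    refine Finset.sum_congr rfl fun i _ => ?_
    have := xs_e h i
    show x.2 (Sum.inr (Sum.inr v)) i * x.1 none i * (x.1 (some u) i / x.1 none i) = _
    field_simp
  · intro r
    have h1 := ((h (Sum.inr (Sum.inl r))).2.2 (some (X.ru r))).1 rfl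
    rw [xs_dot2 (hR r) (h (Sum.inr (Sum.inl r))).2.1] at h1
    have h2 := xs_c0 hR h r
    have h3 := xs_c hR h r
    have h4 := xs_e h (X.ra r)
    have h5 := xs_e h (X.rb r)
    show x.1 (some (X.ru r)) (X.ra r) / x.1 none (X.ra r) =
      x.1 (some (X.ru r)) (X.rb r) / x.1 none (X.rb r)
    rw [div_eq_div_iff h4 h5]
    have h6 : x.2 (Sum.inr (Sum.inl r)) (X.ra r) * (x.1 (some (X.ru r)) (X.ra r) * x.1 none (X.rb r) -
        x.1 (some (X.ru r)) (X.rb r) * x.1 none (X.ra r)) = 0 := by
      linear_combination (x.1 none (X.rb r)) * h1 - (x.1 (some (X.ru r)) (X.rb r)) * h2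
    exact sub_eq_zero.1 ((mul_eq_zero.1 h6).resolve_left h3)
  · intro u i hu
    have h1 := ((h (Sum.inl i)).2.2 (some u)).1 hu
    rw [xs_dot1 (h (Sum.inl i)).2.1] at h1
    show x.1 (some u) i / x.1 none i = 0
    rw [(mul_eq_zero.1 h1).resolve_left (xs_a h i), zero_div]
  · intro u i hu
    have h1 := ((h (Sum.inl i)).2.2 (some u)).2 hu
    rw [xs_dot1 (h (Sum.inl i)).2.1] at h1
    exact div_ne_zero (right_ne_zero_of_mul h1) (xs_e h i)

end

open Classical in
/-- the configuration from the scalars and a solution of the extended system -/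
private noncomputable def xs_mk (X : XS I U L R) (e a : I → K) (c : R → K)
    (x : (U → I → K) × (L → I → K)) : (Option U → I → K) × (I ⊕ R ⊕ L → I → K) :=
  (fun o => o.elim e (fun u i => x.1 u i * e i),
    Sum.elim (fun i => Pi.single i (a i)) (Sum.elim
      (fun r => Pi.single (X.ra r) (c r / e (X.ra r)) - Pi.single (X.rb r) (c r / e (X.rb r)))
      (fun v i => x.2 v i / e i)))

open Classical in
private theorem xs_bwd {X : XS I U L R} (hR : ∀ r, X.ra r ≠ X.rb r) {e a : I → K} {c : R → K}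
    (he : ∀ i, e i ≠ 0) (ha : ∀ i, a i ≠ 0) (hc : ∀ r, c r ≠ 0)
    {x : (U → I → K) × (L → I → K)} (h : xs_D X x) : xs_C X (xs_mk X e a c x) := by
  rintro (i | r | v)
  · refine ⟨?_, ?_, ?_⟩
    · intro h0
      have := congrFun h0 i
      rw [show (xs_mk X e a c x).2 (Sum.inl i) = Pi.single i (a i) from rfl, Pi.single_eq_same] at this
      exact ha i this
    · intro i' hi'
      show (Pi.single i (a i) : I → K) i' = 0
      exact Pi.single_eq_of_ne (fun h' => hi' (by rw [h']; rfl)) _
    · rintro (_ | u)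
      · refine ⟨fun h' => False.elim h', fun _ => ?_⟩
        show (Pi.single i (a i) : I → K) ⬝ᵥ e ≠ 0
        rw [single_dotProduct]
        exact mul_ne_zero (ha i) (he i)
      · refine ⟨fun h' => ?_, fun h' => ?_⟩
        · show (Pi.single i (a i) : I → K) ⬝ᵥ (fun i => x.1 u i * e i) = 0
          rw [single_dotProduct, h.2.2.1 u i h', zero_mul, mul_zero]
        · show (Pi.single i (a i) : I → K) ⬝ᵥ (fun i => x.1 u i * e i) ≠ 0
          rw [single_dotProduct]
          exact mul_ne_zero (ha i) (mul_ne_zero (h.2.2.2 u i h') (he i))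
  · refine ⟨?_, ?_, ?_⟩
    · intro h0
      have h1 := congrFun h0 (X.ra r)
      have h2 : (Pi.single (X.ra r) (c r / e (X.ra r)) - Pi.single (X.rb r) (c r / e (X.rb r)) :
          I → K) (X.ra r) = 0 := h1
      rw [Pi.sub_apply, Pi.single_eq_same, Pi.single_eq_of_ne (hR r), sub_zero] at h2
      exact div_ne_zero (hc r) (he _) h2
    · intro i' hi'
      have hi2 : i' ∉ ({X.ra r, X.rb r} : Set I) := hi'
      simp only [Set.mem_insert_iff, Set.mem_singleton_iff, not_or] at hi2
      show (Pi.single (X.ra r) (c r / e (X.ra r)) - Pi.single (X.rb r) (c r / e (X.rb r)) :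
          I → K) i' = 0
      rw [Pi.sub_apply, Pi.single_eq_of_ne hi2.1, Pi.single_eq_of_ne hi2.2, sub_zero]
    · rintro (_ | u)
      · refine ⟨fun _ => ?_, fun h' => False.elim h'⟩
        show (Pi.single (X.ra r) (c r / e (X.ra r)) - Pi.single (X.rb r) (c r / e (X.rb r)) :
          I → K) ⬝ᵥ e = 0
        rw [sub_dotProduct, single_dotProduct, single_dotProduct, div_mul_cancel₀ _ (he _),
          div_mul_cancel₀ _ (he _), sub_self]
      · refine ⟨fun h' => ?_, fun h' => False.elim h'⟩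
        have hu : u = X.ru r := h'
        rw [hu]
        show (Pi.single (X.ra r) (c r / e (X.ra r)) - Pi.single (X.rb r) (c r / e (X.rb r)) :
          I → K) ⬝ᵥ (fun i => x.1 (X.ru r) i * e i) = 0
        rw [sub_dotProduct, single_dotProduct, single_dotProduct, h.2.1 r]
        have h1 := he (X.ra r)
        have h2 := he (X.rb r)
        field_simp
        ring
  · refine ⟨?_, ?_, ?_⟩
    · intro h0
      apply (h.1 v).1
      funext i
      have h1 : x.2 v i / e i = 0 := congrFun h0 i
      exact (div_eq_zero_iff.1 h1).resolve_right (he i)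
    · intro i hi
      show x.2 v i / e i = 0
      rw [(h.1 v).2.1 i hi, zero_div]
    · rintro (_ | u)
      · exact ⟨fun h' => False.elim h', fun h' => False.elim h'⟩
      · refine ⟨fun h' => ?_, fun h' => False.elim h'⟩
        rw [← (h.1 v).2.2 u h']
        unfold dotProduct
        refine Finset.sum_congr rfl fun i _ => ?_
        show x.2 v i / e i * (x.1 u i * e i) = _
        have := he i
        field_simp

/-- the bijection -/
private noncomputable def xs_equiv {X : XS I U L R} (hR : ∀ r, X.ra r ≠ X.rb r) :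
    {x : (Option U → I → K) × (I ⊕ R ⊕ L → I → K) // xs_C X x} ≃
    (I → {k : K // k ≠ 0}) × (I → {k : K // k ≠ 0}) × (R → {k : K // k ≠ 0}) ×
      {x : (U → I → K) × (L → I → K) // xs_D X x} where
  toFun x := (fun i => ⟨x.1.1 none i, xs_e x.2 i⟩, fun i => ⟨x.1.2 (Sum.inl i) i, xs_a x.2 i⟩,
    fun r => ⟨x.1.2 (Sum.inr (Sum.inl r)) (X.ra r) * x.1.1 none (X.ra r),
      mul_ne_zero (xs_c hR x.2 r) (xs_e x.2 _)⟩, ⟨_, xs_fwd hR x.2⟩)
  invFun y := ⟨xs_mk X (fun i => y.1 i) (fun i => y.2.1 i) (fun r => y.2.2.1 r) y.2.2.2.1,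
    xs_bwd hR (fun i => (y.1 i).2) (fun i => (y.2.1 i).2) (fun r => (y.2.2.1 r).2) y.2.2.2.2⟩
  left_inv := by
    classical
    rintro ⟨x, h⟩
    apply Subtype.ext
    apply Prod.ext
    · funext o
      rcases o with _ | u
      · rfl
      · funext i
        exact div_mul_cancel₀ _ (xs_e h i)
    · funext v
      rcases v with i | r | v
      · funext i'
        show (Pi.single i (x.2 (Sum.inl i) i) : I → K) i' = x.2 (Sum.inl i) i'
        by_cases hi : i' = i
        · rw [hi, Pi.single_eq_same]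
        · rw [Pi.single_eq_of_ne hi]
          exact ((h (Sum.inl i)).2.1 i' (fun h' => hi h')).symm
      · funext i
        show (Pi.single (X.ra r) (x.2 (Sum.inr (Sum.inl r)) (X.ra r) * x.1 none (X.ra r) /
            x.1 none (X.ra r)) - Pi.single (X.rb r) (x.2 (Sum.inr (Sum.inl r)) (X.ra r) *
            x.1 none (X.ra r) / x.1 none (X.rb r)) : I → K) i = x.2 (Sum.inr (Sum.inl r)) i
        rw [Pi.sub_apply]
        by_cases h1 : i = X.ra r
        · rw [h1, Pi.single_eq_same, Pi.single_eq_of_ne (hR r), sub_zero,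
            mul_div_cancel_right₀ _ (xs_e h _)]
        · by_cases h2 : i = X.rb r
          · rw [h2, Pi.single_eq_same, Pi.single_eq_of_ne (hR r).symm, zero_sub]
            have h3 := xs_c0 hR h r
            have h4 := xs_e h (X.rb r)
            rw [neg_eq_iff_add_eq_zero, div_add' _ _ _ h4, div_eq_zero_iff]
            left
            exact h3
          · rw [Pi.single_eq_of_ne h1, Pi.single_eq_of_ne h2, sub_zero]
            refine ((h (Sum.inr (Sum.inl r))).2.1 i ?_).symm
            show i ∉ ({X.ra r, X.rb r} : Set I)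
            simp only [Set.mem_insert_iff, Set.mem_singleton_iff, not_or]
            exact ⟨h1, h2⟩
      · funext i
        exact mul_div_cancel_right₀ _ (xs_e h i)
  right_inv := by
    classical
    rintro ⟨e, a, c, ⟨x, h⟩⟩
    refine Prod.ext ?_ (Prod.ext ?_ (Prod.ext ?_ ?_))
    · funext i
      rfl
    · funext i
      apply Subtype.ext
      show (Pi.single i (a i : K) : I → K) i = a i
      rw [Pi.single_eq_same]
    · funext r
      apply Subtype.ext
      show (Pi.single (X.ra r) ((c r : K) / (e (X.ra r) : K)) -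
        Pi.single (X.rb r) ((c r : K) / (e (X.rb r) : K)) : I → K) (X.ra r) * (e (X.ra r) : K) = c r
      rw [Pi.sub_apply, Pi.single_eq_same, Pi.single_eq_of_ne (hR r), sub_zero,
        div_mul_cancel₀ _ (e (X.ra r)).2]
    · apply Subtype.ext
      apply Prod.ext
      · funext u i
        exact mul_div_cancel_right₀ _ (e i).2
      · funext v i
        exact div_mul_cancel₀ _ (e i).2

/-- PROOF: a configuration counted by `icd` on the right consists of a point `e = p none`, points `p (some u)`,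
functionals `ε i = w (inl i)` supported on `{i}`, `δ r = w (inr (inl r))` supported on `{ra r, rb r}` and
`w (inr (inr v))`. `Y' none (inl i)` says `e i ≠ 0` (`ε i = a_i δ_i` with `a_i ≠ 0`). `δ r ⟂ e` says
`δ r = c_r (δ_a / e_a - δ_b / e_b)`, `c_r ≠ 0`, `a = ra r`, `b = rb r` (`a ≠ b`). Put `x u i = p (some u) i / e i`,
`z v i = w (inr (inr v)) i * e i`. Then `(x, z)` is a solution of the extended system: `δ r ⟂ p (some (ru r))` says
`x (ru r) a = x (ru r) b`; `ε i ⟂ p (some u)` says `x u i = 0`; not orthogonal: `x u i ≠ 0`; and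
`w ⬝ p = z ⬝ x`. So the right side is the number of `(x, z)` times the number of the `(e, a, c)`, all of them
nonzero scalars. -/
theorem xs_eq {I U L R : Type} [Fintype I] [Fintype U] [Fintype L] [Fintype R] (X : XS I U L R)
    (hR : ∀ r, X.ra r ≠ X.rb r) (F : FinField) :
    (F.q - 1) ^ (2 * Fintype.card I + Fintype.card R) * X.count F = icd X.S' X.Z' X.Y' F := by
  classical
  haveI := Fintype.ofFinite F.K
  have hq : F.q = (Nat.card F.K : ℤ) := rfl
  have hN : (Nat.card {a : F.K // a ≠ 0} : ℤ) = F.q - 1 := by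
    have h1 : Nat.card {a : F.K // a ≠ 0} = Nat.card F.K - 1 := by
      rw [Nat.card_eq_fintype_card, Nat.card_eq_fintype_card]
      have := Fintype.card_subtype_compl (fun a : F.K => a = 0)
      rw [Fintype.card_subtype_eq] at this
      exact this
    rw [h1, Nat.cast_sub Nat.card_pos, Nat.cast_one, hq]
  have h1 : icd X.S' X.Z' X.Y' F =
      (Nat.card {x : (Option U → I → F.K) × (I ⊕ R ⊕ L → I → F.K) // xs_C X x} : ℤ) := rfl
  have h2 : X.count F =
      (Nat.card {x : (U → I → F.K) × (L → I → F.K) // xs_D X x} : ℤ) := rfl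
  rw [h1, h2, Nat.card_congr (xs_equiv hR), Nat.card_prod, Nat.card_prod, Nat.card_prod,
    Nat.card_fun, Nat.card_fun]
  push_cast
  rw [hN, Nat.card_eq_fintype_card (α := I), Nat.card_eq_fintype_card (α := R)]
  ring

end Pool.Agent.KGU
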