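import Pool.Agent.KGU.UCone
import Pool.Agent.KGU.UType
import Pool.Agent.KGU.UQ
import Pool.Agent.KGU.UBlk
import Pool.Agent.KGU.UInc
import Pool.Agent.KGU.UXs
import Pool.Agent.KGU.UGadT
import Pool.Agent.HGC.Poly

/-! # Universality: every scheme count is in the class generated by the Kirchhoff polynomials -/

set_option autoImplicit false

open scoped BigOperators Matrix

namespace Pool.Agent.KGU

open Pool.Agent.KG

variable {B : Set (FinField → ℤ)}

theorem pat_mem {V : Type} [Fintype V] (H : SimpleGraph V) : Sp B (pat H) := by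
  obtain ⟨d, hd⟩ := pat_eq H
  exact sp_congr (sp_mulq d Sp.one) fun F => by rw [hd F, mul_one]

theorem sing_mem
    (hdet : ∀ (V E K : Type) [Fintype V] [DecidableEq V] [Fintype E] [Field K] (s t : E → Option V)
      (y : E → K), kir s t y = (lap s t y).det)
    (hB : ∀ (V E : Type) [Fintype V] [Fintype E] (s t : E → V), Sp B (nk s t))
    {V : Type} [Fintype V] (H : SimpleGraph V) : Sp B (sing H) := by
  classical
  obtain ⟨E, _, s, t, h⟩ := sing_eq H fun E K _ _ s t y => hdet V E K s t y
  exact sp_congr (hB _ _ s t) fun F => (h F).symm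

theorem ic0_mem
    (hQ : ∀ (I W : Type) [Fintype I] [Fintype W] [DecidableEq I] (H : SimpleGraph (I ⊕ W)), Sp B (Qc H))
    {I U L : Type} [Fintype I] [Fintype U] [Fintype L] (S : L → Set I) (Z : U → L → Prop) :
    Sp B (ic0 S Z) := by
  classical
  refine sp_divq (Fintype.card U + Fintype.card L + {x : U × L | Z x.1 x.2}.ncard) ?_
  exact sp_congr (sp_mulq (∑ v, (S v).ncard) (hQ I (U ⊕ L) (blk S Z))) fun F => Q_blk S Z F

theorem icd0_mem
    (h0 : ∀ (I U L : Type) [Fintype I] [Fintype U] [Fintype L] (S : L → Set I) (Z : U → L → Prop),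
      Sp B (ic0 S Z))
    {I U L : Type} [Fintype I] [Fintype U] [Fintype L] (S : L → Set I) (Z : U → L → Prop) :
    Sp B (icd S Z fun _ _ => False) := by
  classical
  refine sp_divq (Fintype.card I * Fintype.card L) ?_
  have h1 : Sp B fun F => ∑ A ∈ (Finset.univ : Finset (Finset L)),
      (-1) ^ A.card * ic0 (fun v => if v ∈ A then ∅ else S v) Z F := by
    refine sp_sum _ _ fun A _ => ?_
    rcases Nat.even_or_odd A.card with h | h
    · exact sp_congr (h0 I U L (fun v => if v ∈ A then ∅ else S v) Z) fun F => by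
        rw [h.neg_one_pow, one_mul]
    · exact sp_congr (sp_neg (h0 I U L (fun v => if v ∈ A then ∅ else S v) Z)) fun F => by
        rw [h.neg_one_pow, neg_one_mul]
  exact sp_congr (sp_mulq (Fintype.card L) h1) fun F => (icd_ie S Z F).symm

theorem gad_mem
    (hi : ∀ (I U L : Type) [Fintype I] [Fintype U] [Fintype L] (S : L → Set I) (Z Y : U → L → Prop),
      Sp B (icd S Z Y))
    {V J : Type} [Fintype V] [Fintype J] (G : HGC.Gadget V J) :
    Sp B fun F => (HGC.gadCount G F.K : ℤ) := by
  have h1 : Sp B (gx G).count := by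
    refine sp_divq1 (2 * Fintype.card (GI V J) + Fintype.card (J × (Fin 5 ⊕ Fin 4))) ?_
    exact sp_congr (hi _ _ _ (gx G).S' (gx G).Z' (gx G).Y') fun F => (xs_eq (gx G) (gx_ne G) F).symm
  refine sp_divq1 (6 * Fintype.card J + 1) ?_
  exact sp_congr h1 fun F => gad_total G F

/-- HYPOTHESIS `hB`: the functions `nk` of all multigraphs are in the class (`V`, `E` finite types), and
`hdet` the matrix tree theorem.
PROOF: `sing H` is in the class by `sing_eq`, `pat H` by `pat_eq`; `NT_mem`; `Q_mem`; `Q_blk` gives `ic0`;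
`icd_ie`, `icd_mem` give `icd`; `xs_eq` and `gad_total` give `gadCount`; `HGC.exists_gadget`. -/
theorem aff_mem
    (hdet : ∀ (V E K : Type) [Fintype V] [DecidableEq V] [Fintype E] [Field K] (s t : E → Option V)
      (y : E → K), kir s t y = (lap s t y).det)
    (hB : ∀ (V E : Type) [Fintype V] [Fintype E] (s t : E → V), Sp B (nk s t))
    {n m : ℕ} (P : Fin m → MvPolynomial (Fin n) ℤ) :
    Sp B fun F => (HGC.affCount P F.K : ℤ) := by
  have h1 : ∀ (V : Type) [Fintype V] (H : SimpleGraph V), Sp B (sing H) :=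
    fun V _ H => sing_mem hdet hB H
  have h2 : ∀ (V : Type) [Fintype V] (H : SimpleGraph V) (b : Set V) (t r : ℕ), Sp B (NT H b t r) :=
    fun V _ H b t r => NT_mem (fun V _ H => pat_mem H) h1 H b t r
  have h3 : ∀ (I W : Type) [Fintype I] [Fintype W] [DecidableEq I] (H : SimpleGraph (I ⊕ W)),
      Sp B (Qc H) := fun I W _ _ _ H => Q_mem h2 H
  have h4 : ∀ (I U L : Type) [Fintype I] [Fintype U] [Fintype L] (S : L → Set I) (Z : U → L → Prop),
      Sp B (ic0 S Z) := fun I U L _ _ _ S Z => ic0_mem h3 S Z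
  have h5 : ∀ (I U L : Type) [Fintype I] [Fintype U] [Fintype L] (S : L → Set I) (Z Y : U → L → Prop),
      Sp B (icd S Z Y) := fun I U L _ _ _ S Z Y => icd_mem S (fun Z => icd0_mem h4 S Z) Z Y
  obtain ⟨V, J, _, _, G, hG⟩ := HGC.exists_gadget P
  exact sp_congr (gad_mem h5 G) fun F => by rw [hG F.K]

end Pool.Agent.KGU
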