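import Pool.Agent.KG.Main
import Pool.Agent.KG.Det
import Pool.Agent.KGU.UAff
import Pool.Agent.KGU.Deg
import Pool.Agent.KGU.Tr
import Pool.Agent.KGU.LegI
import Pool.Agent.KGU.Reg3

/-!
# Scheme counts are approximated by counts of graph hypersurfaces
-/

set_option autoImplicit false

open scoped BigOperators

namespace Pool.Agent.KGU

open Pool.Agent.KG Pool.Agent.HGC Pool.Agent.GPM

theorem dck : DCK := by
  intro V V' E K _ _ _ _ s t a b π hπ hab hk y
  rw [kir_eq_tht, kir_eq_tht, kir_eq_tht, tht_dc a b hab π hπ hk, Pi.one_apply, one_mul, add_comm]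
  rfl

theorem nk_iso (V V' E E' : Type) [Fintype V] [Fintype V'] [Fintype E] [Fintype E'] (e : V ≃ V')
    (g : E' ≃ E) (s t : E → V) : nk (e ∘ s ∘ g) (e ∘ t ∘ g) = nk s t := by
  funext F
  unfold nk NK
  congr 1
  refine Nat.card_congr ⟨fun y => ⟨y.1 ∘ g.symm, ?_⟩, fun y => ⟨y.1 ∘ g, ?_⟩, ?_, ?_⟩
  · have h := tht_iso e g.symm s t (e ∘ s ∘ g) (e ∘ t ∘ g) (fun i => by simp) (fun i => by simp) y.1
      (1 : E' → F.K)
    rw [kir_eq_tht]
    have h2 := y.2
    rw [kir_eq_tht, h] at h2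
    exact h2
  · have h := tht_iso e g.symm s t (e ∘ s ∘ g) (e ∘ t ∘ g) (fun i => by simp) (fun i => by simp)
      (y.1 ∘ g) (1 : E' → F.K)
    rw [kir_eq_tht, h]
    have h2 := y.2
    rw [kir_eq_tht] at h2
    have h3 : (y.1 ∘ g) ∘ g.symm = y.1 := by
      funext i
      simp
    rw [h3]
    exact h2
  · intro y
    apply Subtype.ext
    funext i
    simp
  · intro y
    apply Subtype.ext
    funext i
    simp

/-- Kirchhoff polynomials of graphs of maximal degree `3` generate those of all graphs. -/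
theorem cubic_kir {V E : Type} [Fintype V] [Fintype E] (s t : E → V) : Sp Cubic (nk s t) :=
  cubic_mem dck nk_iso s t

theorem aff_cubic {n m : ℕ} (P : Fin m → MvPolynomial (Fin n) ℤ) :
    Sp Cubic fun F => (affCount P F.K : ℤ) :=
  aff_mem (fun _ _ _ _ _ _ _ s t y => kir_eq_det s t y) (fun _ _ _ _ s t => cubic_kir s t) P

theorem aff_phi4 {n m : ℕ} (P : Fin m → MvPolynomial (Fin n) ℤ) :
    Sp Phi4 fun F => (affCount P F.K : ℤ) :=
  aff_mem (fun _ _ _ _ _ _ _ s t y => kir_eq_det s t y) (fun _ _ _ _ s t => phi4_kir s t) P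

theorem inB_cubic {f : FinField → ℤ} (hf : Sp Cubic f) : InB CubicGraph.count (toPF f) := by
  refine inB_of_sp (fun G => bd_of_le _ fun K _ _ => NK_le G.s G.t K) ?_ (reg3_of_cubic hf)
  rintro f ⟨n, m, s, t, h1, h2, h3, rfl⟩
  refine ⟨⟨n, m, s, t, h1, h2, h3⟩, fun p r _ => ?_⟩
  simp only [toPF, CubicGraph.count, countPF, nk]
  push_cast
  rfl

theorem inB_phi4 {f : FinField → ℤ} (hf : Sp Phi4 f) : InB Log4Graph.count (toPF f) := by
  refine inB_of_sp (fun G => bd_of_le _ fun K _ _ => NS_le G.s G.t K) ?_ (log4_of_phi4 hf)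
  rintro f ⟨n, m, s, t, h1, h2, h3, h4, rfl⟩
  refine ⟨⟨n, m, s, t, h1, h2, h3, h4⟩, fun p r _ => ?_⟩
  simp only [toPF, Log4Graph.count, countPF, ns]
  push_cast
  rfl

/-- Scheme counts are approximated by counts of Kirchhoff hypersurfaces of cubic graphs. -/
theorem hg_cubic (n m : ℕ) (P : Fin m → MvPolynomial (Fin n) ℤ) :
    InB CubicGraph.count (countPF (affCount P)) :=
  (inB_cubic (aff_cubic P)).congr fun p r _ => toPF_aff P p r

/-- Scheme counts are approximated by counts of graph hypersurfaces of `φ⁴` graphs. -/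
theorem hg_phi4 (n m : ℕ) (P : Fin m → MvPolynomial (Fin n) ℤ) :
    InB Log4Graph.count (countPF (affCount P)) :=
  (inB_phi4 (aff_phi4 P)).congr fun p r _ => toPF_aff P p r

end Pool.Agent.KGU
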