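import Pool.Agent.KGU.UDefs

/-! # Subdivision of an edge: the count -/

set_option autoImplicit false

open scoped BigOperators

namespace Pool.Agent.KGU

open Pool.Agent.KG

/-- the number of zeros of an affine function -/
private theorem sc_lin {K : Type} [Field K] [Finite K] (c d : K) [Decidable (c = 0)]
    [Decidable (d = 0)] :
    Nat.card {y : K // y * c + d = 0} =
      if c = 0 then (if d = 0 then Nat.card K else 0) else 1 := by
  split_ifs with hc hd
  · subst hc hd
    have : ∀ y : K, y * 0 + 0 = 0 := fun y => by ring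
    exact Nat.card_congr (Equiv.subtypeUnivEquiv this)
  · subst hc
    have : IsEmpty {y : K // y * 0 + d = 0} := ⟨fun y => hd (by have := y.2; simpa using this)⟩
    exact Nat.card_of_isEmpty
  · have : Unique {y : K // y * c + d = 0} :=
      { default := ⟨-d / c, by field_simp; ring⟩
        uniq := fun y => Subtype.ext (by
          have := y.2
          rw [eq_div_iff hc]
          linear_combination this) }
    exact Nat.card_unique

/-- the number of zeros for one `x` -/
private theorem sc_pair {K : Type} [Field K] [Finite K] (a b : K) [Decidable (a = 0)]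
    [Decidable (b = 0)] :
    (Nat.card {x : K × K // x.1 * (x.2 * b + a) + x.2 * a = 0} : ℤ) =
      ((Nat.card K : ℤ) - 2) * (Nat.card {y : K // y * b + a = 0} : ℤ) +
      ((Nat.card K : ℤ) - 1) * (if b = 0 then 1 else 0) +
      (Nat.card K : ℤ) * (if a = 0 then 1 else 0) + 1 := by
  classical
  haveI := Fintype.ofFinite K
  have h1 : Nat.card {x : K × K // x.1 * (x.2 * b + a) + x.2 * a = 0} =
      ∑ z : K, Nat.card {y : K // y * (z * b + a) + z * a = 0} := by
    let e : {x : K × K // x.1 * (x.2 * b + a) + x.2 * a = 0} ≃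
        Σ z : K, {y : K // y * (z * b + a) + z * a = 0} :=
      { toFun := fun x => ⟨x.1.2, x.1.1, x.2⟩
        invFun := fun x => ⟨(x.2.1, x.1), x.2.2⟩
        left_inv := fun _ => rfl
        right_inv := fun _ => rfl }
    rw [Nat.card_congr e, Nat.card_sigma]
  rw [h1]
  simp only [sc_lin]
  by_cases hb : b = 0
  · subst hb
    by_cases ha : a = 0
    · subst ha
      simp only [mul_zero, add_zero, if_true, Finset.sum_const, Finset.card_univ, smul_eq_mul,
        Nat.card_eq_fintype_card]
      push_cast
      ring
    · simp only [mul_zero, zero_add, if_neg ha, if_true, Finset.sum_const, Finset.card_univ,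
        smul_eq_mul, Nat.card_eq_fintype_card]
      push_cast
      ring
  · have hz0 : ∀ z : K, z * b + a = 0 ↔ z = -a / b := fun z => by
      rw [eq_div_iff hb]
      exact ⟨fun h => by linear_combination h, fun h => by linear_combination h⟩
    have hsum : ∑ z : K, (if z * b + a = 0 then (if z * a = 0 then Nat.card K else 0) else 1) =
        (if a = 0 then Nat.card K else 0) + (Nat.card K - 1) := by
      rw [← Finset.add_sum_erase _ _ (Finset.mem_univ (-a / b)), if_pos ((hz0 _).2 rfl)]
      congr 1
      · have h2 : (-a / b * a = 0) ↔ a = 0 := by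
          constructor
          · intro h
            rcases mul_eq_zero.1 h with h | h
            · rcases div_eq_zero_iff.1 h with h | h
              · exact neg_eq_zero.1 h
              · exact absurd h hb
            · exact h
          · intro h
            rw [h, mul_zero]
        by_cases ha : a = 0
        · rw [if_pos (h2.2 ha), if_pos ha]
        · rw [if_neg (fun h => ha (h2.1 h)), if_neg ha]
      · rw [Finset.sum_congr rfl (g := fun _ => 1)]
        · rw [Finset.sum_const, smul_eq_mul, mul_one, Finset.card_erase_of_mem (Finset.mem_univ _),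
            Finset.card_univ, Nat.card_eq_fintype_card]
        · intro z hz
          rw [if_neg]
          intro h
          exact (Finset.mem_erase.1 hz).1 ((hz0 z).1 h)
    rw [hsum]
    have hq : 1 ≤ Nat.card K := Nat.card_pos
    rw [if_neg hb, if_neg hb]
    by_cases ha : a = 0
    · rw [if_pos ha, if_pos ha]
      push_cast [hq]
      ring
    · rw [if_neg ha, if_neg ha]
      push_cast [hq]
      ring

/-- PROOF: for `x` in `X` let `A = A x`, `B = B x`, `q = card K`. Number of `y` with `y B + A = 0`: `1` if `B ≠ 0`; `0` if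
`B = 0`, `A ≠ 0`; `q` if `A = B = 0`. Number of `(y, z)` with `y z B + (y + z) A = 0`: `q^2` if `A = B = 0`; `q` if
`B = 0`, `A ≠ 0` (`z = -y`); `2 q - 1` if `A = 0`, `B ≠ 0` (`y z = 0`); `q - 1` if `A ≠ 0`, `B ≠ 0`
(`(y B + A) (z B + A) = A^2`). In each of the four cases the contributions of `x` to both sides agree. -/
theorem sub_count {X K : Type} [Finite X] [Field K] [Finite K] (A B : X → K) :
    (Nat.card {x : K × K × X // x.1 * (x.2.1 * B x.2.2 + A x.2.2) + x.2.1 * A x.2.2 = 0} : ℤ) =
      ((Nat.card K : ℤ) - 2) * (Nat.card {x : K × X // x.1 * B x.2 + A x.2 = 0} : ℤ) +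
      ((Nat.card K : ℤ) - 1) * (Nat.card {x : X // B x = 0} : ℤ) +
      (Nat.card K : ℤ) * (Nat.card {x : X // A x = 0} : ℤ) + (Nat.card X : ℤ) := by
  classical
  haveI := Fintype.ofFinite X
  let e1 : {x : K × K × X // x.1 * (x.2.1 * B x.2.2 + A x.2.2) + x.2.1 * A x.2.2 = 0} ≃
      Σ x : X, {y : K × K // y.1 * (y.2 * B x + A x) + y.2 * A x = 0} :=
    { toFun := fun x => ⟨x.1.2.2, (x.1.1, x.1.2.1), x.2⟩
      invFun := fun x => ⟨(x.2.1.1, x.2.1.2, x.1), x.2.2⟩
      left_inv := fun _ => rfl
      right_inv := fun _ => rfl }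
  let e2 : {x : K × X // x.1 * B x.2 + A x.2 = 0} ≃
      Σ x : X, {y : K // y * B x + A x = 0} :=
    { toFun := fun x => ⟨x.1.2, x.1.1, x.2⟩
      invFun := fun x => ⟨(x.2.1, x.1), x.2.2⟩
      left_inv := fun _ => rfl
      right_inv := fun _ => rfl }
  have h3 : ∀ C : X → K, (Nat.card {x : X // C x = 0} : ℤ) = ∑ x : X, if C x = 0 then (1 : ℤ) else 0 := by
    intro C
    rw [Nat.card_eq_fintype_card, Fintype.card_subtype, Finset.card_filter]
    push_cast
    rfl
  have h4 : (Nat.card X : ℤ) = ∑ _x : X, (1 : ℤ) := by
    rw [Finset.sum_const, Finset.card_univ, Nat.card_eq_fintype_card, nsmul_eq_mul, mul_one]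
  rw [Nat.card_congr e1, Nat.card_congr e2, Nat.card_sigma, Nat.card_sigma, h3, h3, h4]
  push_cast
  rw [Finset.mul_sum, Finset.mul_sum, Finset.mul_sum, ← Finset.sum_add_distrib,
    ← Finset.sum_add_distrib, ← Finset.sum_add_distrib]
  exact Finset.sum_congr rfl fun x _ => sc_pair (A x) (B x)

end Pool.Agent.KGU
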