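import Pool.Agent.KGU.SubC

/-! # Subdivision of an edge: the identity for graphs -/

set_option autoImplicit false

open scoped BigOperators

namespace Pool.Agent.KGU

open Pool.Agent.KG

/-- The statement of the deletion-contraction theorem of `KG/DC.lean` for the Kirchhoff polynomial; it is a
hypothesis here in order to make this module independent. -/
def DCK : Prop :=
  ∀ (V V' E K : Type) [Fintype V] [Fintype V'] [Fintype E] [Field K] (s t : E → V) (a b : V)
    (π : V → V'), Function.Surjective π → a ≠ b →
    (∀ x y, π x = π y ↔ x = y ∨ (x = a ∧ y = b) ∨ (x = b ∧ y = a)) →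
    ∀ y : Option E → K, kir (ae a s) (ae b t) y =
      y none * kir (π ∘ s) (π ∘ t) (y ∘ some) + kir s t (y ∘ some)

/-- PROOF: a graph with at least two vertices, one of which (`none`) is the end of no edge, has no spanning
tree (no edge of `T` leads from `none` to `some v`). -/
theorem kir_isolated {V E K : Type} [Fintype V] [Nonempty V] [Fintype E] [Field K] (s t : E → V) (y : E → K) :
    kir (fun e => some (s e)) (fun e => some (t e)) y = 0 := by
  classical
  unfold kir
  refine Finset.sum_eq_zero fun T _ => ?_
  rw [if_neg]
  rintro ⟨_, h⟩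
  obtain ⟨v⟩ := (inferInstance : Nonempty V)
  have h1 := h none (some v)
  rcases Relation.ReflTransGen.cases_head h1 with h2 | ⟨c, ⟨e, _, h3⟩, _⟩
  · exact absurd h2 (by simp)
  · rcases h3 with ⟨h4, _⟩ | ⟨_, h4⟩
    · exact absurd h4 (by simp)
    · exact absurd h4 (by simp)

/-- The vertex `v` of the graph `s`, `t` is split into `some v` and `none`: the ends in `α`, `β` are moved to `none`.
Let `G0` be this graph, `G1` the graph with a new edge from `none` to `some v`, `G2` the graph where this new edge
is subdivided. PROOF: `DCK` with the surjection `Option V → V`, `none ↦ v`, `some x ↦ x` gives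
`kir G1 (y) = y none * kir s t + kir G0` (the composition of `splitV s α` with this map is `s`, as `s e = v` for
`e ∈ α`). For `G2`: contract the first new edge: `some none` and `none` are identified, the result is `G1`; delete it:
the vertex `none` is joined to `some (some v)` by the second new edge only; contract it, the result is `G0`; delete
it: `kir_isolated`. So `kir G2 (y, z, x) = y (z B + A) + z A`, `B = kir s t x`, `A = kir G0 x`; use `sub_count` with
`X = E → K`. -/
theorem sub_graph (hdc : DCK) {V E : Type} [Fintype V] [Fintype E] (s t : E → V) (v : V) (α β : Set E)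
    (hα : ∀ e ∈ α, s e = v) (hβ : ∀ e ∈ β, t e = v) (F : FinField) :
    (F.q - 1) * nk s t F =
      nk (ae (some none) (ae none (some ∘ splitV s α))) (ae none (ae (some (some v)) (some ∘ splitV t β))) F -
      (F.q - 2) * nk (ae none (splitV s α)) (ae (some v) (splitV t β)) F - F.q * nk (splitV s α) (splitV t β) F -
      F.q ^ Fintype.card E := by
  classical
  set σ := splitV s α with hσ
  set τ := splitV t β with hτ
  have hπσ : (fun o : Option V => o.elim v id) ∘ σ = s := by
    funext e
    simp only [Function.comp, hσ, splitV]
    by_cases he : e ∈ α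
    · rw [if_pos he]; exact (hα e he).symm
    · rw [if_neg he]; rfl
  have hπτ : (fun o : Option V => o.elim v id) ∘ τ = t := by
    funext e
    simp only [Function.comp, hτ, splitV]
    by_cases he : e ∈ β
    · rw [if_pos he]; exact (hβ e he).symm
    · rw [if_neg he]; rfl
  -- one new edge
  have hG1 : ∀ y : Option E → F.K, kir (ae none σ) (ae (some v) τ) y =
      y none * kir s t (y ∘ some) + kir σ τ (y ∘ some) := by
    intro y
    have h1 := hdc (Option V) V E F.K σ τ none (some v) (fun o => o.elim v id)
      (fun x => ⟨some x, rfl⟩) (by simp) (by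
        rintro (_ | x) (_ | x')
        · simp
        · simp [eq_comm]
        · simp
        · simp) y
    rw [hπσ, hπτ] at h1
    exact h1
  -- the second new edge after the deletion of the first
  have hD : ∀ y : Option E → F.K,
      kir (ae none (some ∘ σ)) (ae (some (some v)) (some ∘ τ)) y =
        y none * kir σ τ (y ∘ some) := by
    intro y
    have h1 := hdc (Option (Option V)) (Option V) E F.K (some ∘ σ) (some ∘ τ) none (some (some v))
      (fun o => o.elim (some v) id) (fun x => ⟨some x, rfl⟩) (by simp) (by
        rintro (_ | x) (_ | x')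
        · simp
        · simp [eq_comm]
        · simp
        · simp) y
    rw [h1]
    have h2 := kir_isolated (V := Option V) σ τ (y ∘ some)
    have h3 : kir (some ∘ σ) (some ∘ τ) (y ∘ some) = 0 := h2
    rw [h3, add_zero]
    rfl
  -- two new edges
  have hG2 : ∀ y : Option (Option E) → F.K,
      kir (ae (some none) (ae none (some ∘ σ))) (ae none (ae (some (some v)) (some ∘ τ))) y =
        y none * (y (some none) * kir s t ((y ∘ some) ∘ some) + kir σ τ ((y ∘ some) ∘ some)) +
          y (some none) * kir σ τ ((y ∘ some) ∘ some) := by
    intro y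
    have h1 := hdc (Option (Option V)) (Option V) (Option E) F.K (ae none (some ∘ σ))
      (ae (some (some v)) (some ∘ τ)) (some none) none
      (fun o => o.elim none id) (fun x => ⟨some x, rfl⟩) (by simp) (by
        rintro (_ | x) (_ | x')
        · simp
        · simp [eq_comm]
        · simp
        · simp) y
    rw [h1, hD]
    have h2 : (fun o : Option (Option V) => o.elim none id) ∘ (ae none (some ∘ σ)) = ae none σ := by
      funext o
      rcases o with _ | e <;> rfl
    have h3 : (fun o : Option (Option V) => o.elim none id) ∘ (ae (some (some v)) (some ∘ τ)) =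
        ae (some v) τ := by
      funext o
      rcases o with _ | e <;> rfl
    rw [h2, h3, hG1]
    rfl
  -- counting
  have hc := sub_count (X := E → F.K) (K := F.K) (fun x => kir σ τ x) (fun x => kir s t x)
  let e2 : {y : Option (Option E) → F.K //
      kir (ae (some none) (ae none (some ∘ σ))) (ae none (ae (some (some v)) (some ∘ τ))) y = 0} ≃
      {x : F.K × F.K × (E → F.K) // x.1 * (x.2.1 * kir s t x.2.2 + kir σ τ x.2.2) +
        x.2.1 * kir σ τ x.2.2 = 0} :=
    { toFun := fun y => ⟨(y.1 none, y.1 (some none), (y.1 ∘ some) ∘ some), by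
        have := y.2
        rwa [hG2] at this⟩
      invFun := fun x => ⟨fun o => o.elim x.1.1 (fun o' => o'.elim x.1.2.1 x.1.2.2), by
        rw [hG2]
        exact x.2⟩
      left_inv := fun y => Subtype.ext (by
        funext o
        rcases o with _ | (_ | e) <;> rfl)
      right_inv := fun x => rfl }
  let e1 : {y : Option E → F.K // kir (ae none σ) (ae (some v) τ) y = 0} ≃
      {x : F.K × (E → F.K) // x.1 * kir s t x.2 + kir σ τ x.2 = 0} :=
    { toFun := fun y => ⟨(y.1 none, y.1 ∘ some), by
        have := y.2
        rwa [hG1] at this⟩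
      invFun := fun x => ⟨fun o => o.elim x.1.1 x.1.2, by
        rw [hG1]
        exact x.2⟩
      left_inv := fun y => Subtype.ext (by
        funext o
        rcases o with _ | e <;> rfl)
      right_inv := fun x => rfl }
  have hq : F.q = (Nat.card F.K : ℤ) := rfl
  have hX : (Nat.card (E → F.K) : ℤ) = F.q ^ Fintype.card E := by
    rw [Nat.card_fun, hq, Nat.card_eq_fintype_card (α := E)]
    push_cast
    rfl
  have k2 : nk (ae (some none) (ae none (some ∘ σ))) (ae none (ae (some (some v)) (some ∘ τ))) F =
      (Nat.card {x : F.K × F.K × (E → F.K) // x.1 * (x.2.1 * kir s t x.2.2 + kir σ τ x.2.2) +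
        x.2.1 * kir σ τ x.2.2 = 0} : ℤ) := by
    unfold nk NK
    rw [Nat.card_congr e2]
  have k1 : nk (ae none σ) (ae (some v) τ) F =
      (Nat.card {x : F.K × (E → F.K) // x.1 * kir s t x.2 + kir σ τ x.2 = 0} : ℤ) := by
    unfold nk NK
    rw [Nat.card_congr e1]
  have k3 : nk s t F = (Nat.card {x : E → F.K // kir s t x = 0} : ℤ) := rfl
  have k4 : nk σ τ F = (Nat.card {x : E → F.K // kir σ τ x = 0} : ℤ) := rfl
  rw [k1, k2, k3, k4, ← hX, hq]
  linarith [hc]

end Pool.Agent.KGU
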