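import Pool.Agent.KGU.UStep

/-! # Adding a vertex: the sum over all matrices with the given pattern -/

set_option autoImplicit false

open scoped BigOperators Matrix

namespace Pool.Agent.KGU

open Pool.Agent.KG

/-- PROOF: `M' ↦ ((M' (some i) (some j))_(i,j), (M' (some i) none)_i, M' none none)` is a bijection from the
matrices with pattern `addV H A` to the triples `(M, u, d)`, `M` with pattern `H` and `u` supported on `A`, with
inverse `bord`. -/
theorem pat_addV {V K : Type} [Field K] (H : SimpleGraph V) (A : Set V) :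
    ∃ e : {M' : Matrix (Option V) (Option V) K // Pat (addV H A) M'} ≃
      {x : Matrix V V K × (V → K) × K // Pat H x.1 ∧ ∀ i, i ∉ A → x.2.1 i = 0},
      ∀ M', M'.1 = bord (e M').1.1 (e M').1.2.1 (e M').1.2.2 := by
  have hb : ∀ M' : Matrix (Option V) (Option V) K, Pat (addV H A) M' →
      M' = bord (fun i j => M' (some i) (some j)) (fun i => M' (some i) none) (M' none none) := by
    intro M' h
    ext x y
    rcases x with _ | i <;> rcases y with _ | j
    · rfl
    · exact h.1.apply _ _
    · rfl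
    · rfl
  refine ⟨{
    toFun := fun M' => ⟨(fun i j => M'.1 (some i) (some j), fun i => M'.1 (some i) none,
      M'.1 none none), ⟨?_, ?_⟩, ?_⟩
    invFun := fun x => ⟨bord x.1.1 x.1.2.1 x.1.2.2, ?_, ?_⟩
    left_inv := ?_
    right_inv := ?_ }, ?_⟩
  · ext i j
    exact M'.2.1.apply _ _
  · intro i j hij hH
    exact M'.2.2 (some i) (some j) (fun h => hij (Option.some.inj h)) hH
  · intro i hi
    exact M'.2.2 (some i) none (by simp) hi
  · ext x' y'
    rcases x' with _ | i <;> rcases y' with _ | j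
    · rfl
    · rfl
    · rfl
    · exact x.2.1.1.apply _ _
  · intro x' y' hxy hH
    rcases x' with _ | i <;> rcases y' with _ | j
    · exact absurd rfl hxy
    · exact x.2.2 j hH
    · exact x.2.2 i hH
    · exact x.2.1.2 i j (fun h => hxy (congrArg some h)) hH
  · intro M'
    exact Subtype.ext (hb M'.1 M'.2).symm
  · intro x
    rfl
  · intro M'
    exact hb M'.1 M'.2

private theorem NTF_split {V : Type} [Fintype V] (H : SimpleGraph V) (A : Set V) (F : FinField)
    [Fintype {M : Matrix V V F.K // Pat H M}]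
    (Q : Matrix (Option V) (Option V) F.K → Prop) :
    (Nat.card {M' : Matrix (Option V) (Option V) F.K // Pat (addV H A) M' ∧ Q M'} : ℤ) =
      ∑ M : {M : Matrix V V F.K // Pat H M},
        (Nat.card {x : (V → F.K) × F.K // (∀ i, i ∉ A → x.1 i = 0) ∧ Q (bord M.1 x.1 x.2)} : ℤ) := by
  classical
  obtain ⟨e, he⟩ := pat_addV (K := F.K) H A
  have e1 : {M' : Matrix (Option V) (Option V) F.K // Pat (addV H A) M' ∧ Q M'} ≃
      (M : {M : Matrix V V F.K // Pat H M}) ×
        {x : (V → F.K) × F.K // (∀ i, i ∉ A → x.1 i = 0) ∧ Q (bord M.1 x.1 x.2)} := {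
    toFun := fun M' => ⟨⟨(e ⟨M'.1, M'.2.1⟩).1.1, (e ⟨M'.1, M'.2.1⟩).2.1⟩,
      ⟨(e ⟨M'.1, M'.2.1⟩).1.2, (e ⟨M'.1, M'.2.1⟩).2.2, by
        have := he ⟨M'.1, M'.2.1⟩
        rw [← this]
        exact M'.2.2⟩⟩
    invFun := fun y => ⟨(e.symm ⟨(y.1.1, y.2.1), y.1.2, y.2.2.1⟩).1,
      (e.symm ⟨(y.1.1, y.2.1), y.1.2, y.2.2.1⟩).2, by
        have := he (e.symm ⟨(y.1.1, y.2.1), y.1.2, y.2.2.1⟩)
        rw [Equiv.apply_symm_apply] at this
        rw [this]
        exact y.2.2.2⟩
    left_inv := by
      rintro ⟨M', h1, h2⟩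
      apply Subtype.ext
      show (e.symm _).1 = M'
      have : e.symm (e ⟨M', h1⟩) = ⟨M', h1⟩ := Equiv.symm_apply_apply _ _
      exact congrArg Subtype.val this
    right_inv := by
      rintro ⟨⟨M, hM⟩, ⟨x, hx1, hx2⟩⟩
      have : e (e.symm ⟨(M, x), hM, hx1⟩) = ⟨(M, x), hM, hx1⟩ := Equiv.apply_symm_apply _ _
      have h1 : (e (e.symm ⟨(M, x), hM, hx1⟩)).1.1 = M := by rw [this]
      have h2 : (e (e.symm ⟨(M, x), hM, hx1⟩)).1.2 = x := by rw [this]
      refine Sigma.ext (Subtype.ext h1) ((Subtype.heq_iff_coe_eq fun y => ?_).2 h2)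
      have h3 : (e (e.symm ⟨(M, x), hM, hx1⟩)).1.1 = M := h1
      simp only [h3]
      }
  rw [Nat.card_congr e1, Nat.card_sigma]
  push_cast
  rfl

private theorem NTF_sum {V : Type} [Fintype V] (H : SimpleGraph V) (b : Set V) (F : FinField)
    [Fintype {M : Matrix V V F.K // Pat H M}] (t s : ℕ) (c : ℤ) :
    (∑ M : {M : Matrix V V F.K // Pat H M}, open Classical in
      (if Module.finrank F.K (K0 M.1 b) = t ∧
        Module.finrank F.K (K0 M.1 ∅) - Module.finrank F.K (K0 M.1 b) = s then c else 0)) =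
      c * NT H b t s F := by
  classical
  have h1 : NT H b t s F = ∑ M : {M : Matrix V V F.K // Pat H M},
      if Module.finrank F.K (K0 M.1 b) = t ∧
        Module.finrank F.K (K0 M.1 ∅) - Module.finrank F.K (K0 M.1 b) = s then (1 : ℤ) else 0 := by
    have e1 : {M : Matrix V V F.K // Pat H M ∧ Module.finrank F.K (K0 M b) = t ∧
        Module.finrank F.K (K0 M ∅) = t + s} ≃
        {M : {M : Matrix V V F.K // Pat H M} // Module.finrank F.K (K0 M.1 b) = t ∧
          Module.finrank F.K (K0 M.1 ∅) - Module.finrank F.K (K0 M.1 b) = s} :=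
      (Equiv.subtypeSubtypeEquivSubtypeInter (fun M : Matrix V V F.K => Pat H M)
        (fun M => Module.finrank F.K (K0 M b) = t ∧ Module.finrank F.K (K0 M ∅) = t + s)).symm.trans
        (Equiv.subtypeEquivRight fun M => by
          have := K0_le M.1 b
          omega)
    show (Nat.card _ : ℤ) = _
    rw [Nat.card_congr e1, Nat.card_eq_fintype_card, Fintype.card_subtype, Finset.card_filter]
    push_cast
    rfl
  rw [h1, Finset.mul_sum]
  refine Finset.sum_congr rfl fun M _ => ?_
  split_ifs <;> simp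

/-- PROOF: split the set of the matrices `M'` counted on the left by the first component `M` of
`pat_addV H Set.univ`, and this by the type `(τ, ρ)` of `M` (`K0_le`), and use `step_full`: the total over `M` of
the four terms of `step_full` is the right side. -/
theorem NT_full {V : Type} [Fintype V] (H : SimpleGraph V) (b : Set V) (t r : ℕ) (F : FinField) :
    F.q ^ (t + r + 1) * NT (addV H Set.univ) (bplus b) t r F =
      F.q ^ (Fintype.card V + 2) * (if r = 0 then 0 else NT H b t (r - 1) F) +
      (F.q - 1) * F.q ^ (Fintype.card V + 1) * NT H b t r F +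
      (F.q ^ (Fintype.card V + r + 2) - F.q ^ (Fintype.card V + 1)) * NT H b t (r + 1) F +
      (F.q ^ (Fintype.card V + t + r + 2) - F.q ^ (Fintype.card V + r + 1)) * NT H b (t + 1) r F := by
  classical
  have : Fintype {M : Matrix V V F.K // Pat H M} := Fintype.ofFinite _
  have h0 : NT (addV H Set.univ) (bplus b) t r F = _ :=
    NTF_split H Set.univ F (fun M' => Module.finrank F.K (K0 M' (bplus b)) = t ∧
      Module.finrank F.K (K0 M' ∅) = t + r)
  have h1 : ∀ M : {M : Matrix V V F.K // Pat H M},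
      F.q ^ (t + r + 1) * (Nat.card {x : (V → F.K) × F.K // (∀ i, i ∉ (Set.univ : Set V) → x.1 i = 0) ∧
        Module.finrank F.K (K0 (bord M.1 x.1 x.2) (bplus b)) = t ∧
        Module.finrank F.K (K0 (bord M.1 x.1 x.2) ∅) = t + r} : ℤ) =
      (if Module.finrank F.K (K0 M.1 b) = t ∧
        Module.finrank F.K (K0 M.1 ∅) - Module.finrank F.K (K0 M.1 b) = r - 1 then
          (if r = 0 then 0 else F.q ^ (Fintype.card V + 2)) else 0) +
      (if Module.finrank F.K (K0 M.1 b) = t ∧
        Module.finrank F.K (K0 M.1 ∅) - Module.finrank F.K (K0 M.1 b) = r then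
          ((F.q - 1) * F.q ^ (Fintype.card V + 1)) else 0) +
      (if Module.finrank F.K (K0 M.1 b) = t ∧
        Module.finrank F.K (K0 M.1 ∅) - Module.finrank F.K (K0 M.1 b) = r + 1 then
          (F.q ^ (Fintype.card V + r + 2) - F.q ^ (Fintype.card V + 1)) else 0) +
      (if Module.finrank F.K (K0 M.1 b) = t + 1 ∧
        Module.finrank F.K (K0 M.1 ∅) - Module.finrank F.K (K0 M.1 b) = r then
          (F.q ^ (Fintype.card V + t + r + 2) - F.q ^ (Fintype.card V + r + 1)) else 0) := by
    intro M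
    have h2 := step_full M.1 M.2.1 b _ (Module.finrank F.K (K0 M.1 ∅) -
      Module.finrank F.K (K0 M.1 b)) rfl (by have := K0_le M.1 b; omega) t r
    have h3 : Nat.card {x : (V → F.K) × F.K // (∀ i, i ∉ (Set.univ : Set V) → x.1 i = 0) ∧
        Module.finrank F.K (K0 (bord M.1 x.1 x.2) (bplus b)) = t ∧
        Module.finrank F.K (K0 (bord M.1 x.1 x.2) ∅) = t + r} =
        Nat.card {x : (V → F.K) × F.K // Module.finrank F.K (K0 (bord M.1 x.1 x.2) (bplus b)) = t ∧
          Module.finrank F.K (K0 (bord M.1 x.1 x.2) ∅) = t + r} :=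
      Nat.card_congr (Equiv.subtypeEquivRight fun x =>
        ⟨fun h => h.2, fun h => ⟨fun i hi => absurd (Set.mem_univ i) hi, h⟩⟩)
    rw [h3, mul_comm]
    refine h2.trans ?_
    congr 1
    congr 1
    congr 1
    by_cases hr : r = 0
    · rw [if_neg (by omega : ¬ _), if_pos hr]
      simp
    · rw [if_neg hr]
      exact if_congr (by omega) rfl rfl
  rw [h0, Finset.mul_sum, Finset.sum_congr rfl fun M _ => h1 M, Finset.sum_add_distrib,
    Finset.sum_add_distrib, Finset.sum_add_distrib]
  congr 1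
  · congr 1
    · congr 1
      · refine (NTF_sum H b F t (r - 1) _).trans ?_
        split_ifs <;> simp
      · exact NTF_sum H b F t r _
    · exact NTF_sum H b F t (r + 1) _
  · exact NTF_sum H b F (t + 1) r _

/-- PROOF: as for `NT_full`, with `pat_addV H b` and `step_part`. -/
theorem NT_part {V : Type} [Fintype V] (H : SimpleGraph V) (b : Set V) (t r : ℕ) (F : FinField) :
    F.q ^ (r + 1) * NT (addV H b) (bplus b) t r F =
      F.q ^ (b.ncard + 2) * (if r = 0 then 0 else NT H b t (r - 1) F) +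
      (F.q - 1) * F.q ^ (b.ncard + 1) * NT H b t r F +
      (F.q ^ (b.ncard + r + 2) - F.q ^ (b.ncard + 1)) * NT H b t (r + 1) F := by
  classical
  have : Fintype {M : Matrix V V F.K // Pat H M} := Fintype.ofFinite _
  have h0 : NT (addV H b) (bplus b) t r F = _ :=
    NTF_split H b F (fun M' => Module.finrank F.K (K0 M' (bplus b)) = t ∧
      Module.finrank F.K (K0 M' ∅) = t + r)
  have h1 : ∀ M : {M : Matrix V V F.K // Pat H M},
      F.q ^ (r + 1) * (Nat.card {x : (V → F.K) × F.K // (∀ i, i ∉ b → x.1 i = 0) ∧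
        Module.finrank F.K (K0 (bord M.1 x.1 x.2) (bplus b)) = t ∧
        Module.finrank F.K (K0 (bord M.1 x.1 x.2) ∅) = t + r} : ℤ) =
      (if Module.finrank F.K (K0 M.1 b) = t ∧
        Module.finrank F.K (K0 M.1 ∅) - Module.finrank F.K (K0 M.1 b) = r - 1 then
          (if r = 0 then 0 else F.q ^ (b.ncard + 2)) else 0) +
      (if Module.finrank F.K (K0 M.1 b) = t ∧
        Module.finrank F.K (K0 M.1 ∅) - Module.finrank F.K (K0 M.1 b) = r then
          ((F.q - 1) * F.q ^ (b.ncard + 1)) else 0) +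
      (if Module.finrank F.K (K0 M.1 b) = t ∧
        Module.finrank F.K (K0 M.1 ∅) - Module.finrank F.K (K0 M.1 b) = r + 1 then
          (F.q ^ (b.ncard + r + 2) - F.q ^ (b.ncard + 1)) else 0) := by
    intro M
    have h2 := step_part M.1 M.2.1 b _ (Module.finrank F.K (K0 M.1 ∅) -
      Module.finrank F.K (K0 M.1 b)) rfl (by have := K0_le M.1 b; omega) t r
    rw [mul_comm]
    refine h2.trans ?_
    congr 1
    congr 1
    by_cases hr : r = 0
    · rw [if_neg (by omega : ¬ _), if_pos hr]
      simp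
    · rw [if_neg hr]
      exact if_congr (by omega) rfl rfl
  rw [h0, Finset.mul_sum, Finset.sum_congr rfl fun M _ => h1 M, Finset.sum_add_distrib,
    Finset.sum_add_distrib]
  congr 1
  · congr 1
    · refine (NTF_sum H b F t (r - 1) _).trans ?_
      split_ifs <;> simp
    · exact NTF_sum H b F t r _
  · exact NTF_sum H b F t (r + 1) _

end Pool.Agent.KGU
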