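import Pool.Agent.KGU.UDefs

/-! # The kernel of a bordered symmetric matrix -/

set_option autoImplicit false

open scoped BigOperators Matrix

namespace Pool.Agent.KGU

open Pool.Agent.KG

variable {V K : Type} [Fintype V] [Field K]

private theorem mem_K0 {M : Matrix V V K} {b : Set V} {x : V → K} :
    x ∈ K0 M b ↔ M *ᵥ x = 0 ∧ ∀ i ∈ b, x i = 0 := Iff.rfl

private theorem bord_none (M : Matrix V V K) (u : V → K) (d : K) (z : Option V → K) :
    (bord M u d *ᵥ z) none = d * z none + u ⬝ᵥ fun i => z (some i) := by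
  show ∑ o, bord M u d none o * z o = _
  rw [Fintype.sum_option]
  rfl

private theorem bord_some (M : Matrix V V K) (u : V → K) (d : K) (z : Option V → K) (i : V) :
    (bord M u d *ᵥ z) (some i) = u i * z none + (M *ᵥ fun i => z (some i)) i := by
  show ∑ o, bord M u d (some i) o * z o = _
  rw [Fintype.sum_option]
  rfl

private def emb : (V → K) →ₗ[K] (Option V → K) where
  toFun x := fun o => o.elim 0 x
  map_add' x y := by
    funext o
    cases o with
    | none => exact (add_zero (0 : K)).symm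
    | some i => rfl
  map_smul' c x := by
    funext o
    cases o with
    | none => exact (mul_zero c).symm
    | some i => rfl

private theorem emb_inj : Function.Injective (emb : (V → K) →ₗ[K] (Option V → K)) := by
  intro x y h
  funext i
  exact congrFun h (some i)

private def dotu (u : V → K) : (V → K) →ₗ[K] K where
  toFun x := u ⬝ᵥ x
  map_add' x y := dotProduct_add _ _ _
  map_smul' c x := dotProduct_smul _ _ _

private theorem dotu_apply (u x : V → K) : dotu u x = u ⬝ᵥ x := rfl

private theorem rank_one (N : Submodule K (V → K)) (φ : (V → K) →ₗ[K] K) (h : ∃ x ∈ N, φ x ≠ 0) :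
    Module.finrank K (N ⊓ LinearMap.ker φ : Submodule K (V → K)) + 1 = Module.finrank K N := by
  obtain ⟨x, hx, hne⟩ := h
  have h1 := (φ.domRestrict N).finrank_range_add_finrank_ker
  have h2 : LinearMap.range (φ.domRestrict N) = ⊤ := by
    rw [LinearMap.range_eq_top]
    intro c
    refine ⟨(c * (φ x)⁻¹) • ⟨x, hx⟩, ?_⟩
    rw [map_smul, smul_eq_mul, LinearMap.domRestrict_apply, mul_assoc, inv_mul_cancel₀ hne, mul_one]
  have h3 : (LinearMap.ker (φ.domRestrict N)).map N.subtype = N ⊓ LinearMap.ker φ := by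
    ext y
    constructor
    · rintro ⟨⟨z, hz⟩, hz2, rfl⟩
      exact ⟨hz, hz2⟩
    · rintro ⟨hy, hy2⟩
      exact ⟨⟨y, hy⟩, hy2, rfl⟩
  rw [h2, finrank_top, Module.finrank_self] at h1
  rw [← h3, Submodule.finrank_map_subtype_eq, add_comm]
  exact h1

private theorem map_emb (M : Matrix V V K) (u : V → K) (d : K) (b : Set V) (b' : Set (Option V))
    (hb : ∀ i, some i ∈ b' ↔ i ∈ b) (h0 : ∀ z ∈ K0 (bord M u d) b', z none = 0) :
    K0 (bord M u d) b' = (K0 M b ⊓ LinearMap.ker (dotu u)).map emb := by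
  ext z
  constructor
  · intro hz
    have hz0 := h0 z hz
    obtain ⟨h1, h2⟩ := mem_K0.1 hz
    refine ⟨fun i => z (some i), ⟨mem_K0.2 ⟨?_, fun i hi => h2 _ ((hb i).2 hi)⟩, ?_⟩, ?_⟩
    · funext i
      have h3 := congrFun h1 (some i)
      rw [bord_some, hz0, mul_zero, zero_add] at h3
      exact h3
    · have h3 := congrFun h1 none
      rw [bord_none, hz0, mul_zero, zero_add] at h3
      exact h3
    · funext o
      cases o with
      | none => exact hz0.symm
      | some i => rfl
  · rintro ⟨x, ⟨hx, hx2⟩, rfl⟩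
    have hx2' : u ⬝ᵥ x = 0 := hx2
    obtain ⟨h1, h2⟩ := mem_K0.1 hx
    refine mem_K0.2 ⟨?_, fun o ho => ?_⟩
    · funext o
      cases o with
      | none =>
        rw [bord_none]
        show d * 0 + u ⬝ᵥ x = 0
        rw [hx2', mul_zero, zero_add]
      | some i =>
        rw [bord_some]
        show u i * 0 + (M *ᵥ x) i = 0
        rw [h1, mul_zero, zero_add]
        rfl
    · cases o with
      | none => rfl
      | some i => exact h2 i ((hb i).1 ho)

private theorem rank_emb (N : Submodule K (V → K)) :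
    Module.finrank K (N.map (emb : (V → K) →ₗ[K] (Option V → K))) = Module.finrank K N :=
  (Submodule.equivMapOfInjective emb emb_inj N).finrank_eq.symm

/-- PROOF: `bplus b` contains the new vertex, so the vectors of `K0 (bord M u d) (bplus b)` are the vectors
`(0, x)` (value `0` at `none`) with `x` in `K0 M b` and `u ⬝ x = 0` (row `none`). If `u` is orthogonal to
`K0 M b`, this is all of `K0 M b`. -/
theorem bord_t0 (M : Matrix V V K) (u : V → K) (d : K) (b : Set V)
    (h : ∀ x ∈ K0 M b, u ⬝ᵥ x = 0) :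
    Module.finrank K (K0 (bord M u d) (bplus b)) = Module.finrank K (K0 M b) := by
  have hb : ∀ i, some i ∈ bplus b ↔ i ∈ b := fun i => by simp [bplus]
  have h0 : ∀ z ∈ K0 (bord M u d) (bplus b), z none = 0 := fun z hz =>
    (mem_K0.1 hz).2 none (Set.mem_insert _ _)
  rw [map_emb M u d b (bplus b) hb h0, rank_emb]
  have h1 : K0 M b ⊓ LinearMap.ker (dotu u) = K0 M b := inf_eq_left.2 fun x hx => h x hx
  rw [h1]

/-- PROOF: as for `bord_t0`; now the functional `u ⬝ᵥ ·` on `K0 M b` is not zero, so its kernel has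
dimension one less. -/
theorem bord_t1 (M : Matrix V V K) (u : V → K) (d : K) (b : Set V)
    (h : ∃ x ∈ K0 M b, u ⬝ᵥ x ≠ 0) :
    Module.finrank K (K0 (bord M u d) (bplus b)) + 1 = Module.finrank K (K0 M b) := by
  have hb : ∀ i, some i ∈ bplus b ↔ i ∈ b := fun i => by simp [bplus]
  have h0 : ∀ z ∈ K0 (bord M u d) (bplus b), z none = 0 := fun z hz =>
    (mem_K0.1 hz).2 none (Set.mem_insert _ _)
  rw [map_emb M u d b (bplus b) hb h0, rank_emb]
  exact rank_one _ _ h

/-- PROOF: let `(y, x)` be in the kernel of the bordered matrix (`y` the value at `none`): `M x + y u = 0` and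
`u ⬝ x + d y = 0`. Take `z` in `ker M` with `u ⬝ z ≠ 0`. Then `0 = z ⬝ (M x + y u) = (M z) ⬝ x + y (z ⬝ u)` (`M` is
symmetric), so `y = 0`, `x` is in `ker M` and `u ⬝ x = 0`. So the kernel is isomorphic to the kernel of the nonzero
functional `u ⬝ᵥ ·` on `ker M`. -/
theorem bord_c1 (M : Matrix V V K) (hM : M.IsSymm) (u : V → K) (d : K)
    (h : ∃ x ∈ K0 M ∅, u ⬝ᵥ x ≠ 0) :
    Module.finrank K (K0 (bord M u d) ∅) + 1 = Module.finrank K (K0 M ∅) := by
  obtain ⟨z, hz, hne⟩ := h
  have h0 : ∀ y ∈ K0 (bord M u d) ∅, y none = 0 := by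
    intro y hy
    obtain ⟨h1, _⟩ := mem_K0.1 hy
    have h2 : M *ᵥ (fun i => y (some i)) = - (y none • u) := by
      funext i
      have h3 := congrFun h1 (some i)
      rw [bord_some] at h3
      rw [Pi.neg_apply, Pi.smul_apply, smul_eq_mul]
      have h4 : u i * y none + (M *ᵥ fun i => y (some i)) i = 0 := h3
      linear_combination h4
    have h5 : z ⬝ᵥ (M *ᵥ (fun i => y (some i))) = 0 := by
      rw [Matrix.dotProduct_mulVec, ← Matrix.mulVec_transpose, hM.eq, (mem_K0.1 hz).1,
        zero_dotProduct]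
    rw [h2, dotProduct_neg, dotProduct_smul, smul_eq_mul, neg_eq_zero, dotProduct_comm] at h5
    exact (mul_eq_zero.1 h5).resolve_right hne
  rw [map_emb M u d ∅ ∅ (fun i => Iff.rfl) h0, rank_emb]
  exact rank_one _ _ ⟨z, hz, hne⟩

/-- PROOF: `u` is orthogonal to `ker M`; as `M` is symmetric, `u` is in the image of `M`: there is `x0` with
`M x0 = -u` (the image of `M` is contained in the orthogonal complement of `ker M` and has the same
dimension). Let `d0 = -(u ⬝ x0)`. A vector `(y, x)` is in the kernel of the bordered matrix iff `x - y x0` is in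
`ker M` and `u ⬝ x + d y = 0`, and then `u ⬝ x = y (u ⬝ x0) = -y d0`, so the second condition is `y (d - d0) = 0`.
If `d ≠ d0` this means `y = 0` and the kernel is isomorphic to `ker M`; if `d = d0` it is isomorphic to
`K × ker M`, by `(y, z) ↦ (y, y x0 + z)`. -/
theorem bord_c0 (M : Matrix V V K) (hM : M.IsSymm) (u : V → K) (h : ∀ x ∈ K0 M ∅, u ⬝ᵥ x = 0) :
    ∃ d0 : K, (Module.finrank K (K0 (bord M u d0) ∅) = Module.finrank K (K0 M ∅) + 1) ∧
      ∀ d, d ≠ d0 → Module.finrank K (K0 (bord M u d) ∅) = Module.finrank K (K0 M ∅) := by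
  classical
  obtain ⟨w, hw⟩ : ∃ w, M *ᵥ w = u := by
    have h1 : dotu u ∈ (LinearMap.ker M.mulVecLin).dualAnnihilator := by
      rw [Submodule.mem_dualAnnihilator]
      intro x hx
      exact h x (mem_K0.2 ⟨hx, fun i hi => absurd hi (Set.notMem_empty i)⟩)
    rw [← LinearMap.range_dualMap_eq_dualAnnihilator_ker] at h1
    obtain ⟨ψ, hψ⟩ := h1
    refine ⟨fun i => ψ (Pi.single i 1), ?_⟩
    have h2 : ∀ y : V → K, ψ y = (fun i => ψ (Pi.single i 1)) ⬝ᵥ y := by
      intro y
      conv_lhs => rw [pi_eq_sum_univ' y]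
      rw [map_sum]
      refine Finset.sum_congr rfl fun i _ => ?_
      rw [map_smul, smul_eq_mul, mul_comm]
    funext i
    have h3 : ψ (M *ᵥ Pi.single i 1) = u ⬝ᵥ Pi.single i 1 := by
      have := LinearMap.congr_fun hψ (Pi.single i 1)
      exact this
    rw [h2, dotProduct_single, mul_one, Matrix.dotProduct_mulVec, dotProduct_single, mul_one,
      ← Matrix.mulVec_transpose, hM.eq] at h3
    exact h3
  have hker : ∀ y ∈ K0 M ∅, u ⬝ᵥ y = 0 := h
  have hinf : K0 M ∅ ⊓ LinearMap.ker (dotu u) = K0 M ∅ := inf_eq_left.2 fun x hx => h x hx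
  have hkey : ∀ d, ∀ z ∈ K0 (bord M u d) ∅, ((fun i => z (some i)) + z none • w ∈ K0 M ∅) ∧
      z none * (d - u ⬝ᵥ w) = 0 := by
    intro d z hz
    obtain ⟨h1, _⟩ := mem_K0.1 hz
    have h2 : (fun i => z (some i)) + z none • w ∈ K0 M ∅ := by
      refine mem_K0.2 ⟨?_, fun i hi => absurd hi (Set.notMem_empty i)⟩
      rw [Matrix.mulVec_add, Matrix.mulVec_smul, hw]
      funext i
      have h3 := congrFun h1 (some i)
      rw [bord_some] at h3
      have h4 : u i * z none + (M *ᵥ fun i => z (some i)) i = 0 := h3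
      rw [Pi.add_apply, Pi.smul_apply, Pi.zero_apply, smul_eq_mul]
      linear_combination h4
    refine ⟨h2, ?_⟩
    have h3 := h _ h2
    rw [dotProduct_add, dotProduct_smul, smul_eq_mul] at h3
    have h4 := congrFun h1 none
    rw [bord_none] at h4
    have h5 : d * z none + u ⬝ᵥ (fun i => z (some i)) = 0 := h4
    linear_combination h5 - h3
  refine ⟨u ⬝ᵥ w, ?_, fun d hd => ?_⟩
  · let v0 : Option V → K := fun o => o.elim 1 (-w)
    have hv0 : v0 ∈ K0 (bord M u (u ⬝ᵥ w)) ∅ := by
      refine mem_K0.2 ⟨?_, fun i hi => absurd hi (Set.notMem_empty i)⟩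
      funext o
      cases o with
      | none =>
        rw [bord_none]
        show (u ⬝ᵥ w) * 1 + u ⬝ᵥ (-w) = 0
        rw [dotProduct_neg]
        ring
      | some i =>
        rw [bord_some]
        show u i * 1 + (M *ᵥ (-w)) i = 0
        rw [Matrix.mulVec_neg, hw, Pi.neg_apply]
        ring
    let ev : (Option V → K) →ₗ[K] K := LinearMap.proj none
    have hr := rank_one (V := Option V) (K0 (bord M u (u ⬝ᵥ w)) ∅) ev ⟨v0, hv0, one_ne_zero⟩
    rw [← hr]
    congr 1
    have h6 : K0 (bord M u (u ⬝ᵥ w)) ∅ ⊓ LinearMap.ker ev = (K0 M ∅).map emb := by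
      have h7 : K0 (bord M u (u ⬝ᵥ w)) ∅ ⊓ LinearMap.ker ev =
          K0 (bord M u (u ⬝ᵥ w)) {none} := by
        ext z
        constructor
        · rintro ⟨h8, h9⟩
          refine mem_K0.2 ⟨(mem_K0.1 h8).1, fun i hi => ?_⟩
          rw [Set.mem_singleton_iff.1 hi]
          exact h9
        · intro h8
          exact ⟨mem_K0.2 ⟨(mem_K0.1 h8).1, fun i hi => absurd hi (Set.notMem_empty i)⟩,
            (mem_K0.1 h8).2 none rfl⟩
      rw [h7, map_emb M u (u ⬝ᵥ w) ∅ {none} (fun i => by simp)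
        (fun z hz => (mem_K0.1 hz).2 none rfl), hinf]
    rw [h6, rank_emb]
  · have h0 : ∀ z ∈ K0 (bord M u d) ∅, z none = 0 := fun z hz =>
      (mul_eq_zero.1 (hkey d z hz).2).resolve_right (sub_ne_zero.2 hd)
    rw [map_emb M u d ∅ ∅ (fun i => Iff.rfl) h0, rank_emb, hinf]

end Pool.Agent.KGU
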