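import Pool.Agent.KGU.USp

/-! # Patterned symmetric matrices and cones -/

set_option autoImplicit false

open scoped BigOperators Matrix

namespace Pool.Agent.KGU

open Pool.Agent.KG

/-- the matrices with pattern `H` -/
private noncomputable def patEquiv {V K : Type} [Field K] (H : SimpleGraph V) :
    (V ⊕ H.edgeSet → K) ≃ {M : Matrix V V K // Pat H M} := by
  classical
  exact
  { toFun := fun y => ⟨fun i j => if i = j then y (Sum.inl i) else
      if h : H.Adj i j then y (Sum.inr ⟨s(i, j), h⟩) else 0, by
        refine ⟨?_, fun i j hij h => ?_⟩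
        · ext i j
          show (if j = i then y (Sum.inl j) else
            if h : H.Adj j i then y (Sum.inr ⟨s(j, i), h⟩) else 0) =
            if i = j then y (Sum.inl i) else if h : H.Adj i j then y (Sum.inr ⟨s(i, j), h⟩) else 0
          by_cases hij : i = j
          · subst hij
            rfl
          · by_cases h : H.Adj i j
            · have h' : H.Adj j i := h.symm
              simp only [if_neg hij, if_neg (Ne.symm hij), dif_pos h, dif_pos h']
              congr 2
              exact Subtype.ext Sym2.eq_swap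
            · have h' : ¬ H.Adj j i := fun h2 => h h2.symm
              simp only [if_neg hij, if_neg (Ne.symm hij), dif_neg h, dif_neg h']
        · show (if i = j then y (Sum.inl i) else
            if h : H.Adj i j then y (Sum.inr ⟨s(i, j), h⟩) else 0) = 0
          rw [if_neg hij, dif_neg h]⟩
    invFun := fun M => Sum.elim (fun i => M.1 i i)
      (fun e => Sym2.lift ⟨fun i j => M.1 i j, fun i j => (M.2.1.apply i j).symm⟩ e.1)
    left_inv := fun y => by
      funext x
      rcases x with i | ⟨e, he⟩
      · show (if i = i then y (Sum.inl i) else _) = _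
        rw [if_pos rfl]
      · induction e using Sym2.ind with
        | _ i j =>
          have h : H.Adj i j := he
          show (if i = j then y (Sum.inl i) else
            if h : H.Adj i j then y (Sum.inr ⟨s(i, j), h⟩) else 0) = _
          rw [if_neg h.ne, dif_pos h]
    right_inv := fun M => by
      apply Subtype.ext
      funext i j
      show (if i = j then M.1 i i else if h : H.Adj i j then M.1 i j else 0) = M.1 i j
      split_ifs with h1 h2
      · rw [h1]
      · rfl
      · exact (M.2.2 i j h1 h2).symm }

/-- The number of matrices with pattern `H` is a power of `q`.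
PROOF: such a matrix is determined by its diagonal entries and by one entry for each edge of `H`, and these
are arbitrary; the exponent is `card V + number of edges`. -/
theorem pat_eq {V : Type} [Fintype V] (H : SimpleGraph V) : ∃ d : ℕ, ∀ F : FinField, pat H F = F.q ^ d := by
  classical
  refine ⟨Fintype.card (V ⊕ H.edgeSet), fun F => ?_⟩
  unfold pat FinField.q
  rw [← Nat.card_congr (patEquiv (K := F.K) H), Nat.card_fun, Nat.card_eq_fintype_card
    (α := V ⊕ H.edgeSet), Nat.cast_pow]

private noncomputable def cs {V : Type} (H : SimpleGraph V) : V ⊕ H.edgeSet → Option V :=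
  Sum.elim (fun _ => none) fun e => some (Quot.out e.1).1

private noncomputable def ct {V : Type} (H : SimpleGraph V) : V ⊕ H.edgeSet → Option V :=
  Sum.elim (fun v => some v) fun e => some (Quot.out e.1).2

private theorem inc_inl {V K : Type} [DecidableEq V] [Field K] (H : SimpleGraph V) (a v : V) :
    (inc (cs H) (ct H) (Sum.inl a) v : K) = if a = v then -1 else 0 := by
  unfold inc
  have h1 : cs H (Sum.inl a) = none := rfl
  have h2 : ct H (Sum.inl a) = some a := rfl
  rw [h1, h2]
  by_cases h : a = v
  · rw [if_neg (by simp), if_pos (by rw [h]), if_pos h, zero_sub]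
  · rw [if_neg (by simp), if_neg (fun h3 => h (Option.some.inj h3)), if_neg h, sub_zero]

private theorem inc_inr {V K : Type} [DecidableEq V] [Field K] (H : SimpleGraph V) (e : H.edgeSet)
    (w z : V) (hwz : w ≠ z) :
    (inc (cs H) (ct H) (Sum.inr e) w * inc (cs H) (ct H) (Sum.inr e) z : K) =
      if s(w, z) = e.1 then -1 else 0 := by
  obtain ⟨p, hp⟩ : ∃ p, p = (Quot.out e.1).1 := ⟨_, rfl⟩
  obtain ⟨q, hq⟩ : ∃ q, q = (Quot.out e.1).2 := ⟨_, rfl⟩
  have he : s(p, q) = e.1 := by
    rw [hp, hq]
    exact Quot.out_eq e.1
  have hadj : H.Adj p q := by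
    have := e.2
    rw [← he] at this
    exact this
  have hpq : p ≠ q := hadj.ne
  have h1 : cs H (Sum.inr e) = some p := by rw [hp]; rfl
  have h2 : ct H (Sum.inr e) = some q := by rw [hq]; rfl
  unfold inc
  rw [h1, h2, ← he]
  simp only [Option.some.injEq, Sym2.eq_iff]
  by_cases hpw : p = w
  · subst hpw
    have hqp : ¬ q = p := fun h => hpq h.symm
    have hpz : ¬ p = z := hwz
    by_cases hqz : q = z
    · subst hqz
      simp [hpq, hqp]
    · simp [hqp, hqz, hpz, Ne.symm hqz]
      tauto
  · by_cases hqw : q = w
    · subst hqw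
      have hqz : ¬ q = z := hwz
      by_cases hpz : p = z
      · subst hpz
        simp [hpq, hwz]
      · simp [hpq, hpz, hqz, Ne.symm hpz]
        tauto
    · simp only [if_neg hpw, if_neg hqw, sub_zero, zero_mul]
      rw [if_neg]
      rintro (⟨h3, _⟩ | ⟨h3, _⟩)
      · exact hpw h3.symm
      · exact hqw h3.symm

private theorem lap_off {V K : Type} [Fintype V] [DecidableEq V] [Field K] (H : SimpleGraph V)
    [Fintype H.edgeSet] (y : V ⊕ H.edgeSet → K) (w z : V) (hwz : w ≠ z) :
    lap (cs H) (ct H) y w z = ∑ e : H.edgeSet, y (Sum.inr e) * (if s(w, z) = e.1 then -1 else 0) := by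
  show ∑ e, y e * inc (cs H) (ct H) e w * inc (cs H) (ct H) e z = _
  rw [Fintype.sum_sum_type]
  rw [Finset.sum_eq_zero, zero_add]
  · refine Finset.sum_congr rfl fun e _ => ?_
    rw [mul_assoc, inc_inr H e w z hwz]
  · intro a _
    rw [inc_inl, inc_inl]
    by_cases h : a = w
    · rw [if_neg (fun h2 => hwz (h.symm.trans h2)), mul_zero]
    · rw [if_neg h, mul_zero, zero_mul]

private theorem lap_adj {V K : Type} [Fintype V] [DecidableEq V] [Field K] (H : SimpleGraph V)
    [Fintype H.edgeSet] (y : V ⊕ H.edgeSet → K) (w z : V) (h : H.Adj w z) :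
    lap (cs H) (ct H) y w z = - y (Sum.inr ⟨s(w, z), h⟩) := by
  rw [lap_off H y w z h.ne, Finset.sum_eq_single (⟨s(w, z), h⟩ : H.edgeSet)]
  · rw [if_pos rfl, mul_neg, mul_one]
  · intro e _ he
    rw [if_neg (fun h2 => he (Subtype.ext h2.symm)), mul_zero]
  · intro h2
    exact absurd (Finset.mem_univ _) h2

private theorem lap_pat {V K : Type} [Fintype V] [DecidableEq V] [Field K] (H : SimpleGraph V)
    [Fintype H.edgeSet] (y : V ⊕ H.edgeSet → K) : Pat H (lap (cs H) (ct H) y) := by
  refine ⟨?_, fun i j hij h => ?_⟩
  · ext i j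
    rw [Matrix.transpose_apply]
    show ∑ e, y e * inc (cs H) (ct H) e j * inc (cs H) (ct H) e i =
      ∑ e, y e * inc (cs H) (ct H) e i * inc (cs H) (ct H) e j
    exact Finset.sum_congr rfl fun e _ => by ring
  · rw [lap_off H y i j hij]
    refine Finset.sum_eq_zero fun e _ => ?_
    rw [if_neg, mul_zero]
    intro h2
    have := e.2
    rw [← h2] at this
    exact h this

private theorem lap_inj {V K : Type} [Fintype V] [DecidableEq V] [Field K] (H : SimpleGraph V)
    [Fintype H.edgeSet] (y y' : V ⊕ H.edgeSet → K)
    (h : lap (cs H) (ct H) y = lap (cs H) (ct H) y') : y = y' := by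
  have h1 : ∀ e : H.edgeSet, y (Sum.inr e) = y' (Sum.inr e) := by
    rintro ⟨e, he⟩
    induction e using Sym2.ind with
    | _ i j =>
      have hadj : H.Adj i j := he
      have h2 := congrFun (congrFun h i) j
      rw [lap_adj H y i j hadj, lap_adj H y' i j hadj] at h2
      exact neg_injective h2
  funext x
  rcases x with u | e
  · have h2 : ∑ e, y e * inc (cs H) (ct H) e u * inc (cs H) (ct H) e u =
      ∑ e, y' e * inc (cs H) (ct H) e u * inc (cs H) (ct H) e u := congrFun (congrFun h u) u
    rw [Fintype.sum_sum_type, Fintype.sum_sum_type] at h2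
    have h3 : ∑ e : H.edgeSet, y (Sum.inr e) * inc (cs H) (ct H) (Sum.inr e) u *
        inc (cs H) (ct H) (Sum.inr e) u = ∑ e : H.edgeSet, y' (Sum.inr e) *
        inc (cs H) (ct H) (Sum.inr e) u * inc (cs H) (ct H) (Sum.inr e) u :=
      Finset.sum_congr rfl fun e _ => by rw [h1]
    rw [h3] at h2
    have h4 := add_right_cancel h2
    have h5 : ∀ x : V ⊕ H.edgeSet → K, ∑ a, x (Sum.inl a) * inc (cs H) (ct H) (Sum.inl a) u *
        inc (cs H) (ct H) (Sum.inl a) u = x (Sum.inl u) := by
      intro x
      rw [Finset.sum_eq_single u]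
      · rw [inc_inl, if_pos rfl]
        ring
      · intro b _ hb
        rw [inc_inl, if_neg hb, mul_zero]
      · intro h6
        exact absurd (Finset.mem_univ _) h6
    rw [h5, h5] at h4
    exact h4
  · exact h1 e

/-- The pattern `H` as a reduced Laplacian of a cone. HYPOTHESIS `hdet` is a theorem of `KG/MTT.lean` (the
matrix tree theorem); it is a hypothesis here in order to make this module independent.
PROOF: edges `E = V ⊕ H.edgeSet`; `s (inl v) = none`, `t (inl v) = some v`; for an edge `e` of `H` take the
two components of `e.out` (`Quot.out`) for `s` and `t`. The matrix `M = lap s t y` is symmetric, has entry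
`-y_e` at the two positions of the edge `e = s(u,v)`, `u ≠ v`, entry `0` at the positions `u ≠ v` which are not
edges, and diagonal entry `y_(inl v) + ∑_(e ∋ v) y_e`. So `y ↦ lap s t y` is a bijection from `E → K` to the set
of the matrices with pattern `H`, and `kir s t y = 0` iff `det = 0` iff there is a nonzero vector in the kernel
(`Matrix.exists_mulVec_eq_zero_iff`). -/
theorem sing_eq {V : Type} [Fintype V] [DecidableEq V] (H : SimpleGraph V)
    (hdet : ∀ (E K : Type) [Fintype E] [Field K] (s t : E → Option V) (y : E → K),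
      kir s t y = (lap s t y).det) :
    ∃ (E : Type) (_ : Fintype E) (s t : E → Option V), ∀ F : FinField, sing H F = nk s t F := by
  classical
  refine ⟨V ⊕ H.edgeSet, inferInstance, cs H, ct H, fun F => ?_⟩
  unfold sing nk NK
  congr 1
  let Φ : (V ⊕ H.edgeSet → F.K) → {M : Matrix V V F.K // Pat H M} := fun y =>
    ⟨lap (cs H) (ct H) y, lap_pat H y⟩
  have hinj : Function.Injective Φ := fun y y' h => lap_inj H y y' (congrArg Subtype.val h)
  have hbij : Function.Bijective Φ := by
    refine (Nat.bijective_iff_injective_and_card Φ).2 ⟨hinj, Nat.card_congr (patEquiv H)⟩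
  let Ψ := Equiv.ofBijective Φ hbij
  symm
  refine Nat.card_congr ?_
  refine (Equiv.subtypeEquiv Ψ (q := fun M => ∃ x : V → F.K, x ≠ 0 ∧ M.1 *ᵥ x = 0)
    fun y => ?_).trans (Equiv.subtypeSubtypeEquivSubtypeInter (fun M : Matrix V V F.K => Pat H M)
      fun M => ∃ x : V → F.K, x ≠ 0 ∧ M *ᵥ x = 0)
  rw [hdet]
  exact Matrix.exists_mulVec_eq_zero_iff.symm

end Pool.Agent.KGU
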