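import Pool.Agent.KG.Defs
import Pool.Agent.HGC.Defs

/-!
# Universality of Kirchhoff polynomials: auxiliary definitions

Nothing in this file is used in the statement of the final theorems.
-/

set_option autoImplicit false

open scoped BigOperators Matrix

namespace Pool.Agent.KGU

open Pool.Agent.KG

/-- Symmetric matrices whose entries outside the diagonal and outside the edges of `H` are zero. -/
def Pat {V K : Type} [Zero K] (H : SimpleGraph V) (M : Matrix V V K) : Prop :=
  M.IsSymm ∧ ∀ i j, i ≠ j → ¬ H.Adj i j → M i j = 0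

/-- The vectors in the kernel of `M` which vanish on `b`. -/
def K0 {V K : Type} [Fintype V] [Field K] (M : Matrix V V K) (b : Set V) : Submodule K (V → K) where
  carrier := {x | M *ᵥ x = 0 ∧ ∀ i ∈ b, x i = 0}
  add_mem' := by
    rintro x y ⟨h1, h2⟩ ⟨h3, h4⟩
    refine ⟨by rw [Matrix.mulVec_add, h1, h3, add_zero], fun i hi => ?_⟩
    rw [Pi.add_apply, h2 i hi, h4 i hi, add_zero]
  zero_mem' := ⟨Matrix.mulVec_zero _, fun _ _ => rfl⟩
  smul_mem' := by
    rintro c x ⟨h1, h2⟩
    refine ⟨by rw [Matrix.mulVec_smul, h1, smul_zero], fun i hi => ?_⟩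
    rw [Pi.smul_apply, h2 i hi, smul_zero]

/-- The number of matrices with pattern `H`. -/
noncomputable def pat {V : Type} (H : SimpleGraph V) : FinField → ℤ :=
  fun F => (Nat.card {M : Matrix V V F.K // Pat H M} : ℤ)

/-- The number of singular matrices with pattern `H`. -/
noncomputable def sing {V : Type} [Fintype V] (H : SimpleGraph V) : FinField → ℤ :=
  fun F => (Nat.card {M : Matrix V V F.K // Pat H M ∧ ∃ x : V → F.K, x ≠ 0 ∧ M *ᵥ x = 0} : ℤ)

/-- The number of matrices with pattern `H` for which the kernel has dimension `t + r` and the vectors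
of the kernel which vanish on `b` form a space of dimension `t`. -/
noncomputable def NT {V : Type} [Fintype V] (H : SimpleGraph V) (b : Set V) (t r : ℕ) : FinField → ℤ :=
  fun F => (Nat.card {M : Matrix V V F.K // Pat H M ∧ Module.finrank F.K (K0 M b) = t ∧
    Module.finrank F.K (K0 M ∅) = t + r} : ℤ)

/-- Add a vertex `none` to `H`, joined to the vertices in `A`. -/
def addV {V : Type} (H : SimpleGraph V) (A : Set V) : SimpleGraph (Option V) where
  Adj x y := match x, y with
    | none, none => False
    | none, some j => j ∈ A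
    | some i, none => i ∈ A
    | some i, some j => H.Adj i j
  symm := ⟨by
    rintro (_ | i) (_ | j) h
    · exact h
    · exact h
    · exact h
    · exact SimpleGraph.Adj.symm (G := H) h⟩
  loopless := ⟨by
    rintro (_ | i) h
    · exact h
    · exact H.loopless.irrefl _ h⟩

/-- The bordered matrix. -/
def bord {V K : Type} (M : Matrix V V K) (u : V → K) (d : K) : Matrix (Option V) (Option V) K :=
  fun x y => match x, y with
    | none, none => d
    | none, some j => u j
    | some i, none => u i
    | some i, some j => M i j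

/-- The set `b` together with the new vertex. -/
def bplus {V : Type} (b : Set V) : Set (Option V) := insert none (some '' b)

/-- The graph on `I ⊕ U ⊕ L` for which `I` is complete, `I` is joined completely to `U`, the vertex `i`
in `I` is joined to `v` in `L` if and only if `i ∉ S v`, and `u` in `U` is joined to `v` in `L` if and
only if `Z u v`. -/
def blk {I U L : Type} (S : L → Set I) (Z : U → L → Prop) : SimpleGraph (I ⊕ U ⊕ L) :=
  SimpleGraph.fromRel fun x y => match x, y with
    | Sum.inl _, Sum.inl _ => True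
    | Sum.inl _, Sum.inr (Sum.inl _) => True
    | Sum.inl i, Sum.inr (Sum.inr v) => i ∉ S v
    | Sum.inr (Sum.inl u), Sum.inr (Sum.inr v) => Z u v
    | _, _ => False

/-- The number of pairs `(M, P)`, `M` with pattern `H` on `I ⊕ W`, such that the columns of the matrix
with blocks `1` and `P` are in the kernel of `M`. -/
noncomputable def Qc {I W : Type} [Fintype I] [Fintype W] [DecidableEq I] (H : SimpleGraph (I ⊕ W)) :
    FinField → ℤ :=
  fun F => (Nat.card {x : Matrix (I ⊕ W) (I ⊕ W) F.K × Matrix W I F.K //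
    Pat H x.1 ∧ x.1 * Matrix.fromRows (1 : Matrix I I F.K) x.2 = 0} : ℤ)

/-- The number of families of points `p u` (`u` in `U`), of functionals `w v` supported on `S v` and of
points `p' v` with `w v` orthogonal to `p' v` and to `p u` whenever `Z u v`. -/
noncomputable def ic0 {I U L : Type} [Fintype I] (S : L → Set I) (Z : U → L → Prop) : FinField → ℤ :=
  fun F => (Nat.card {x : (U → I → F.K) × (L → I → F.K) × (L → I → F.K) //
    ∀ v, (∀ i, i ∉ S v → x.2.1 v i = 0) ∧ x.2.1 v ⬝ᵥ x.2.2 v = 0 ∧
      ∀ u, Z u v → x.2.1 v ⬝ᵥ x.1 u = 0} : ℤ)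

/-- The number of families of points `p u` and of nonzero functionals `w v` supported on `S v`, with
`w v` orthogonal to `p u` whenever `Z u v`, and not orthogonal whenever `Y u v`. -/
noncomputable def icd {I U L : Type} [Fintype I] (S : L → Set I) (Z Y : U → L → Prop) : FinField → ℤ :=
  fun F => (Nat.card {x : (U → I → F.K) × (L → I → F.K) //
    ∀ v, x.2 v ≠ 0 ∧ (∀ i, i ∉ S v → x.2 v i = 0) ∧
      ∀ u, (Z u v → x.2 v ⬝ᵥ x.1 u = 0) ∧ (Y u v → x.2 v ⬝ᵥ x.1 u ≠ 0)} : ℤ)

/-- Extended incidence systems. -/
structure XS (I U L R : Type) where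
  /-- the support of the functionals -/
  S : L → Set I
  /-- the orthogonality relation -/
  Z : U → L → Prop
  /-- the equalities `p_(ru r) (ra r) = p_(ru r) (rb r)` -/
  ru : R → U
  ra : R → I
  rb : R → I
  /-- coordinates which are zero -/
  Ze : U → I → Prop
  /-- coordinates which are not zero -/
  Nz : U → I → Prop

/-- The number of solutions of an extended incidence system. -/
noncomputable def XS.count {I U L R : Type} [Fintype I] (X : XS I U L R) : FinField → ℤ :=
  fun F => (Nat.card {x : (U → I → F.K) × (L → I → F.K) //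
    (∀ v, x.2 v ≠ 0 ∧ (∀ i, i ∉ X.S v → x.2 v i = 0) ∧ ∀ u, X.Z u v → x.2 v ⬝ᵥ x.1 u = 0) ∧
    (∀ r, x.1 (X.ru r) (X.ra r) = x.1 (X.ru r) (X.rb r)) ∧
    (∀ u i, X.Ze u i → x.1 u i = 0) ∧ ∀ u i, X.Nz u i → x.1 u i ≠ 0} : ℤ)

/-- The incidence system of an extended system: one more point `none` (all coordinates nonzero), the
coordinate functionals `inl i` and the functionals `inr (inl r)` with support `{ra r, rb r}`. -/
def XS.S' {I U L R : Type} (X : XS I U L R) : I ⊕ R ⊕ L → Set I
  | Sum.inl i => {i}
  | Sum.inr (Sum.inl r) => {X.ra r, X.rb r}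
  | Sum.inr (Sum.inr v) => X.S v

/-- The orthogonality relation of the incidence system of an extended system. -/
def XS.Z' {I U L R : Type} (X : XS I U L R) : Option U → I ⊕ R ⊕ L → Prop
  | none, Sum.inl _ => False
  | none, Sum.inr (Sum.inl _) => True
  | none, Sum.inr (Sum.inr _) => False
  | some u, Sum.inl i => X.Ze u i
  | some u, Sum.inr (Sum.inl r) => u = X.ru r
  | some u, Sum.inr (Sum.inr v) => X.Z u v

/-- The relation of not being orthogonal. -/
def XS.Y' {I U L R : Type} (X : XS I U L R) : Option U → I ⊕ R ⊕ L → Prop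
  | none, Sum.inl _ => True
  | some u, Sum.inl i => X.Nz u i
  | _, _ => False

/-- The coordinates for a gadget system: the variables and, for each equation `j`, copies
`(j,0), ..., (j,4)` of `o, A j, B j, C j, D j` and `(j,5)` for the sum. -/
abbrev GI (V J : Type) := V ⊕ J × Fin 6

/-- The variable of which `(j,k)` is a copy. -/
def gv {V J : Type} (G : HGC.Gadget V J) (j : J) : Fin 5 → V
  | 0 => G.o
  | 1 => G.A j
  | 2 => G.B j
  | 3 => G.C j
  | 4 => G.D j

/-- The extended incidence system of a gadget system. Points: `none` (the main point `p`) and `(j,0)`,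
`(j,1)`, `(j,2)` (the points `r j`, `f j`, `g j`). Functionals `(j,0)`, `(j,1)`, `(j,2)`. Equalities:
`p` has equal coordinates at a variable and at its copies; `r` at `0, 2` and at `1, 5`, `f` at `3, 5`, `g`
at `4, 5`. -/
def gx {V J : Type} (G : HGC.Gadget V J) :
    XS (GI V J) (Option (J × Fin 3)) (J × Fin 3) (J × (Fin 5 ⊕ Fin 4)) where
  S := fun v => match v with
    | (j, 0) => {Sum.inr (j, 0), Sum.inr (j, 1)}
    | (j, 1) => {Sum.inr (j, 2), Sum.inr (j, 5)}
    | (j, 2) => {Sum.inr (j, 3), Sum.inr (j, 4), Sum.inr (j, 5)}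
  Z := fun u v => match u, v with
    | none, _ => True
    | some (j, 0), (j', 0) => j = j'
    | some (j, 0), (j', 1) => j = j'
    | some (j, 1), (j', 2) => j = j'
    | some (j, 2), (j', 2) => j = j'
    | _, _ => False
  ru := fun r => match r with
    | (_, Sum.inl _) => none
    | (j, Sum.inr 0) => some (j, 0)
    | (j, Sum.inr 1) => some (j, 0)
    | (j, Sum.inr 2) => some (j, 1)
    | (j, Sum.inr 3) => some (j, 2)
  ra := fun r => match r with
    | (j, Sum.inl k) => Sum.inl (gv G j k)
    | (j, Sum.inr 0) => Sum.inr (j, 0)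
    | (j, Sum.inr 1) => Sum.inr (j, 1)
    | (j, Sum.inr 2) => Sum.inr (j, 3)
    | (j, Sum.inr 3) => Sum.inr (j, 4)
  rb := fun r => match r with
    | (j, Sum.inl k) => Sum.inr (j, k.castSucc)
    | (j, Sum.inr 0) => Sum.inr (j, 2)
    | (j, Sum.inr 1) => Sum.inr (j, 5)
    | (j, Sum.inr 2) => Sum.inr (j, 5)
    | (j, Sum.inr 3) => Sum.inr (j, 5)
  Ze := fun u i => match u with
    | none => False
    | some (j, 0) => i ≠ Sum.inr (j, 0) ∧ i ≠ Sum.inr (j, 1) ∧ i ≠ Sum.inr (j, 2) ∧ i ≠ Sum.inr (j, 5)
    | some (j, 1) => i ≠ Sum.inr (j, 3) ∧ i ≠ Sum.inr (j, 5)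
    | some (j, 2) => i ≠ Sum.inr (j, 4) ∧ i ≠ Sum.inr (j, 5)
  Nz := fun u i => match u with
    | none => i = Sum.inl G.o
    | some (j, 0) => i = Sum.inr (j, 0)
    | some (j, 1) => i = Sum.inr (j, 3)
    | some (j, 2) => i = Sum.inr (j, 4)

/-- Split a vertex: the ends in `α` are moved to the new vertex `none`. -/
noncomputable def splitV {V E : Type} (s : E → V) (α : Set E) : E → Option V :=
  open Classical in fun e => if e ∈ α then none else some (s e)

/-- Total excess of the degrees over `3`. -/
noncomputable def exc {V E : Type} [Fintype V] (s t : E → V) : ℕ := ∑ v, (deg s t v - 3)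

end Pool.Agent.KGU
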