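import Pool.Agent.KGU.USp

/-! # Gadget systems as extended incidence systems -/

set_option autoImplicit false

open scoped BigOperators Matrix

namespace Pool.Agent.KGU

open Pool.Agent.KG

/-- PROOF: by cases; `ra` and `rb` are different in all the cases (`inl` against `inr`, or different copies). -/
theorem gx_ne {V J : Type} (G : HGC.Gadget V J) (r : J × (Fin 5 ⊕ Fin 4)) : (gx G).ra r ≠ (gx G).rb r := by
  obtain ⟨j, k | k⟩ := r
  · exact Sum.inl_ne_inr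
  · fin_cases k
    · show Sum.inr (j, (0 : Fin 6)) ≠ Sum.inr (j, (2 : Fin 6))
      simp
    · show Sum.inr (j, (1 : Fin 6)) ≠ Sum.inr (j, (5 : Fin 6))
      simp
    · show Sum.inr (j, (3 : Fin 6)) ≠ Sum.inr (j, (5 : Fin 6))
      simp
    · show Sum.inr (j, (4 : Fin 6)) ≠ Sum.inr (j, (5 : Fin 6))
      simp

/-- the form of the six vectors -/
private theorem gl_key {K : Type} [Field K] {p r f g u w t : Fin 6 → K} (hp : p 0 ≠ 0)
    (hr : r 3 = 0 ∧ r 4 = 0 ∧ r 0 = r 2 ∧ r 1 = r 5 ∧ r 0 ≠ 0)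
    (hf : f 0 = 0 ∧ f 1 = 0 ∧ f 2 = 0 ∧ f 4 = 0 ∧ f 3 = f 5 ∧ f 3 ≠ 0)
    (hg : g 0 = 0 ∧ g 1 = 0 ∧ g 2 = 0 ∧ g 3 = 0 ∧ g 4 = g 5 ∧ g 4 ≠ 0)
    (hu : u ≠ 0 ∧ (∀ i, i ≠ 0 → i ≠ 1 → u i = 0) ∧ u ⬝ᵥ p = 0 ∧ u ⬝ᵥ r = 0)
    (hw : w ≠ 0 ∧ (∀ i, i ≠ 2 → i ≠ 5 → w i = 0) ∧ w ⬝ᵥ p = 0 ∧ w ⬝ᵥ r = 0)
    (ht : t ≠ 0 ∧ (∀ i, i ≠ 3 → i ≠ 4 → i ≠ 5 → t i = 0) ∧ t ⬝ᵥ p = 0 ∧ t ⬝ᵥ f = 0 ∧ t ⬝ᵥ g = 0) :
    (r = ![r 0, r 0 * p 1 / p 0, r 0, 0, 0, r 0 * p 1 / p 0] ∧ f = ![0, 0, 0, f 3, 0, f 3] ∧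
      g = ![0, 0, 0, 0, g 4, g 4] ∧ u = ![-(u 1 * p 1 / p 0), u 1, 0, 0, 0, 0] ∧
      w = ![0, 0, -(w 5 * p 1 / p 0), 0, 0, w 5] ∧ t = ![0, 0, 0, -t 5, -t 5, t 5]) ∧
    (u 1 ≠ 0 ∧ w 5 ≠ 0 ∧ t 5 ≠ 0) ∧ (p 1 * p 2 = p 0 * p 5 ∧ p 3 + p 4 = p 5) := by
  obtain ⟨r3, r4, r02, r15, r0⟩ := hr
  obtain ⟨f0, f1, f2, f4, f35, f3⟩ := hf
  obtain ⟨g0, g1, g2, g3, g45, g4⟩ := hg
  obtain ⟨u0, us, up, ur⟩ := hu
  obtain ⟨w0, ws, wp, wr⟩ := hw
  obtain ⟨t0, ts, tp, tf, tg⟩ := ht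
  have u2 := us 2 (by decide) (by decide)
  have u3 := us 3 (by decide) (by decide)
  have u4 := us 4 (by decide) (by decide)
  have u5 := us 5 (by decide) (by decide)
  have w00 := ws 0 (by decide) (by decide)
  have w1 := ws 1 (by decide) (by decide)
  have w3 := ws 3 (by decide) (by decide)
  have w4 := ws 4 (by decide) (by decide)
  have t00 := ts 0 (by decide) (by decide) (by decide)
  have t1 := ts 1 (by decide) (by decide) (by decide)
  have t2 := ts 2 (by decide) (by decide) (by decide)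
  simp only [dotProduct, Fin.sum_univ_six] at up ur wp wr tp tf tg
  rw [u2, u3, u4, u5] at up ur
  rw [w00, w1, w3, w4] at wp wr
  rw [t00, t1, t2] at tp tf tg
  have eu : u 0 = -(u 1 * p 1 / p 0) := by
    field_simp
    linear_combination up
  have hu1 : u 1 ≠ 0 := by
    intro h
    apply u0
    have h0 : u 0 = 0 := by rw [eu, h]; ring
    funext i
    fin_cases i
    · exact h0
    · exact h
    · exact u2
    · exact u3
    · exact u4
    · exact u5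
  have er : r 1 = r 0 * p 1 / p 0 := by
    rw [eu] at ur
    have h1 : u 1 * (r 1 - r 0 * p 1 / p 0) = 0 := by
      linear_combination ur
    rcases mul_eq_zero.1 h1 with h | h
    · exact absurd h hu1
    · linear_combination h
  have ew : w 2 = -(w 5 * p 1 / p 0) := by
    have h1 : r 0 * (w 2 + w 5 * p 1 / p 0) = 0 := by
      rw [← r02, ← r15, er] at wr
      linear_combination wr
    rcases mul_eq_zero.1 h1 with h | h
    · exact absurd h r0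
    · linear_combination h
  have hw5 : w 5 ≠ 0 := by
    intro h
    apply w0
    have h0 : w 2 = 0 := by rw [ew, h]; ring
    funext i
    fin_cases i
    · exact w00
    · exact w1
    · exact h0
    · exact w3
    · exact w4
    · exact h
  have et3 : t 3 = -t 5 := by
    rw [f4, ← f35] at tf
    have h1 : f 3 * (t 3 + t 5) = 0 := by linear_combination tf
    rcases mul_eq_zero.1 h1 with h | h
    · exact absurd h f3
    · linear_combination h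
  have et4 : t 4 = -t 5 := by
    rw [g3, ← g45] at tg
    have h1 : g 4 * (t 4 + t 5) = 0 := by linear_combination tg
    rcases mul_eq_zero.1 h1 with h | h
    · exact absurd h g4
    · linear_combination h
  have ht5 : t 5 ≠ 0 := by
    intro h
    apply t0
    funext i
    fin_cases i
    · exact t00
    · exact t1
    · exact t2
    · show t 3 = 0
      rw [et3, h, neg_zero]
    · show t 4 = 0
      rw [et4, h, neg_zero]
    · exact h
  refine ⟨⟨?_, ?_, ?_, ?_, ?_, ?_⟩, ⟨hu1, hw5, ht5⟩, ?_, ?_⟩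
  · funext i
    fin_cases i
    · rfl
    · exact er
    · exact r02.symm
    · exact r3
    · exact r4
    · exact r15.symm.trans er
  · funext i
    fin_cases i
    · exact f0
    · exact f1
    · exact f2
    · rfl
    · exact f4
    · exact f35.symm
  · funext i
    fin_cases i
    · exact g0
    · exact g1
    · exact g2
    · exact g3
    · rfl
    · exact g45.symm
  · funext i
    fin_cases i
    · exact eu
    · rfl
    · exact u2
    · exact u3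
    · exact u4
    · exact u5
  · funext i
    fin_cases i
    · exact w00
    · exact w1
    · exact ew
    · exact w3
    · exact w4
    · rfl
  · funext i
    fin_cases i
    · exact t00
    · exact t1
    · exact t2
    · exact et3
    · exact et4
    · rfl
  · rw [ew] at wp
    have h1 : w 5 * (p 1 * p 2 - p 0 * p 5) = 0 := by
      have h2 : -(w 5 * p 1 / p 0) * p 2 + w 5 * p 5 = 0 := by linear_combination wp
      field_simp at h2
      linear_combination (-1 : K) * h2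
    rcases mul_eq_zero.1 h1 with h | h
    · exact absurd h hw5
    · linear_combination h
  · rw [et3, et4] at tp
    have h1 : t 5 * (p 3 + p 4 - p 5) = 0 := by linear_combination (-1 : K) * tp
    rcases mul_eq_zero.1 h1 with h | h
    · exact absurd h ht5
    · linear_combination h

open Classical in
/-- The objects attached to one equation `j`, for a given main point `p`, where `p0, ..., p5` are its coordinates
at the copies `(j,0), ..., (j,5)` and `p0 ≠ 0`. The number of `(r, f, g, u, w, t)` is `(q - 1)^6` if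
`p1 p2 = p0 p5` and `p3 + p4 = p5`, and `0` otherwise.
PROOF: `r = a (p0, p1, p0, 0, 0, p1)` with `a ≠ 0`: `u = b (p1, -p0)` on the coordinates `0, 1` as it is nonzero and
orthogonal to `p`, `p0 ≠ 0`; `r` is orthogonal to `u`, so `r1 p0 = r0 p1`, and `r2 = r0`, `r5 = r1`, other
coordinates `0`, `r0 ≠ 0`. `f = c (0, 0, 0, 1, 0, 1)`, `g = d (0, 0, 0, 0, 1, 1)`; `w` on the coordinates `2, 5`,
nonzero, orthogonal to `r`: `w2 p0 + w5 p1 = 0`, so `w = e (p1, -p0)`, and it is orthogonal to `p` iff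
`p1 p2 = p0 p5`; `t` on the coordinates `3, 4, 5`, nonzero, orthogonal to `f`, `g`: `t = h (1, 1, -1)`, orthogonal to
`p` iff `p3 + p4 = p5`. Here the vectors are vectors in `K^6`. -/
theorem gad_local {K : Type} [Field K] [Finite K] (p : Fin 6 → K) (hp : p 0 ≠ 0) :
    (Nat.card {x : (Fin 6 → K) × (Fin 6 → K) × (Fin 6 → K) × (Fin 6 → K) × (Fin 6 → K) × (Fin 6 → K) //
      (x.1 3 = 0 ∧ x.1 4 = 0 ∧ x.1 0 = x.1 2 ∧ x.1 1 = x.1 5 ∧ x.1 0 ≠ 0) ∧
      (x.2.1 0 = 0 ∧ x.2.1 1 = 0 ∧ x.2.1 2 = 0 ∧ x.2.1 4 = 0 ∧ x.2.1 3 = x.2.1 5 ∧ x.2.1 3 ≠ 0) ∧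
      (x.2.2.1 0 = 0 ∧ x.2.2.1 1 = 0 ∧ x.2.2.1 2 = 0 ∧ x.2.2.1 3 = 0 ∧ x.2.2.1 4 = x.2.2.1 5 ∧
        x.2.2.1 4 ≠ 0) ∧
      (x.2.2.2.1 ≠ 0 ∧ (∀ i, i ≠ 0 → i ≠ 1 → x.2.2.2.1 i = 0) ∧ x.2.2.2.1 ⬝ᵥ p = 0 ∧
        x.2.2.2.1 ⬝ᵥ x.1 = 0) ∧
      (x.2.2.2.2.1 ≠ 0 ∧ (∀ i, i ≠ 2 → i ≠ 5 → x.2.2.2.2.1 i = 0) ∧ x.2.2.2.2.1 ⬝ᵥ p = 0 ∧
        x.2.2.2.2.1 ⬝ᵥ x.1 = 0) ∧
      (x.2.2.2.2.2 ≠ 0 ∧ (∀ i, i ≠ 3 → i ≠ 4 → i ≠ 5 → x.2.2.2.2.2 i = 0) ∧ x.2.2.2.2.2 ⬝ᵥ p = 0 ∧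
        x.2.2.2.2.2 ⬝ᵥ x.2.1 = 0 ∧ x.2.2.2.2.2 ⬝ᵥ x.2.2.1 = 0)} : ℤ) =
    if p 1 * p 2 = p 0 * p 5 ∧ p 3 + p 4 = p 5 then ((Nat.card K : ℤ) - 1) ^ 6 else 0 := by
  haveI := Fintype.ofFinite K
  split_ifs with hc
  · obtain ⟨hc1, hc2⟩ := hc
    have hN : (Nat.card {a : K // a ≠ 0} : ℤ) = (Nat.card K : ℤ) - 1 := by
      have h1 : Nat.card {a : K // a ≠ 0} = Nat.card K - 1 := by
        rw [Nat.card_eq_fintype_card, Nat.card_eq_fintype_card]
        have := Fintype.card_subtype_compl (fun a : K => a = 0)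
        rw [Fintype.card_subtype_eq] at this
        exact this
      rw [h1, Nat.cast_sub Nat.card_pos, Nat.cast_one]
    have h6 : ((Nat.card K : ℤ) - 1) ^ 6 = (Nat.card ({a : K // a ≠ 0} × {a : K // a ≠ 0} ×
        {a : K // a ≠ 0} × {a : K // a ≠ 0} × {a : K // a ≠ 0} × {a : K // a ≠ 0}) : ℤ) := by
      rw [Nat.card_prod, Nat.card_prod, Nat.card_prod, Nat.card_prod, Nat.card_prod]
      push_cast
      rw [hN]
      ring
    rw [h6]
    congr 1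
    refine Nat.card_congr (Equiv.ofBijective (fun x => (⟨x.1.1 0, x.2.1.2.2.2.2⟩,
      ⟨x.1.2.1 3, x.2.2.1.2.2.2.2.2⟩, ⟨x.1.2.2.1 4, x.2.2.2.1.2.2.2.2.2⟩,
      ⟨x.1.2.2.2.1 1, (gl_key hp x.2.1 x.2.2.1 x.2.2.2.1 x.2.2.2.2.1 x.2.2.2.2.2.1
        x.2.2.2.2.2.2).2.1.1⟩,
      ⟨x.1.2.2.2.2.1 5, (gl_key hp x.2.1 x.2.2.1 x.2.2.2.1 x.2.2.2.2.1 x.2.2.2.2.2.1
        x.2.2.2.2.2.2).2.1.2.1⟩,
      ⟨x.1.2.2.2.2.2 5, (gl_key hp x.2.1 x.2.2.1 x.2.2.2.1 x.2.2.2.2.1 x.2.2.2.2.2.1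
        x.2.2.2.2.2.2).2.1.2.2⟩)) ⟨?_, ?_⟩)
    · rintro ⟨⟨r, f, g, u, w, t⟩, h1, h2, h3, h4, h5, h6⟩
        ⟨⟨r', f', g', u', w', t'⟩, h1', h2', h3', h4', h5', h6'⟩ h
      simp only [Prod.mk.injEq, Subtype.mk.injEq] at h
      obtain ⟨e1, e2, e3, e4, e5, e6⟩ := h
      obtain ⟨⟨a1, a2, a3, a4, a5, a6⟩, _⟩ := gl_key hp h1 h2 h3 h4 h5 h6
      obtain ⟨⟨b1, b2, b3, b4, b5, b6⟩, _⟩ := gl_key hp h1' h2' h3' h4' h5' h6'
      dsimp only at a1 a2 a3 a4 a5 a6 b1 b2 b3 b4 b5 b6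
      apply Subtype.ext
      simp only [Prod.mk.injEq]
      refine ⟨?_, ?_, ?_, ?_, ?_, ?_⟩
      · rw [a1, b1, e1]
      · rw [a2, b2, e2]
      · rw [a3, b3, e3]
      · rw [a4, b4, e4]
      · rw [a5, b5, e5]
      · rw [a6, b6, e6]
    · rintro ⟨⟨a, ha⟩, ⟨c, hc⟩, ⟨d, hd⟩, ⟨b, hb⟩, ⟨e, he⟩, ⟨h, hh⟩⟩
      refine ⟨⟨(![a, a * p 1 / p 0, a, 0, 0, a * p 1 / p 0], ![0, 0, 0, c, 0, c],
        ![0, 0, 0, 0, d, d], ![-(b * p 1 / p 0), b, 0, 0, 0, 0],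
        ![0, 0, -(e * p 1 / p 0), 0, 0, e], ![0, 0, 0, -h, -h, h]), ?_, ?_, ?_, ?_, ?_, ?_⟩, ?_⟩
      · exact ⟨rfl, rfl, rfl, rfl, ha⟩
      · exact ⟨rfl, rfl, rfl, rfl, rfl, hc⟩
      · exact ⟨rfl, rfl, rfl, rfl, rfl, hd⟩
      · refine ⟨fun h0 => hb (congrFun h0 1), ?_, ?_, ?_⟩
        · intro i h0 h1
          fin_cases i
          · exact absurd rfl h0
          · exact absurd rfl h1
          all_goals rfl
        · simp only [dotProduct, Fin.sum_univ_six]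
          show -(b * p 1 / p 0) * p 0 + b * p 1 + 0 * p 2 + 0 * p 3 + 0 * p 4 + 0 * p 5 = 0
          field_simp
          ring
        · simp only [dotProduct, Fin.sum_univ_six]
          show -(b * p 1 / p 0) * a + b * (a * p 1 / p 0) + 0 * a + 0 * 0 + 0 * 0 +
            0 * (a * p 1 / p 0) = 0
          ring
      · refine ⟨fun h0 => he (congrFun h0 5), ?_, ?_, ?_⟩
        · intro i h0 h1
          fin_cases i
          · rfl
          · rfl
          · exact absurd rfl h0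
          · rfl
          · rfl
          · exact absurd rfl h1
        · simp only [dotProduct, Fin.sum_univ_six]
          show 0 * p 0 + 0 * p 1 + -(e * p 1 / p 0) * p 2 + 0 * p 3 + 0 * p 4 + e * p 5 = 0
          field_simp
          linear_combination (-e) * hc1
        · simp only [dotProduct, Fin.sum_univ_six]
          show 0 * a + 0 * (a * p 1 / p 0) + -(e * p 1 / p 0) * a + 0 * 0 + 0 * 0 +
            e * (a * p 1 / p 0) = 0
          ring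
      · refine ⟨fun h0 => hh (congrFun h0 5), ?_, ?_, ?_, ?_⟩
        · intro i h0 h1 h2
          fin_cases i
          · rfl
          · rfl
          · rfl
          · exact absurd rfl h0
          · exact absurd rfl h1
          · exact absurd rfl h2
        · simp only [dotProduct, Fin.sum_univ_six]
          show 0 * p 0 + 0 * p 1 + 0 * p 2 + -h * p 3 + -h * p 4 + h * p 5 = 0
          linear_combination (-h) * hc2
        · simp only [dotProduct, Fin.sum_univ_six]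
          show 0 * 0 + 0 * 0 + 0 * 0 + -h * c + -h * 0 + h * c = 0
          ring
        · simp only [dotProduct, Fin.sum_univ_six]
          show 0 * 0 + 0 * 0 + 0 * 0 + -h * 0 + -h * d + h * d = 0
          ring
      · rfl
  · have : IsEmpty {x : (Fin 6 → K) × (Fin 6 → K) × (Fin 6 → K) × (Fin 6 → K) × (Fin 6 → K) × (Fin 6 → K) //
      (x.1 3 = 0 ∧ x.1 4 = 0 ∧ x.1 0 = x.1 2 ∧ x.1 1 = x.1 5 ∧ x.1 0 ≠ 0) ∧
      (x.2.1 0 = 0 ∧ x.2.1 1 = 0 ∧ x.2.1 2 = 0 ∧ x.2.1 4 = 0 ∧ x.2.1 3 = x.2.1 5 ∧ x.2.1 3 ≠ 0) ∧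
      (x.2.2.1 0 = 0 ∧ x.2.2.1 1 = 0 ∧ x.2.2.1 2 = 0 ∧ x.2.2.1 3 = 0 ∧ x.2.2.1 4 = x.2.2.1 5 ∧
        x.2.2.1 4 ≠ 0) ∧
      (x.2.2.2.1 ≠ 0 ∧ (∀ i, i ≠ 0 → i ≠ 1 → x.2.2.2.1 i = 0) ∧ x.2.2.2.1 ⬝ᵥ p = 0 ∧
        x.2.2.2.1 ⬝ᵥ x.1 = 0) ∧
      (x.2.2.2.2.1 ≠ 0 ∧ (∀ i, i ≠ 2 → i ≠ 5 → x.2.2.2.2.1 i = 0) ∧ x.2.2.2.2.1 ⬝ᵥ p = 0 ∧
        x.2.2.2.2.1 ⬝ᵥ x.1 = 0) ∧
      (x.2.2.2.2.2 ≠ 0 ∧ (∀ i, i ≠ 3 → i ≠ 4 → i ≠ 5 → x.2.2.2.2.2 i = 0) ∧ x.2.2.2.2.2 ⬝ᵥ p = 0 ∧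
        x.2.2.2.2.2 ⬝ᵥ x.2.1 = 0 ∧ x.2.2.2.2.2 ⬝ᵥ x.2.2.1 = 0)} :=
      ⟨fun x => hc (gl_key hp x.2.1 x.2.2.1 x.2.2.2.1 x.2.2.2.2.1 x.2.2.2.2.2.1
        x.2.2.2.2.2.2).2.2⟩
    rw [Nat.card_of_isEmpty, Nat.cast_zero]

/-- The main points: vectors `p` on `GI V J` with `p (inl o) ≠ 0`, equal coordinates at a variable and at its
copies and `p1 p2 = p0 p5`, `p3 + p4 = p5` for all `j`, are the multiples of the solutions of the gadget system
by nonzero scalars.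
PROOF: `p ↦ (p (inl o), (p (inl i) / p (inl o))_i)`. -/
theorem gad_main {V J : Type} [Fintype V] [Fintype J] (G : HGC.Gadget V J) (K : Type) [Field K] [Finite K] :
    (Nat.card {p : GI V J → K // p (Sum.inl G.o) ≠ 0 ∧
      (∀ j k, p (Sum.inl (gv G j k)) = p (Sum.inr (j, k.castSucc))) ∧
      ∀ j, p (Sum.inr (j, 1)) * p (Sum.inr (j, 2)) = p (Sum.inr (j, 0)) * p (Sum.inr (j, 5)) ∧
        p (Sum.inr (j, 3)) + p (Sum.inr (j, 4)) = p (Sum.inr (j, 5))} : ℤ) =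
    ((Nat.card K : ℤ) - 1) * (HGC.gadCount G K : ℤ) := by
  classical
  haveI := Fintype.ofFinite K
  have hN : (Nat.card {a : K // a ≠ 0} : ℤ) = (Nat.card K : ℤ) - 1 := by
    have h1 : Nat.card {a : K // a ≠ 0} = Nat.card K - 1 := by
      rw [Nat.card_eq_fintype_card, Nat.card_eq_fintype_card]
      have := Fintype.card_subtype_compl (fun a : K => a = 0)
      rw [Fintype.card_subtype_eq] at this
      exact this
    rw [h1, Nat.cast_sub Nat.card_pos, Nat.cast_one]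
  rw [← hN, HGC.gadCount, ← Nat.cast_mul, ← Nat.card_prod]
  congr 1
  refine Nat.card_congr
    { toFun := fun p => (⟨p.1 (Sum.inl G.o), p.2.1⟩,
        ⟨fun i => p.1 (Sum.inl i) / p.1 (Sum.inl G.o), ?_, ?_⟩)
      invFun := fun x => ⟨Sum.elim (fun i => x.1.1 * x.2.1 i)
        (fun y => Fin.lastCases (motive := fun _ => K) (x.1.1 * (x.2.1 (G.C y.1) + x.2.1 (G.D y.1)))
          (fun k => x.1.1 * x.2.1 (gv G y.1 k)) y.2), ?_, ?_, ?_⟩
      left_inv := ?_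
      right_inv := ?_ }
  · exact div_self p.2.1
  · intro j
    obtain ⟨p, h1, h2, h3⟩ := p
    have ho : p (Sum.inl G.o) = p (Sum.inr (j, 0)) := h2 j 0
    have hA : p (Sum.inl (G.A j)) = p (Sum.inr (j, 1)) := h2 j 1
    have hB : p (Sum.inl (G.B j)) = p (Sum.inr (j, 2)) := h2 j 2
    have hC : p (Sum.inl (G.C j)) = p (Sum.inr (j, 3)) := h2 j 3
    have hD : p (Sum.inl (G.D j)) = p (Sum.inr (j, 4)) := h2 j 4
    obtain ⟨h4, h5⟩ := h3 j
    rw [← hA, ← hB, ← ho] at h4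
    rw [← hC, ← hD] at h5
    show p (Sum.inl (G.A j)) / p (Sum.inl G.o) * (p (Sum.inl (G.B j)) / p (Sum.inl G.o)) =
      p (Sum.inl (G.C j)) / p (Sum.inl G.o) + p (Sum.inl (G.D j)) / p (Sum.inl G.o)
    field_simp
    rw [h4, ← h5]
  · show x.1.1 * x.2.1 G.o ≠ 0
    rw [x.2.2.1, mul_one]
    exact x.1.2
  · intro j k
    show x.1.1 * x.2.1 (gv G j k) = Fin.lastCases (motive := fun _ => K) _ _ (Fin.castSucc k)
    rw [Fin.lastCases_castSucc]
  · intro j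
    have e0 : (Fin.lastCases (motive := fun _ => K) (x.1.1 * (x.2.1 (G.C j) + x.2.1 (G.D j)))
          (fun k => x.1.1 * x.2.1 (gv G j k)) (Fin.castSucc (0 : Fin 5))) = x.1.1 := by
      rw [Fin.lastCases_castSucc]
      show x.1.1 * x.2.1 G.o = _
      rw [x.2.2.1, mul_one]
    have e1 : (Fin.lastCases (motive := fun _ => K) (x.1.1 * (x.2.1 (G.C j) + x.2.1 (G.D j)))
          (fun k => x.1.1 * x.2.1 (gv G j k)) (Fin.castSucc (1 : Fin 5))) =
          x.1.1 * x.2.1 (G.A j) := by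
      rw [Fin.lastCases_castSucc]
      rfl
    have e2 : (Fin.lastCases (motive := fun _ => K) (x.1.1 * (x.2.1 (G.C j) + x.2.1 (G.D j)))
          (fun k => x.1.1 * x.2.1 (gv G j k)) (Fin.castSucc (2 : Fin 5))) =
          x.1.1 * x.2.1 (G.B j) := by
      rw [Fin.lastCases_castSucc]
      rfl
    have e3 : (Fin.lastCases (motive := fun _ => K) (x.1.1 * (x.2.1 (G.C j) + x.2.1 (G.D j)))
          (fun k => x.1.1 * x.2.1 (gv G j k)) (Fin.castSucc (3 : Fin 5))) =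
          x.1.1 * x.2.1 (G.C j) := by
      rw [Fin.lastCases_castSucc]
      rfl
    have e4 : (Fin.lastCases (motive := fun _ => K) (x.1.1 * (x.2.1 (G.C j) + x.2.1 (G.D j)))
          (fun k => x.1.1 * x.2.1 (gv G j k)) (Fin.castSucc (4 : Fin 5))) =
          x.1.1 * x.2.1 (G.D j) := by
      rw [Fin.lastCases_castSucc]
      rfl
    have e5 : (Fin.lastCases (motive := fun _ => K) (x.1.1 * (x.2.1 (G.C j) + x.2.1 (G.D j)))
          (fun k => x.1.1 * x.2.1 (gv G j k)) (Fin.last 5)) =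
          x.1.1 * (x.2.1 (G.C j) + x.2.1 (G.D j)) := by
      rw [Fin.lastCases_last]
    refine ⟨?_, ?_⟩
    · show (Fin.lastCases (motive := fun _ => K) _ _ (Fin.castSucc (1 : Fin 5))) *
        (Fin.lastCases (motive := fun _ => K) _ _ (Fin.castSucc (2 : Fin 5))) =
        (Fin.lastCases (motive := fun _ => K) _ _ (Fin.castSucc (0 : Fin 5))) *
        (Fin.lastCases (motive := fun _ => K) _ _ (Fin.last 5))
      rw [e1, e2, e0, e5, ← x.2.2.2 j]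
      ring
    · show (Fin.lastCases (motive := fun _ => K) _ _ (Fin.castSucc (3 : Fin 5))) +
        (Fin.lastCases (motive := fun _ => K) _ _ (Fin.castSucc (4 : Fin 5))) =
        (Fin.lastCases (motive := fun _ => K) _ _ (Fin.last 5))
      rw [e3, e4, e5]
      ring
  · rintro ⟨p, h1, h2, h3⟩
    apply Subtype.ext
    funext y
    rcases y with i | ⟨j, k⟩
    · show p (Sum.inl G.o) * (p (Sum.inl i) / p (Sum.inl G.o)) = p (Sum.inl i)
      rw [mul_div_cancel₀ _ h1]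
    · show (Fin.lastCases (motive := fun _ => K) (p (Sum.inl G.o) *
        (p (Sum.inl (G.C j)) / p (Sum.inl G.o) + p (Sum.inl (G.D j)) / p (Sum.inl G.o)))
          (fun k => p (Sum.inl G.o) * (p (Sum.inl (gv G j k)) / p (Sum.inl G.o))) k) =
          p (Sum.inr (j, k))
      induction k using Fin.lastCases with
      | last =>
        rw [Fin.lastCases_last, mul_add, mul_div_cancel₀ _ h1, mul_div_cancel₀ _ h1]
        have hC : p (Sum.inl (G.C j)) = p (Sum.inr (j, 3)) := h2 j 3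
        have hD : p (Sum.inl (G.D j)) = p (Sum.inr (j, 4)) := h2 j 4
        rw [hC, hD]
        exact (h3 j).2
      | cast k =>
        rw [Fin.lastCases_castSucc, mul_div_cancel₀ _ h1]
        exact h2 j k
  · rintro ⟨⟨a, ha⟩, v, hv1, hv2⟩
    have h1 : a * v G.o = a := by rw [hv1, mul_one]
    apply Prod.ext
    · apply Subtype.ext
      exact h1
    · apply Subtype.ext
      funext i
      show a * v i / (a * v G.o) = v i
      rw [h1, mul_div_cancel_left₀ _ ha]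

end Pool.Agent.KGU
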