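import Pool.Agent.KGU.UDefs

/-! # Numbers of orthogonal vectors -/

set_option autoImplicit false

open scoped BigOperators Matrix

namespace Pool.Agent.KGU

open Pool.Agent.KG

variable {V K : Type} [Fintype V] [Field K] [Finite K]

/-- PROOF: the orthogonal complement of a subspace `X` of `K^V` for the dot product has dimension
`card V - dim X`. -/
theorem orth_full (X : Submodule K (V → K)) :
    Nat.card {u : V → K // ∀ x ∈ X, u ⬝ᵥ x = 0} * Nat.card K ^ Module.finrank K X =
      Nat.card K ^ Fintype.card V := by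
  classical
  let φ : (V → K) →ₗ[K] Module.Dual K X := X.dualRestrict ∘ₗ (dotProductEquiv K V).toLinearMap
  have hφ : ∀ u (x : X), φ u x = u ⬝ᵥ (x : V → K) := fun u x => rfl
  have hsurj : Function.Surjective φ := by
    intro g
    obtain ⟨f, hf⟩ := Subspace.dualRestrict_surjective (W := X) g
    refine ⟨(dotProductEquiv K V).symm f, ?_⟩
    show X.dualRestrict ((dotProductEquiv K V) ((dotProductEquiv K V).symm f)) = g
    rw [LinearEquiv.apply_symm_apply, hf]
  have h1 := LinearMap.finrank_range_add_finrank_ker φ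
  rw [LinearMap.range_eq_top.2 hsurj, finrank_top, Subspace.dual_finrank_eq,
    Module.finrank_fintype_fun_eq_card] at h1
  have h2 : Nat.card {u : V → K // ∀ x ∈ X, u ⬝ᵥ x = 0} = Nat.card (LinearMap.ker φ) := by
    refine Nat.card_congr (Equiv.subtypeEquivRight fun u => ?_)
    rw [LinearMap.mem_ker]
    constructor
    · intro h
      ext x
      rw [hφ]
      exact h x x.2
    · intro h x hx
      have h3 := congrArg (fun g : Module.Dual K X => g ⟨x, hx⟩) h
      simpa [hφ] using h3
  rw [h2, Module.natCard_eq_pow_finrank (K := K), ← pow_add, add_comm, h1]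

/-- PROOF: the restriction to `b` is a linear map from `K0 M ∅` to `K^b` with kernel `K0 M b`, so its image has
dimension `r`; a vector `u` supported on `b` is orthogonal to `K0 M ∅` iff its restriction to `b` is orthogonal
to this image; use `orth_full` for `K^b`. -/
theorem orth_part (M : Matrix V V K) (b : Set V) (t r : ℕ) (ht : Module.finrank K (K0 M b) = t)
    (hr : Module.finrank K (K0 M ∅) = t + r) :
    Nat.card {u : V → K // (∀ i, i ∉ b → u i = 0) ∧ ∀ x ∈ K0 M ∅, u ⬝ᵥ x = 0} * Nat.card K ^ r =
      Nat.card K ^ b.ncard := by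
  classical
  let res : (V → K) →ₗ[K] (b → K) := LinearMap.funLeft K K (Subtype.val : b → V)
  let f : K0 M ∅ →ₗ[K] (b → K) := res.domRestrict (K0 M ∅)
  have hker : (LinearMap.ker f).map (K0 M ∅).subtype = K0 M b := by
    ext x
    constructor
    · rintro ⟨⟨y, hy⟩, hy1, rfl⟩
      refine ⟨hy.1, fun i hi => ?_⟩
      have h3 : f ⟨y, hy⟩ = 0 := hy1
      exact congrFun h3 ⟨i, hi⟩
    · intro hx
      refine ⟨⟨x, hx.1, fun i hi => absurd hi (Set.notMem_empty i)⟩, ?_, rfl⟩
      show f _ = 0
      ext i
      exact hx.2 i i.2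
  have h1 := LinearMap.finrank_range_add_finrank_ker f
  have h2 : Module.finrank K (LinearMap.ker f) = t := by
    rw [← ht, ← hker, Submodule.finrank_map_subtype_eq]
  rw [h2, hr] at h1
  have h3 : Module.finrank K (LinearMap.range f) = r := by omega
  have h4 := orth_full (LinearMap.range f)
  rw [h3, Fintype.card_eq_nat_card, Nat.card_coe_set_eq] at h4
  rw [← h4]
  congr 1
  have hdot : ∀ u x : V → K, (∀ i, i ∉ b → u i = 0) →
      u ⬝ᵥ x = (fun i : b => u i) ⬝ᵥ (fun i : b => x i) := by
    intro u x hu
    simp only [dotProduct]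
    rw [← Finset.sum_subtype (Finset.univ.filter (· ∈ b)) (fun i => by simp)
      (fun i => u i * x i)]
    symm
    refine Finset.sum_subset (Finset.filter_subset _ _) fun i _ hi => ?_
    rw [hu i (fun h => hi (by simp [h])), zero_mul]
  have hext : ∀ w : b → K, (fun i : b => (fun i : V => if h : i ∈ b then w ⟨i, h⟩ else 0) (i : V)) = w := by
    intro w
    funext i
    simp
  refine Nat.card_congr
    { toFun := fun u => ⟨fun i : b => u.1 i, ?_⟩
      invFun := fun w => ⟨fun i => if h : i ∈ b then w.1 ⟨i, h⟩ else 0, ?_, ?_⟩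
      left_inv := ?_
      right_inv := ?_ }
  · rintro _ ⟨x, rfl⟩
    have h5 := u.2.2 x.1 x.2
    rw [hdot u.1 x.1 u.2.1] at h5
    exact h5
  · intro i hi
    exact dif_neg hi
  · intro x hx
    rw [hdot _ x (fun i hi => dif_neg hi), hext]
    exact w.2 _ ⟨⟨x, hx⟩, rfl⟩
  · intro u
    apply Subtype.ext
    funext i
    by_cases h : i ∈ b
    · simp [h]
    · simp [h, u.2.1 i h]
  · intro w
    apply Subtype.ext
    exact hext w.1

/-- The number of vectors supported on `b`. -/
theorem supp_card (b : Set V) :
    Nat.card {u : V → K // ∀ i, i ∉ b → u i = 0} = Nat.card K ^ b.ncard := by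
  classical
  have h1 : Nat.card {u : V → K // ∀ i, i ∉ b → u i = 0} = Nat.card (b → K) := by
    refine Nat.card_congr
      { toFun := fun u i => u.1 i
        invFun := fun w => ⟨fun i => if h : i ∈ b then w ⟨i, h⟩ else 0, fun i hi => dif_neg hi⟩
        left_inv := ?_
        right_inv := ?_ }
    · intro u
      apply Subtype.ext
      funext i
      by_cases h : i ∈ b
      · simp [h]
      · simp [h, u.2 i h]
    · intro w
      funext i
      simp
  rw [h1, Nat.card_fun, Nat.card_coe_set_eq]

/-- PROOF: `K0 M b ≤ K0 M ∅`. -/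
theorem K0_le (M : Matrix V V K) (b : Set V) :
    Module.finrank K (K0 M b) ≤ Module.finrank K (K0 M ∅) := by
  exact Submodule.finrank_mono fun x hx => ⟨hx.1, fun i hi => absurd hi (Set.notMem_empty i)⟩

end Pool.Agent.KGU
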