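import Pool.Agent.KGU.UDefs

/-! # Linear relations and orthogonal vectors -/

set_option autoImplicit false

open scoped BigOperators Matrix

namespace Pool.Agent.KGU

open Pool.Agent.KG

/-- PROOF: rank of a matrix and its transpose: `dim ker A = card T - rank A` and
`dim ker Aᵀ = card S - rank A` (`Matrix.rank_transpose`). -/
theorem rel_count {S T K : Type} [Fintype S] [Fintype T] [Field K] [Finite K] (A : Matrix S T K) :
    Nat.card {m : T → K // A *ᵥ m = 0} * Nat.card K ^ Fintype.card S =
      Nat.card {w : S → K // Aᵀ *ᵥ w = 0} * Nat.card K ^ Fintype.card T := by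
  have h1 : Nat.card {m : T → K // A *ᵥ m = 0} =
      Nat.card K ^ Module.finrank K (LinearMap.ker A.mulVecLin) :=
    Module.natCard_eq_pow_finrank (K := K) (V := LinearMap.ker A.mulVecLin)
  have h2 : Nat.card {w : S → K // Aᵀ *ᵥ w = 0} =
      Nat.card K ^ Module.finrank K (LinearMap.ker Aᵀ.mulVecLin) :=
    Module.natCard_eq_pow_finrank (K := K) (V := LinearMap.ker Aᵀ.mulVecLin)
  have h3 := A.mulVecLin.finrank_range_add_finrank_ker
  have h4 := Aᵀ.mulVecLin.finrank_range_add_finrank_ker
  have h5 : Module.finrank K (LinearMap.range Aᵀ.mulVecLin) =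
      Module.finrank K (LinearMap.range A.mulVecLin) := Matrix.rank_transpose A
  rw [Module.finrank_fintype_fun_eq_card] at h3 h4
  rw [h1, h2, ← pow_add, ← pow_add]
  congr 1
  omega

/-- For a set `S` of coordinates, a vector `y` and vectors `p u`, `u` in `T`: relations of the
restrictions to `S`, and vectors supported on `S` which are orthogonal.
PROOF: `rel_count` for the matrix with rows `S` and columns `Option T` (column `none` is `y`, column `some u` is
`p u`). -/
theorem rel_vec {I K : Type} [Fintype I] [Field K] [Finite K] (S : Set I) {T : Type} [Fintype T] (y : I → K)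
    (p : T → I → K) :
    Nat.card {m : K × (T → K) // ∀ i ∈ S, m.1 * y i + ∑ u, m.2 u * p u i = 0} *
        Nat.card K ^ S.ncard =
      Nat.card {w : I → K // (∀ i, i ∉ S → w i = 0) ∧ w ⬝ᵥ y = 0 ∧ ∀ u, w ⬝ᵥ p u = 0} *
        Nat.card K ^ (Fintype.card T + 1) := by
  classical
  let A : Matrix S (Option T) K := Matrix.of fun i o => o.elim (y i) fun u => p u i
  have h := rel_count A
  have e1 : {m : K × (T → K) // ∀ i ∈ S, m.1 * y i + ∑ u, m.2 u * p u i = 0} ≃
      {m : Option T → K // A *ᵥ m = 0} :=
    { toFun := fun m => ⟨fun o => o.elim m.1.1 m.1.2, by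
        funext i
        show ∑ o, A i o * _ = 0
        rw [Fintype.sum_option]
        refine Eq.trans ?_ (m.2 i.1 i.2)
        show y i * m.1.1 + ∑ u, p u i * m.1.2 u = _
        rw [mul_comm]
        congr 1
        exact Finset.sum_congr rfl fun u _ => mul_comm _ _⟩
      invFun := fun m => ⟨(m.1 none, fun u => m.1 (some u)), fun i hi => by
        have h1 := congrFun m.2 ⟨i, hi⟩
        have h2 : ∑ o, A ⟨i, hi⟩ o * m.1 o = 0 := h1
        rw [Fintype.sum_option] at h2
        rw [← h2]
        show m.1 none * y i + ∑ u, m.1 (some u) * p u i = y i * m.1 none + ∑ u, p u i * m.1 (some u)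
        rw [mul_comm]
        congr 1
        exact Finset.sum_congr rfl fun u _ => mul_comm _ _⟩
      left_inv := fun m => rfl
      right_inv := fun m => by
        apply Subtype.ext
        funext o
        cases o with
        | none => rfl
        | some u => rfl }
  have hsum : ∀ (w : I → K) (z : I → K), (∀ i, i ∉ S → w i = 0) →
      w ⬝ᵥ z = ∑ i : S, z i * w i := by
    intro w z hw
    show ∑ i, w i * z i = _
    rw [← Finset.sum_subset (Finset.subset_univ S.toFinset) (fun i _ hi => by
      rw [hw i (fun h => hi (Set.mem_toFinset.2 h)), zero_mul]),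
      Finset.sum_subtype S.toFinset (fun i => Set.mem_toFinset)]
    exact Finset.sum_congr rfl fun i _ => mul_comm _ _
  have e2 : {w : I → K // (∀ i, i ∉ S → w i = 0) ∧ w ⬝ᵥ y = 0 ∧ ∀ u, w ⬝ᵥ p u = 0} ≃
      {w : S → K // Aᵀ *ᵥ w = 0} :=
    { toFun := fun w => ⟨fun i => w.1 i, by
        funext o
        cases o with
        | none =>
          show ∑ i : S, y i * w.1 i = 0
          rw [← hsum w.1 y w.2.1, w.2.2.1]
        | some u =>
          show ∑ i : S, p u i * w.1 i = 0
          rw [← hsum w.1 (p u) w.2.1, w.2.2.2 u]⟩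
      invFun := fun w => ⟨fun i => if hi : i ∈ S then w.1 ⟨i, hi⟩ else 0, by
        have h0 : ∀ i, i ∉ S → (fun i => if hi : i ∈ S then w.1 ⟨i, hi⟩ else 0) i = 0 :=
          fun i hi => dif_neg hi
        have h1 : ∀ i : S, (fun i => if hi : i ∈ S then w.1 ⟨i, hi⟩ else 0) i.1 = w.1 i :=
          fun i => dif_pos i.2
        refine ⟨h0, ?_, fun u => ?_⟩
        · rw [hsum _ y h0]
          have h2 := congrFun w.2 none
          have h3 : ∑ i : S, y i * w.1 i = 0 := h2
          exact Eq.trans (Finset.sum_congr rfl fun i _ => congrArg (y i.1 * ·) (h1 i)) h3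
        · rw [hsum _ (p u) h0]
          have h2 := congrFun w.2 (some u)
          have h3 : ∑ i : S, p u i * w.1 i = 0 := h2
          exact Eq.trans (Finset.sum_congr rfl fun i _ => congrArg (p u i.1 * ·) (h1 i)) h3⟩
      left_inv := fun w => by
        apply Subtype.ext
        funext i
        show (if hi : i ∈ S then w.1 i else 0) = w.1 i
        split_ifs with hi
        · rfl
        · exact (w.2.1 i hi).symm
      right_inv := fun w => by
        apply Subtype.ext
        funext i
        exact dif_pos i.2 }
  rw [Nat.card_congr e1, Nat.card_congr e2, ← Fintype.card_option (α := T)]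
  rw [← h]
  congr 2
  rw [← Nat.card_coe_set_eq, Nat.card_eq_fintype_card]

end Pool.Agent.KGU
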