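import Pool.Agent.KGU.UBord
import Pool.Agent.KGU.UOrth

/-! # Adding a vertex: the count for a fixed matrix -/

set_option autoImplicit false

open scoped BigOperators Matrix

namespace Pool.Agent.KGU

open Pool.Agent.KG

variable {V K : Type} [Fintype V] [Field K] [Finite K]

omit [Fintype V] [Field K] [Finite K] in
private theorem STF_const (p : Prop) (P : K → Prop) (h : ∀ d, P d ↔ p) :
    (Nat.card {d : K // P d} : ℤ) = open Classical in if p then (Nat.card K : ℤ) else 0 := by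
  classical
  by_cases hp : p
  · rw [if_pos hp]
    congr 1
    exact Nat.card_congr (Equiv.subtypeUnivEquiv fun d => (h d).2 hp)
  · rw [if_neg hp]
    have : IsEmpty {d : K // P d} := ⟨fun d => hp ((h d.1).1 d.2)⟩
    rw [Nat.card_of_isEmpty]
    rfl

omit [Fintype V] [Field K] in
private theorem STF_two (d0 : K) (p s : Prop) (P : K → Prop) (h0 : P d0 ↔ p)
    (h1 : ∀ d, d ≠ d0 → (P d ↔ s)) :
    (Nat.card {d : K // P d} : ℤ) =
      open Classical in (if p then 1 else 0) + (if s then (Nat.card K : ℤ) - 1 else 0) := by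
  classical
  have : Fintype K := Fintype.ofFinite K
  have e1 : (Nat.card {d : K // P d} : ℤ) = ∑ d : K, if P d then (1 : ℤ) else 0 := by
    rw [Nat.card_eq_fintype_card, Fintype.card_subtype, Finset.card_filter]
    push_cast
    rfl
  rw [e1, ← Finset.add_sum_erase _ _ (Finset.mem_univ d0)]
  congr 1
  · exact if_congr h0 rfl rfl
  · rw [Finset.sum_congr rfl (g := fun _ => if s then (1 : ℤ) else 0)
      (fun d hd => if_congr (h1 d (Finset.ne_of_mem_erase hd)) rfl rfl)]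
    rw [Finset.sum_const, Finset.card_erase_of_mem (Finset.mem_univ _), Finset.card_univ,
      Nat.card_eq_fintype_card]
    have : 1 ≤ Fintype.card K := Fintype.card_pos_iff.2 ⟨d0⟩
    rw [nsmul_eq_mul, Nat.cast_sub this]
    split_ifs <;> simp

private theorem STF_inner (M : Matrix V V K) (hM : M.IsSymm) (b : Set V) (τ ρ : ℕ)
    (hτ : Module.finrank K (K0 M b) = τ) (hρ : Module.finrank K (K0 M ∅) = τ + ρ) (t r : ℕ)
    (u : V → K) :
    (Nat.card {d : K // Module.finrank K (K0 (bord M u d) (bplus b)) = t ∧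
      Module.finrank K (K0 (bord M u d) ∅) = t + r} : ℤ) =
    open Classical in if ∃ x ∈ K0 M b, u ⬝ᵥ x ≠ 0 then
        (if τ = t + 1 ∧ ρ = r then (Nat.card K : ℤ) else 0)
      else if ∃ x ∈ K0 M ∅, u ⬝ᵥ x ≠ 0 then (if τ = t ∧ ρ = r + 1 then (Nat.card K : ℤ) else 0)
      else (if τ = t ∧ ρ + 1 = r then 1 else 0) +
        (if τ = t ∧ ρ = r then (Nat.card K : ℤ) - 1 else 0) := by
  classical
  have hle : ∀ x ∈ K0 M b, x ∈ K0 M ∅ := fun x hx =>
    ⟨hx.1, fun i hi => absurd hi (Set.notMem_empty i)⟩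
  by_cases hA : ∃ x ∈ K0 M b, u ⬝ᵥ x ≠ 0
  · rw [if_pos hA]
    refine (STF_const _ _ fun d => ?_).trans (by congr)
    obtain ⟨x, hx, hux⟩ := hA
    have e1 := bord_t1 M u d b ⟨x, hx, hux⟩
    have e2 := bord_c1 M hM u d ⟨x, hle x hx, hux⟩
    rw [hτ] at e1
    rw [hρ] at e2
    omega
  · rw [if_neg hA]
    push Not at hA
    by_cases hB : ∃ x ∈ K0 M ∅, u ⬝ᵥ x ≠ 0
    · rw [if_pos hB]
      refine (STF_const _ _ fun d => ?_).trans (by congr)
      have e1 := bord_t0 M u d b hA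
      have e2 := bord_c1 M hM u d hB
      rw [hτ] at e1
      rw [hρ] at e2
      omega
    · rw [if_neg hB]
      push Not at hB
      obtain ⟨d0, e2, e3⟩ := bord_c0 M hM u hB
      refine (STF_two d0 _ _ _ ?_ fun d hd => ?_).trans (by congr)
      · have e1 := bord_t0 M u d0 b hA
        rw [hτ] at e1
        rw [hρ] at e2
        omega
      · have e1 := bord_t0 M u d b hA
        have e4 := e3 d hd
        rw [hτ] at e1
        rw [hρ] at e4
        omega

omit [Field K] in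
private theorem STF_sum (P : (V → K) → Prop) (Q : (V → K) → K → Prop) (A B : (V → K) → Prop)
    (hAB : ∀ u, A u → B u) (α β γ : ℤ)
    (h : ∀ u, P u → (Nat.card {d : K // Q u d} : ℤ) =
      open Classical in if A u then α else if B u then β else γ) :
    (Nat.card {x : (V → K) × K // P x.1 ∧ Q x.1 x.2} : ℤ) =
      α * (Nat.card {u : V → K // P u} : ℤ) + (β - α) * (Nat.card {u : V → K // P u ∧ ¬ A u} : ℤ) +
        (γ - β) * (Nat.card {u : V → K // P u ∧ ¬ B u} : ℤ) := by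
  classical
  have : Fintype K := Fintype.ofFinite K
  have e1 : (Nat.card {x : (V → K) × K // P x.1 ∧ Q x.1 x.2} : ℤ) =
      ∑ u : V → K, if P u then (Nat.card {d : K // Q u d} : ℤ) else 0 := by
    rw [Nat.card_eq_fintype_card, Fintype.card_subtype, Finset.card_filter]
    push_cast
    rw [Fintype.sum_prod_type]
    refine Finset.sum_congr rfl fun u _ => ?_
    by_cases hP : P u
    · rw [if_pos hP, Nat.card_eq_fintype_card, Fintype.card_subtype, Finset.card_filter]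
      push_cast
      refine Finset.sum_congr rfl fun d _ => ?_
      exact if_congr (by simp [hP]) rfl rfl
    · rw [if_neg hP]
      exact Finset.sum_eq_zero fun d _ => if_neg fun h => hP h.1
  have e2 : ∀ R : (V → K) → Prop, (Nat.card {u : V → K // R u} : ℤ) =
      ∑ u : V → K, if R u then (1 : ℤ) else 0 := by
    intro R
    rw [Nat.card_eq_fintype_card, Fintype.card_subtype, Finset.card_filter]
    push_cast
    rfl
  rw [e1, e2, e2, e2, Finset.mul_sum, Finset.mul_sum, Finset.mul_sum, ← Finset.sum_add_distrib,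
    ← Finset.sum_add_distrib]
  refine Finset.sum_congr rfl fun u _ => ?_
  by_cases hP : P u
  · have hh := h u hP
    rw [if_pos hP, if_pos hP, hh]
    by_cases hA : A u
    · have hB := hAB u hA
      have nA : ¬ (P u ∧ ¬ A u) := fun h => h.2 hA
      have nB : ¬ (P u ∧ ¬ B u) := fun h => h.2 hB
      rw [if_pos hA, if_neg nA, if_neg nB]
      ring
    · have nA : (P u ∧ ¬ A u) := ⟨hP, hA⟩
      by_cases hB : B u
      · have nB : ¬ (P u ∧ ¬ B u) := fun h => h.2 hB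
        rw [if_neg hA, if_pos hB, if_pos nA, if_neg nB]
        ring
      · have nB : (P u ∧ ¬ B u) := ⟨hP, hB⟩
        rw [if_neg hA, if_neg hB, if_pos nA, if_pos nB]
        ring
  · have nA : ¬ (P u ∧ ¬ A u) := fun h => hP h.1
    have nB : ¬ (P u ∧ ¬ B u) := fun h => hP h.1
    rw [if_neg hP, if_neg hP, if_neg nA, if_neg nB]
    ring

open Classical in
/-- A vertex joined to all vertices. Let `M` have type `(τ, ρ)`: `τ = dim K0 M b`, `τ + ρ = dim K0 M ∅`.
PROOF: let `N = K0 M ∅`, `N0 = K0 M b`, `n = card V`. By `bord_t0`, `bord_t1`, `bord_c0`, `bord_c1` the type of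
`bord M u d` is
* `(τ - 1, ρ)` if `u` is not orthogonal to `N0` (then it is not orthogonal to `N`),
* `(τ, ρ - 1)` if `u` is orthogonal to `N0` but not to `N`,
* `(τ, ρ + 1)` if `u` is orthogonal to `N` and `d = d0 (u)`,
* `(τ, ρ)` if `u` is orthogonal to `N` and `d ≠ d0 (u)`.
By `orth_full` the numbers of pairs `(u, d)` of these four kinds are, with `q = card K`, `q (q^n - q^(n-τ))`,
`q (q^(n-τ) - q^(n-τ-ρ))`, `q^(n-τ-ρ)`, `(q - 1) q^(n-τ-ρ)`. In each of the cases the left side is this number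
times `q^(t+r+1)`. (For `τ = 0` the first kind is empty, for `ρ = 0` the second, as they should.) -/
theorem step_full (M : Matrix V V K) (hM : M.IsSymm) (b : Set V) (τ ρ : ℕ)
    (hτ : Module.finrank K (K0 M b) = τ) (hρ : Module.finrank K (K0 M ∅) = τ + ρ) (t r : ℕ) :
    (Nat.card {x : (V → K) × K // Module.finrank K (K0 (bord M x.1 x.2) (bplus b)) = t ∧
      Module.finrank K (K0 (bord M x.1 x.2) ∅) = t + r} : ℤ) * (Nat.card K : ℤ) ^ (t + r + 1) =
    (if τ = t ∧ ρ + 1 = r then (Nat.card K : ℤ) ^ (Fintype.card V + 2) else 0) +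
    (if τ = t ∧ ρ = r then ((Nat.card K : ℤ) - 1) * (Nat.card K : ℤ) ^ (Fintype.card V + 1) else 0) +
    (if τ = t ∧ ρ = r + 1 then (Nat.card K : ℤ) ^ (Fintype.card V + r + 2) -
      (Nat.card K : ℤ) ^ (Fintype.card V + 1) else 0) +
    (if τ = t + 1 ∧ ρ = r then (Nat.card K : ℤ) ^ (Fintype.card V + t + r + 2) -
      (Nat.card K : ℤ) ^ (Fintype.card V + r + 1) else 0) := by
  have hle : ∀ x ∈ K0 M b, x ∈ K0 M ∅ := fun x hx =>
    ⟨hx.1, fun i hi => absurd hi (Set.notMem_empty i)⟩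
  have key := STF_sum (V := V) (K := K) (fun _ => True)
    (fun u d => Module.finrank K (K0 (bord M u d) (bplus b)) = t ∧
      Module.finrank K (K0 (bord M u d) ∅) = t + r)
    (fun u => ∃ x ∈ K0 M b, u ⬝ᵥ x ≠ 0) (fun u => ∃ x ∈ K0 M ∅, u ⬝ᵥ x ≠ 0)
    (fun u ⟨x, hx, h⟩ => ⟨x, hle x hx, h⟩)
    (if τ = t + 1 ∧ ρ = r then (Nat.card K : ℤ) else 0)
    (if τ = t ∧ ρ = r + 1 then (Nat.card K : ℤ) else 0)
    ((if τ = t ∧ ρ + 1 = r then 1 else 0) + (if τ = t ∧ ρ = r then (Nat.card K : ℤ) - 1 else 0))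
    (fun u _ => STF_inner M hM b τ ρ hτ hρ t r u)
  have c0 : (Nat.card {x : (V → K) × K // True ∧
      (Module.finrank K (K0 (bord M x.1 x.2) (bplus b)) = t ∧
        Module.finrank K (K0 (bord M x.1 x.2) ∅) = t + r)}) =
      Nat.card {x : (V → K) × K // Module.finrank K (K0 (bord M x.1 x.2) (bplus b)) = t ∧
        Module.finrank K (K0 (bord M x.1 x.2) ∅) = t + r} :=
    Nat.card_congr (Equiv.subtypeEquivRight fun x => by simp)
  have c1 : (Nat.card {u : V → K // True}) = Nat.card K ^ Fintype.card V := by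
    rw [Nat.card_congr (Equiv.subtypeUnivEquiv fun _ => trivial), Nat.card_fun,
      Nat.card_eq_fintype_card (α := V)]
  have c2 : (Nat.card {u : V → K // True ∧ ¬ ∃ x ∈ K0 M b, u ⬝ᵥ x ≠ 0}) =
      Nat.card {u : V → K // ∀ x ∈ K0 M b, u ⬝ᵥ x = 0} :=
    Nat.card_congr (Equiv.subtypeEquivRight fun x => by simp)
  have c3 : (Nat.card {u : V → K // True ∧ ¬ ∃ x ∈ K0 M ∅, u ⬝ᵥ x ≠ 0}) =
      Nat.card {u : V → K // ∀ x ∈ K0 M ∅, u ⬝ᵥ x = 0} :=
    Nat.card_congr (Equiv.subtypeEquivRight fun x => by simp)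
  have h0 := orth_full (K0 M b)
  have h1 := orth_full (K0 M ∅)
  rw [hτ] at h0
  rw [hρ] at h1
  rw [c0, c1, c2, c3] at key
  rw [key]
  have h0' : (Nat.card {u : V → K // ∀ x ∈ K0 M b, u ⬝ᵥ x = 0} : ℤ) * (Nat.card K : ℤ) ^ τ =
      (Nat.card K : ℤ) ^ Fintype.card V := by exact_mod_cast h0
  have h1' : (Nat.card {u : V → K // ∀ x ∈ K0 M ∅, u ⬝ᵥ x = 0} : ℤ) * (Nat.card K : ℤ) ^ (τ + ρ) =
      (Nat.card K : ℤ) ^ Fintype.card V := by exact_mod_cast h1
  push_cast
  generalize (Nat.card {u : V → K // ∀ x ∈ K0 M b, u ⬝ᵥ x = 0} : ℤ) = a0 at *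
  generalize (Nat.card {u : V → K // ∀ x ∈ K0 M ∅, u ⬝ᵥ x = 0} : ℤ) = a1 at *
  generalize (Nat.card K : ℤ) = q at *
  clear key c0 c1 c2 c3 h0 h1
  by_cases k1 : τ = t ∧ ρ + 1 = r
  · have n2 : ¬ (τ = t ∧ ρ = r) := by omega
    have n3 : ¬ (τ = t ∧ ρ = r + 1) := by omega
    have n4 : ¬ (τ = t + 1 ∧ ρ = r) := by omega
    rw [if_pos k1, if_pos k1, if_neg n2, if_neg n2, if_neg n3, if_neg n3, if_neg n4, if_neg n4]
    obtain ⟨rfl, rfl⟩ := k1
    linear_combination q ^ 2 * h1'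
  by_cases k2 : τ = t ∧ ρ = r
  · have n3 : ¬ (τ = t ∧ ρ = r + 1) := by omega
    have n4 : ¬ (τ = t + 1 ∧ ρ = r) := by omega
    rw [if_neg k1, if_neg k1, if_pos k2, if_pos k2, if_neg n3, if_neg n3, if_neg n4, if_neg n4]
    obtain ⟨rfl, rfl⟩ := k2
    linear_combination (q - 1) * q * h1'
  by_cases k3 : τ = t ∧ ρ = r + 1
  · have n4 : ¬ (τ = t + 1 ∧ ρ = r) := by omega
    rw [if_neg k1, if_neg k1, if_neg k2, if_neg k2, if_pos k3, if_pos k3, if_neg n4, if_neg n4]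
    obtain ⟨rfl, rfl⟩ := k3
    linear_combination q ^ (r + 2) * h0' - q * h1'
  by_cases k4 : τ = t + 1 ∧ ρ = r
  · rw [if_neg k1, if_neg k1, if_neg k2, if_neg k2, if_neg k3, if_neg k3, if_pos k4, if_pos k4]
    obtain ⟨rfl, rfl⟩ := k4
    linear_combination (-q ^ (ρ + 1)) * h0'
  rw [if_neg k1, if_neg k1, if_neg k2, if_neg k2, if_neg k3, if_neg k3, if_neg k4, if_neg k4]
  ring

open Classical in
/-- A vertex joined to the vertices in `b`.
PROOF: as for `step_full`, but `u` is supported on `b`; such an `u` is orthogonal to `N0 = K0 M b`, whose vectors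
vanish on `b`. With `k = b.ncard` the numbers of pairs `(u, d)` for which the type becomes `(τ, ρ - 1)`,
`(τ, ρ + 1)`, `(τ, ρ)` are `q (q^k - q^(k-ρ))`, `q^(k-ρ)`, `(q - 1) q^(k-ρ)` (`supp_card`, `orth_part`). -/
theorem step_part (M : Matrix V V K) (hM : M.IsSymm) (b : Set V) (τ ρ : ℕ)
    (hτ : Module.finrank K (K0 M b) = τ) (hρ : Module.finrank K (K0 M ∅) = τ + ρ) (t r : ℕ) :
    (Nat.card {x : (V → K) × K // (∀ i, i ∉ b → x.1 i = 0) ∧
      Module.finrank K (K0 (bord M x.1 x.2) (bplus b)) = t ∧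
      Module.finrank K (K0 (bord M x.1 x.2) ∅) = t + r} : ℤ) * (Nat.card K : ℤ) ^ (r + 1) =
    (if τ = t ∧ ρ + 1 = r then (Nat.card K : ℤ) ^ (b.ncard + 2) else 0) +
    (if τ = t ∧ ρ = r then ((Nat.card K : ℤ) - 1) * (Nat.card K : ℤ) ^ (b.ncard + 1) else 0) +
    (if τ = t ∧ ρ = r + 1 then (Nat.card K : ℤ) ^ (b.ncard + r + 2) -
      (Nat.card K : ℤ) ^ (b.ncard + 1) else 0) := by
  have hdot : ∀ u : V → K, (∀ i, i ∉ b → u i = 0) → ∀ x ∈ K0 M b, u ⬝ᵥ x = 0 := by
    intro u hu x hx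
    refine Finset.sum_eq_zero fun i _ => ?_
    by_cases hi : i ∈ b
    · rw [hx.2 i hi, mul_zero]
    · rw [hu i hi, zero_mul]
  have key := STF_sum (V := V) (K := K) (fun u => ∀ i, i ∉ b → u i = 0)
    (fun u d => Module.finrank K (K0 (bord M u d) (bplus b)) = t ∧
      Module.finrank K (K0 (bord M u d) ∅) = t + r)
    (fun _ => False) (fun u => ∃ x ∈ K0 M ∅, u ⬝ᵥ x ≠ 0)
    (fun u h => h.elim)
    0
    (if τ = t ∧ ρ = r + 1 then (Nat.card K : ℤ) else 0)
    ((if τ = t ∧ ρ + 1 = r then 1 else 0) + (if τ = t ∧ ρ = r then (Nat.card K : ℤ) - 1 else 0))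
    (fun u hu => by
      rw [STF_inner M hM b τ ρ hτ hρ t r u, if_neg (by
        rintro ⟨x, hx, h⟩
        exact h (hdot u hu x hx)), if_neg (fun h : False => h)])
  have c2 : (Nat.card {u : V → K // (∀ i, i ∉ b → u i = 0) ∧ ¬ False}) =
      Nat.card {u : V → K // ∀ i, i ∉ b → u i = 0} :=
    Nat.card_congr (Equiv.subtypeEquivRight fun x => by simp)
  have c3 : (Nat.card {u : V → K // (∀ i, i ∉ b → u i = 0) ∧ ¬ ∃ x ∈ K0 M ∅, u ⬝ᵥ x ≠ 0}) =
      Nat.card {u : V → K // (∀ i, i ∉ b → u i = 0) ∧ ∀ x ∈ K0 M ∅, u ⬝ᵥ x = 0} :=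
    Nat.card_congr (Equiv.subtypeEquivRight fun x => by simp)
  have h1 := orth_part M b τ ρ hτ hρ
  rw [c2, c3, supp_card] at key
  rw [key]
  have h1' : (Nat.card {u : V → K // (∀ i, i ∉ b → u i = 0) ∧ ∀ x ∈ K0 M ∅, u ⬝ᵥ x = 0} : ℤ) *
      (Nat.card K : ℤ) ^ ρ = (Nat.card K : ℤ) ^ b.ncard := by exact_mod_cast h1
  push_cast
  generalize (Nat.card {u : V → K // (∀ i, i ∉ b → u i = 0) ∧ ∀ x ∈ K0 M ∅, u ⬝ᵥ x = 0} : ℤ) =
    a1 at *
  generalize (Nat.card K : ℤ) = q at *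
  clear key c2 c3 h1
  by_cases k1 : τ = t ∧ ρ + 1 = r
  · have n2 : ¬ (τ = t ∧ ρ = r) := by omega
    have n3 : ¬ (τ = t ∧ ρ = r + 1) := by omega
    rw [if_pos k1, if_pos k1, if_neg n2, if_neg n2, if_neg n3, if_neg n3]
    obtain ⟨rfl, rfl⟩ := k1
    linear_combination q ^ 2 * h1'
  by_cases k2 : τ = t ∧ ρ = r
  · have n3 : ¬ (τ = t ∧ ρ = r + 1) := by omega
    rw [if_neg k1, if_neg k1, if_pos k2, if_pos k2, if_neg n3, if_neg n3]
    obtain ⟨rfl, rfl⟩ := k2
    linear_combination (q - 1) * q * h1'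
  by_cases k3 : τ = t ∧ ρ = r + 1
  · rw [if_neg k1, if_neg k1, if_neg k2, if_neg k2, if_pos k3, if_pos k3]
    obtain ⟨rfl, rfl⟩ := k3
    linear_combination (- q) * h1'
  rw [if_neg k1, if_neg k1, if_neg k2, if_neg k2, if_neg k3, if_neg k3]
  ring

end Pool.Agent.KGU
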